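import Pool.Agent.H845.CM.Der

set_option autoImplicit false
set_option linter.unusedSectionVars false
set_option linter.unusedSimpArgs false
set_option linter.unusedVariables false

/-!
# Operators which are scalar on the eigenspaces of the central endomorphisms
-/

open Module Function TensorProduct

noncomputable section

namespace Pool.Agent.H845.CM

open Pool.Agent.Y102 Pool.Agent.W516.DR Pool.Agent.H204R3.GP Pool.Agent.W516.KC
  Pool.Agent.H204R3.SP Pool.Agent.R912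

theorem trace_diag {U : Type} [AddCommGroup U] [Module ℂ U] {n : ℕ} (b : Basis (Fin n) ℂ U)
    (N : Module.End ℂ U) (ν : Fin n → ℂ) (h : ∀ k, N (b k) = ν k • b k) :
    LinearMap.trace ℂ U N = ∑ k, ν k := by
  rw [LinearMap.trace_eq_matrix_trace ℂ b, Matrix.trace]
  refine Finset.sum_congr rfl fun k _ => ?_
  rw [Matrix.diag_apply, LinearMap.toMatrix_apply, h, map_smul, Basis.repr_self,
    Finsupp.smul_apply, Finsupp.single_eq_same, smul_eq_mul, mul_one]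

variable {g : ℕ} {A : AbVar g}

theorem lam_omC (lam : ℂ →ₗ[ℚ] ℚ) (z : ℂ ⊗[ℚ] A.H1) (v : A.H1) :
    lam (omC A z ((1 : ℂ) ⊗ₜ[ℚ] v)) = A.om (Pool.Agent.W516.DR.cmp lam z) v := by
  induction z with
  | zero => simp only [map_zero, LinearMap.zero_apply]
  | add a b ha hb => simp only [map_add, LinearMap.add_apply, ha, hb]
  | tmul a w =>
    have h1 : a ⊗ₜ[ℚ] w = a • ((1 : ℂ) ⊗ₜ[ℚ] w) := by rw [smul_tmul', smul_eq_mul, mul_one]
    rw [h1, map_smul, LinearMap.smul_apply, omC_tmul, smul_eq_mul, ← h1,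
      Pool.Agent.W516.DR.cmp_tmul, map_smul, LinearMap.smul_apply, smul_eq_mul, mul_comm,
      ← Algebra.smul_def, map_smul, smul_eq_mul, mul_comm]

theorem skew_cmp {t : Module.End ℂ (ℂ ⊗[ℚ] A.H1)}
    (h : ∀ u v, omC A (t u) v + omC A u (t v) = 0) (lam : ℂ →ₗ[ℚ] ℚ) :
    IsSkew A.om (Pool.Agent.W516.DR.cmpE lam t) := by
  intro u v
  have h1 := congrArg lam (h ((1 : ℂ) ⊗ₜ[ℚ] u) ((1 : ℂ) ⊗ₜ[ℚ] v))
  rw [map_add, map_zero, lam_omC, omC_anti A ((1 : ℂ) ⊗ₜ[ℚ] u), map_neg, lam_omC] at h1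
  rw [Pool.Agent.W516.DR.cmpE_apply, Pool.Agent.W516.DR.cmpE_apply]
  rw [A.om_anti u]
  exact h1

/-- Operators which commute with everything and are skew have their components in `ZA`. -/
theorem cmp_mem_ZA {t : Module.End ℂ (ℂ ⊗[ℚ] A.H1)}
    (h1 : ∀ X ∈ A.LA, t * X.baseChange ℂ = X.baseChange ℂ * t)
    (h2 : ∀ Q ∈ A.EA, t * Q.baseChange ℂ = Q.baseChange ℂ * t)
    (h3 : ∀ u v, omC A (t u) v + omC A u (t v) = 0) (lam : ℂ →ₗ[ℚ] ℚ) :
    Pool.Agent.W516.DR.cmpE lam t ∈ A.ZA :=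
  ⟨fun X hX => (((comm_iff X t).2 (h1 X hX)) lam).symm, skew_cmp h3 lam,
    fun Q hQ => ((comm_iff Q t).2 (h2 Q hQ)) lam⟩

variable {n : ℕ} {b : Basis (Fin n) ℂ (ℂ ⊗[ℚ] A.H1)} {χ : Fin n → (A.ZA →ₗ[ℚ] ℂ)}

theorem coef (hb : ∀ k (R : A.ZA), (R : Module.End ℚ A.H1).baseChange ℂ (b k) = χ k R • b k)
    (R : A.ZA) (v : ℂ ⊗[ℚ] A.H1) (l : Fin n) :
    b.repr ((R : Module.End ℚ A.H1).baseChange ℂ v) l = χ l R * b.repr v l := by
  have h3 : (Finsupp.lapply l ∘ₗ b.repr.toLinearMap) ∘ₗ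
      ((R : Module.End ℚ A.H1).baseChange ℂ) =
      (χ l R) • (Finsupp.lapply l ∘ₗ b.repr.toLinearMap) := by
    refine b.ext fun k => ?_
    rw [LinearMap.comp_apply, hb, map_smul, LinearMap.smul_apply, LinearMap.comp_apply,
      LinearEquiv.coe_coe, Basis.repr_self, Finsupp.lapply_apply, Finsupp.single_apply,
      smul_eq_mul, smul_eq_mul]
    by_cases hl : k = l
    · rw [if_pos hl, hl]
    · rw [if_neg hl, mul_zero, mul_zero]
  exact congrArg (fun F : ℂ ⊗[ℚ] A.H1 →ₗ[ℂ] ℂ => F v) h3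

/-- Operators which commute with `ZA` preserve the eigenspaces. -/
theorem blk (hb : ∀ k (R : A.ZA), (R : Module.End ℚ A.H1).baseChange ℂ (b k) = χ k R • b k)
    {t : Module.End ℂ (ℂ ⊗[ℚ] A.H1)}
    (ht : ∀ R : A.ZA, t * (R : Module.End ℚ A.H1).baseChange ℂ =
      (R : Module.End ℚ A.H1).baseChange ℂ * t) {k l : Fin n} (hkl : χ l ≠ χ k) :
    b.repr (t (b k)) l = 0 := by
  obtain ⟨R, hR⟩ : ∃ R, χ l R ≠ χ k R := by
    by_contra hne
    push Not at hne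
    exact hkl (LinearMap.ext hne)
  have h1 := congrArg (fun F : Module.End ℂ (ℂ ⊗[ℚ] A.H1) => b.repr (F (b k)) l) (ht R)
  simp only [Module.End.mul_apply] at h1
  rw [hb, map_smul, map_smul, Finsupp.smul_apply, smul_eq_mul, coef hb] at h1
  have h2 : (χ l R - χ k R) * b.repr (t (b k)) l = 0 := by linear_combination -h1
  exact (mul_eq_zero.1 h2).resolve_left (sub_ne_zero.2 hR)

variable (b) in
/-- the diagonal operator -/
def dg (ν : Fin n → ℂ) : Module.End ℂ (ℂ ⊗[ℚ] A.H1) := b.constr ℂ fun k => ν k • b k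

theorem dg_apply (ν : Fin n → ℂ) (k : Fin n) : dg b ν (b k) = ν k • b k := by
  unfold dg
  rw [Basis.constr_basis]

theorem dg_coef (ν : Fin n → ℂ) (v : ℂ ⊗[ℚ] A.H1) (l : Fin n) :
    b.repr (dg b ν v) l = ν l * b.repr v l := by
  have h3 : (Finsupp.lapply l ∘ₗ b.repr.toLinearMap) ∘ₗ (dg b ν) =
      (ν l) • (Finsupp.lapply l ∘ₗ b.repr.toLinearMap) := by
    refine b.ext fun k => ?_
    rw [LinearMap.comp_apply, dg_apply, map_smul, LinearMap.smul_apply, LinearMap.comp_apply,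
      LinearEquiv.coe_coe, Basis.repr_self, Finsupp.lapply_apply, Finsupp.single_apply,
      smul_eq_mul, smul_eq_mul]
    by_cases hl : k = l
    · rw [if_pos hl, hl]
    · rw [if_neg hl, mul_zero, mul_zero]
  exact congrArg (fun F : ℂ ⊗[ℚ] A.H1 →ₗ[ℂ] ℂ => F v) h3

/-- Diagonal operators which depend only on the characters commute with all operators which commute
with `ZA`. -/
theorem dg_comm (hb : ∀ k (R : A.ZA), (R : Module.End ℚ A.H1).baseChange ℂ (b k) = χ k R • b k)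
    {ν : Fin n → ℂ} (hν : ∀ k l, χ k = χ l → ν k = ν l) {t : Module.End ℂ (ℂ ⊗[ℚ] A.H1)}
    (ht : ∀ R : A.ZA, t * (R : Module.End ℚ A.H1).baseChange ℂ =
      (R : Module.End ℚ A.H1).baseChange ℂ * t) : dg b ν * t = t * dg b ν := by
  refine b.ext fun k => ?_
  rw [Module.End.mul_apply, Module.End.mul_apply, dg_apply, map_smul]
  apply b.repr.injective
  refine Finsupp.ext fun l => ?_
  rw [dg_coef, map_smul, Finsupp.smul_apply, smul_eq_mul]
  by_cases hkl : χ l = χ k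
  · rw [hν l k hkl]
  · rw [blk hb ht hkl, mul_zero, mul_zero]

theorem dg_skew (hb : ∀ k (R : A.ZA), (R : Module.End ℚ A.H1).baseChange ℂ (b k) = χ k R • b k)
    {ν : Fin n → ℂ} (hν : ∀ k l, χ k + χ l = 0 → ν k + ν l = 0) (u v : ℂ ⊗[ℚ] A.H1) :
    omC A (dg b ν u) v + omC A u (dg b ν v) = 0 := by
  have h1 : (omC A).comp (dg b ν) + (omC A).compl₂ (dg b ν) = 0 := by
    refine b.ext fun k => b.ext fun l => ?_
    rw [LinearMap.add_apply, LinearMap.add_apply, LinearMap.comp_apply, LinearMap.compl₂_apply,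
      dg_apply, dg_apply, map_smul, LinearMap.smul_apply, map_smul, smul_eq_mul, smul_eq_mul,
      ← add_mul, LinearMap.zero_apply, LinearMap.zero_apply]
    by_cases h0 : omC A (b k) (b l) = 0
    · rw [h0, mul_zero]
    · rw [hν k l, zero_mul]
      refine LinearMap.ext fun R => ?_
      have h2 := skew_ext A.om (omC A) (omC_tmul A) R.2.2.1 (b k) (b l)
      rw [hb, hb, map_smul, LinearMap.smul_apply, map_smul, smul_eq_mul, smul_eq_mul,
        ← add_mul] at h2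
      exact (mul_eq_zero.1 h2).resolve_right h0
  have h2 := LinearMap.congr_fun (LinearMap.congr_fun h1 u) v
  exact h2

/-- Operators commuting with the Lie algebra. -/
theorem LA_comm_ZA {X : Module.End ℚ A.H1} (hX : X ∈ A.LA) (R : A.ZA) :
    X.baseChange ℂ * (R : Module.End ℚ A.H1).baseChange ℂ =
      ((R : Module.End ℚ A.H1).baseChange ℂ * X.baseChange ℂ : Module.End ℂ (ℂ ⊗[ℚ] A.H1)) := by
  rw [← bc_mul, ← bc_mul, R.2.1 X hX]

theorem EA_comm_ZA {Q : Module.End ℚ A.H1} (hQ : Q ∈ A.EA) (R : A.ZA) :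
    Q.baseChange ℂ * (R : Module.End ℚ A.H1).baseChange ℂ =
      ((R : Module.End ℚ A.H1).baseChange ℂ * Q.baseChange ℂ : Module.End ℂ (ℂ ⊗[ℚ] A.H1)) := by
  rw [← bc_mul, ← bc_mul, R.2.2.2 Q hQ]

/-- Diagonal operators have their components in `ZA`. -/
theorem dg_mem (hb : ∀ k (R : A.ZA), (R : Module.End ℚ A.H1).baseChange ℂ (b k) = χ k R • b k)
    {ν : Fin n → ℂ} (hν : ∀ k l, χ k = χ l → ν k = ν l)
    (hν' : ∀ k l, χ k + χ l = 0 → ν k + ν l = 0) (lam : ℂ →ₗ[ℚ] ℚ) :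
    Pool.Agent.W516.DR.cmpE lam (dg b ν) ∈ A.ZA :=
  cmp_mem_ZA (fun X hX => dg_comm hb hν (LA_comm_ZA hX)) (fun Q hQ => dg_comm hb hν (EA_comm_ZA hQ))
    (dg_skew hb hν') lam

theorem dg_cx (hb : ∀ k (R : A.ZA), (R : Module.End ℚ A.H1).baseChange ℂ (b k) = χ k R • b k)
    {ν : Fin n → ℂ} (hν : ∀ k l, χ k = χ l → ν k = ν l)
    (hν' : ∀ k l, χ k + χ l = 0 → ν k + ν l = 0) : dg b ν ∈ cx A.ZA :=
  end_mem_span _ _ (dg_mem hb hν hν')

theorem trace_eq (hb : ∀ k (R : A.ZA), (R : Module.End ℚ A.H1).baseChange ℂ (b k) = χ k R • b k)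
    (P R : A.ZA) : ((LinearMap.trace ℚ A.H1 ((P : Module.End ℚ A.H1) * R) : ℚ) : ℂ) =
      ∑ k, χ k P * χ k R := by
  have h1 : ((LinearMap.trace ℚ A.H1 ((P : Module.End ℚ A.H1) * R) : ℚ) : ℂ) =
      LinearMap.trace ℂ (ℂ ⊗[ℚ] A.H1)
        (((P : Module.End ℚ A.H1) * (R : Module.End ℚ A.H1)).baseChange ℂ) := by
    rw [LinearMap.trace_baseChange]
    rfl
  rw [h1, bc_mul]
  refine trace_diag b _ _ fun k => ?_
  rw [Module.End.mul_apply, hb, map_smul, hb, smul_smul, mul_comm (χ k R) (χ k P)]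

/-- The trace form is nondegenerate. -/
theorem dg_zero (hb : ∀ k (R : A.ZA), (R : Module.End ℚ A.H1).baseChange ℂ (b k) = χ k R • b k)
    {ν : Fin n → ℂ} (hν : ∀ k l, χ k = χ l → ν k = ν l)
    (hν' : ∀ k l, χ k + χ l = 0 → ν k + ν l = 0) (h : ∀ R : A.ZA, ∑ k, ν k * χ k R = 0) :
    ∀ k, ν k = 0 := by
  have h1 : dg b ν = 0 := by
    apply eq_zero_of_cmpE
    intro lam
    have h2 := dg_mem hb hν hν' lam
    obtain ⟨M, hM⟩ := A.hodge_end (A.mem_EA.1 h2.1)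
    refine A.trace_sq hM h2.2.1 ?_
    have h3 : LinearMap.trace ℂ (ℂ ⊗[ℚ] A.H1) (dg b ν *
        (Pool.Agent.W516.DR.cmpE lam (dg b ν)).baseChange ℂ) = 0 := by
      rw [← h ⟨_, h2⟩]
      refine trace_diag b _ _ fun k => ?_
      have h4 := hb k ⟨_, h2⟩
      rw [Module.End.mul_apply]
      change dg b ν ((Pool.Agent.W516.DR.cmpE lam (dg b ν)).baseChange ℂ (b k)) = _
      have h5 : (Pool.Agent.W516.DR.cmpE lam (dg b ν)).baseChange ℂ (b k) =
        χ k ⟨_, h2⟩ • b k := h4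
      rw [h5, map_smul, dg_apply, smul_smul, mul_comm (χ k ⟨_, h2⟩) (ν k)]
    rw [← cmpE_mul_bc, trace_cmpE, h3, map_zero]
  intro k
  have h2 := dg_apply (b := b) ν k
  rw [h1, LinearMap.zero_apply] at h2
  exact (smul_eq_zero.1 h2.symm).resolve_right (b.ne_zero k)

end Pool.Agent.H845.CM
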