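import Mathlib

set_option autoImplicit false

/-!
# Relations between four characters
-/

namespace Pool.Agent.H845.CM

open Finset

/-- characters with a restriction map which separates the nonzero characters -/
structure Chars {n : ℕ} {M N : Type} [AddCommGroup M] [AddCommGroup N] (χ : Fin n → M)
    (ρ : M →+ N) (σ : Equiv.Perm (Fin n)) : Prop where
  tM : ∀ x : M, x + x = 0 → x = 0
  tN : ∀ x : N, x + x = 0 → x = 0
  sep : ∀ i j, χ i ≠ 0 → χ j ≠ 0 → ρ (χ i) = ρ (χ j) → χ i = χ j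
  sep0 : ∀ i, ρ (χ i) = 0 → χ i = 0
  opp : ∀ k, χ (σ k) = -χ k

namespace Chars

variable {n : ℕ} {M N : Type} [AddCommGroup M] [AddCommGroup N] {χ : Fin n → M}
    {ρ : M →+ N} {σ : Equiv.Perm (Fin n)} (H : Chars χ ρ σ)
include H

theorem opp_symm (k : Fin n) : χ (σ.symm k) = -χ k := by
  have h := H.opp (σ.symm k)
  rw [Equiv.apply_symm_apply] at h
  rw [h, neg_neg]

theorem ne_σ {k : Fin n} (hk : χ k ≠ 0) : χ (σ k) ≠ 0 := by
  rw [H.opp]; exact neg_ne_zero.2 hk

/-- two characters with opposite restrictions are opposite -/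
theorem two {x y : Fin n} (hx : χ x ≠ 0) (hy : χ y ≠ 0) (h : ρ (χ x + χ y) = 0) :
    χ x + χ y = 0 := by
  have h1 : χ x = χ (σ y) := by
    refine H.sep _ _ hx (H.ne_σ hy) ?_
    rw [H.opp, map_neg]
    rw [map_add] at h
    exact eq_neg_of_add_eq_zero_left h
  rw [h1, H.opp, neg_add_cancel]

theorem four {T : Finset (Fin n)} (hT : ∀ x ∈ T, χ x ≠ 0) (h4 : T.card = 4)
    (h : ρ (∑ x ∈ T, χ x) = 0) : ∑ x ∈ T, χ x = 0 ∨ ∀ x ∈ T, ∀ y ∈ T, χ x + χ y ≠ 0 := by
  classical
  by_cases hc : ∃ x ∈ T, ∃ y ∈ T, χ x + χ y = 0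
  · left
    obtain ⟨x, hx, y, hy, hxy⟩ := hc
    have hne : x ≠ y := by
      rintro rfl
      exact hT x hx (H.tM _ hxy)
    have hy' : y ∈ T.erase x := mem_erase.2 ⟨hne.symm, hy⟩
    have hcard : ((T.erase x).erase y).card = 2 := by
      rw [card_erase_of_mem hy', card_erase_of_mem hx, h4]
    obtain ⟨z, w, hzw, hzwe⟩ := card_eq_two.1 hcard
    have hz : z ∈ (T.erase x).erase y := by rw [hzwe]; simp
    have hw : w ∈ (T.erase x).erase y := by rw [hzwe]; simp
    have hsum : ∑ x ∈ T, χ x = χ z + χ w := by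
      rw [← add_sum_erase T χ hx, ← add_sum_erase (T.erase x) χ hy', hzwe, sum_pair hzw,
        ← add_assoc, hxy, zero_add]
    rw [hsum] at h ⊢
    exact H.two (hT z (mem_of_mem_erase (mem_of_mem_erase hz)))
      (hT w (mem_of_mem_erase (mem_of_mem_erase hw))) h
  · right
    push Not at hc
    exact hc

/-- The other relations, if there is a relation without cancellations. -/
theorem other {T : Finset (Fin n)} (hT : ∀ x ∈ T, χ x ≠ 0) (h4 : T.card = 4)
    (h : ρ (∑ x ∈ T, χ x) = 0) (hc : ∀ x ∈ T, ∀ y ∈ T, χ x + χ y ≠ 0)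
    (h8 : ∀ S : Finset (Fin n), (∀ x ∈ S, χ x ≠ 0) → S.card ≤ 8) :
    (∀ k, χ k ≠ 0 → k ∈ T ∨ σ.symm k ∈ T) ∧
    ∀ T' : Finset (Fin n), (∀ x ∈ T', χ x ≠ 0) → T'.card = 4 → ρ (∑ x ∈ T', χ x) = 0 →
      ∑ x ∈ T', χ x = 0 ∨ T' = T ∨ T' = T.map σ.toEmbedding := by
  classical
  have hdis : Disjoint T (T.map σ.toEmbedding) := by
    rw [disjoint_left]
    intro k hk hk'
    obtain ⟨t, ht, rfl⟩ := mem_map.1 hk'
    apply hc _ hk t ht
    change χ (σ t) + χ t = 0
    rw [H.opp, neg_add_cancel]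
  have hk : ∀ k, χ k ≠ 0 → k ∈ T ∨ σ.symm k ∈ T := by
    intro k hk
    by_contra hne
    push Not at hne
    have h1 : k ∉ T ∪ T.map σ.toEmbedding := by
      intro h1
      rcases mem_union.1 h1 with h1 | h1
      · exact hne.1 h1
      · obtain ⟨t, ht, rfl⟩ := mem_map.1 h1
        apply hne.2
        change σ.symm (σ t) ∈ T
        rwa [Equiv.symm_apply_apply]
    have h2 := h8 (insert k (T ∪ T.map σ.toEmbedding)) (by
      intro x hx
      rcases mem_insert.1 hx with rfl | hx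
      · exact hk
      · rcases mem_union.1 hx with hx | hx
        · exact hT x hx
        · obtain ⟨t, ht, rfl⟩ := mem_map.1 hx
          exact H.ne_σ (hT t ht))
    rw [card_insert_of_notMem h1, card_union_of_disjoint hdis, card_map, h4] at h2
    omega
  refine ⟨hk, fun T' hT' h4' h' => ?_⟩
  obtain ⟨B, hB⟩ : ∃ B, B = (T' \ T).map σ.symm.toEmbedding := ⟨_, rfl⟩
  obtain ⟨P, hP⟩ : ∃ P, P = T' ∩ T := ⟨_, rfl⟩
  have hBT : B ⊆ T := by
    intro x hx
    rw [hB] at hx
    obtain ⟨k, hk', rfl⟩ := mem_map.1 hx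
    rw [mem_sdiff] at hk'
    exact (hk k (hT' k hk'.1)).resolve_left hk'.2
  have hPT : P ⊆ T := by rw [hP]; exact inter_subset_right
  have hcard : P.card + B.card = 4 := by
    rw [hP, hB, card_map, ← h4']
    exact card_inter_add_card_sdiff T' T
  have hsum : ∑ x ∈ T', χ x = ∑ x ∈ P, χ x - ∑ x ∈ B, χ x := by
    have h1 : ∑ x ∈ B, χ x = -∑ x ∈ T' \ T, χ x := by
      rw [hB, sum_map, ← sum_neg_distrib]
      exact sum_congr rfl fun x _ => H.opp_symm x
    rw [h1, sub_neg_eq_add, hP]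
    exact (sum_inter_add_sum_sdiff T' T χ).symm
  have hB4 : B.card ≤ 4 := by omega
  have hcT : ∀ S ⊆ T, ∑ x ∈ S, χ x = ∑ x ∈ T, χ x - ∑ x ∈ T \ S, χ x := by
    intro S hS
    rw [← sum_sdiff hS]
    abel
  have hcc : ∀ S ⊆ T, (T \ S).card = 4 - S.card := by
    intro S hS
    rw [card_sdiff_of_subset hS, h4]
  interval_cases hq : B.card
  · -- T' = T
    right; left
    have h1 : P.card = 4 := by omega
    have h2 : P = T := eq_of_subset_of_card_le hPT (by rw [h1, h4])
    have h3 : P = T' := eq_of_subset_of_card_le (by rw [hP]; exact inter_subset_left)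
      (by rw [h1, h4'])
    rw [← h3, h2]
  · exfalso
    obtain ⟨x, hx⟩ := card_eq_one.1 hq
    have h1 : (T \ P).card = 1 := by rw [hcc P hPT]; omega
    obtain ⟨y, hy⟩ := card_eq_one.1 h1
    have hxT : x ∈ T := hBT (by rw [hx]; exact mem_singleton_self x)
    have hyT : y ∈ T := (mem_sdiff.1 (show y ∈ T \ P by rw [hy]; exact mem_singleton_self y)).1
    rw [hsum, hcT P hPT, hy, hx, sum_singleton, sum_singleton, map_sub, map_sub, h] at h'
    apply hc x hxT y hyT
    apply H.two (hT x hxT) (hT y hyT)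
    rw [map_add]
    have h2 : ρ (χ x) + ρ (χ y) = -(0 - ρ (χ y) - ρ (χ x)) := by abel
    rw [h2, h', neg_zero]
  · -- two and two
    have hP2 : P.card = 2 := by omega
    obtain ⟨x, y, hxy, hBe⟩ := card_eq_two.1 hq
    obtain ⟨x', y', hxy', hPe⟩ := card_eq_two.1 hP2
    have hxT : x ∈ T := hBT (by rw [hBe]; simp)
    have hyT : y ∈ T := hBT (by rw [hBe]; simp)
    have hxT' : x' ∈ T := hPT (by rw [hPe]; simp)
    have hyT' : y' ∈ T := hPT (by rw [hPe]; simp)
    rw [hsum, hPe, hBe, sum_pair hxy, sum_pair hxy'] at h'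
    have key : ∀ p q r s : Fin n, p ∈ T → q ∈ T → r ∈ T → s ∈ T →
        ρ (χ p + χ q - (χ r + χ s)) = 0 → p = r → χ p + χ q - (χ r + χ s) = 0 := by
      intro p q r s hp hq hr hs he hpr
      subst hpr
      have h1 : χ q = χ s := by
        refine H.sep _ _ (hT q hq) (hT s hs) ?_
        rw [map_sub, map_add, map_add] at he
        have h2 : ρ (χ q) - ρ (χ s) = 0 := by
          rw [← he]; abel
        exact sub_eq_zero.1 h2
      rw [h1]; abel
    by_cases hint : ∃ z, z ∈ P ∧ z ∈ B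
    · left
      rw [hsum, hPe, hBe, sum_pair hxy, sum_pair hxy']
      obtain ⟨z, hzP, hzB⟩ := hint
      rw [hPe, mem_insert, mem_singleton] at hzP
      rw [hBe, mem_insert, mem_singleton] at hzB
      rcases hzP with rfl | rfl <;> rcases hzB with hz | hz
      · exact key _ _ _ _ hxT' hyT' hxT hyT h' hz
      · rw [add_comm (χ x) (χ y)] at h' ⊢
        exact key _ _ _ _ hxT' hyT' hyT hxT h' hz
      · rw [add_comm (χ x') (χ z)] at h' ⊢
        exact key _ _ _ _ hyT' hxT' hxT hyT h' hz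
      · rw [add_comm (χ x') (χ z), add_comm (χ x) (χ y)] at h' ⊢
        exact key _ _ _ _ hyT' hxT' hyT hxT h' hz
    · exfalso
      push Not at hint
      have h1 : B = T \ P := by
        apply eq_of_subset_of_card_le
        · intro z hz
          exact mem_sdiff.2 ⟨hBT hz, fun hzP => hint z hzP hz⟩
        · rw [hcc P hPT]; omega
      have h2 := hcT P hPT
      rw [← h1, hPe, hBe, sum_pair hxy, sum_pair hxy'] at h2
      rw [h2, sub_sub, map_sub, h, zero_sub, neg_eq_zero, map_add] at h'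
      have h3 := H.tN _ h'
      exact hc x hxT y hyT (H.two (hT x hxT) (hT y hyT) h3)
  · exfalso
    have h1 : (T \ B).card = 1 := by rw [hcc B hBT]; omega
    have h2 : P.card = 1 := by omega
    obtain ⟨x, hx⟩ := card_eq_one.1 h2
    obtain ⟨y, hy⟩ := card_eq_one.1 h1
    have hxT : x ∈ T := hPT (by rw [hx]; exact mem_singleton_self x)
    have hyT : y ∈ T := (mem_sdiff.1 (show y ∈ T \ B by rw [hy]; exact mem_singleton_self y)).1
    rw [hsum, hcT B hBT, hy, hx, sum_singleton, sum_singleton, map_sub, map_sub, h] at h'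
    apply hc x hxT y hyT
    apply H.two (hT x hxT) (hT y hyT)
    rw [map_add]
    have h2 : ρ (χ x) + ρ (χ y) = ρ (χ x) - (0 - ρ (χ y)) := by abel
    rw [h2, h']
  · right; right
    have h1 : P.card = 0 := by omega
    have h2 : B = T := eq_of_subset_of_card_le hBT (by rw [hq, h4])
    have h3 : T' \ T = T' := by
      rw [card_eq_zero] at h1
      rw [← sdiff_inter_self_left, ← hP, h1, sdiff_empty]
    rw [h3] at hB
    rw [← h2, hB, map_map]
    ext k
    simp

end Chars

end Pool.Agent.H845.CM
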