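import Pool.Agent.H845.CM.Der

set_option autoImplicit false
set_option linter.unusedSectionVars false
set_option linter.unusedSimpArgs false
set_option linter.unusedVariables false

/-!
# The contraction of forms in four variables, in small dimensions
-/

open Module Function

noncomputable section

namespace Pool.Agent.H845.CM

open Pool.Agent.R912

variable {U : Type} [AddCommGroup U] [Module ℂ U] [FiniteDimensional ℂ U]

/-- a hyperbolic family for a subspace -/
structure Hyp (ω : U →ₗ[ℂ] U →ₗ[ℂ] ℂ) (W : Submodule ℂ U) (m : ℕ) (e : Fin m × Bool → U) :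
    Prop where
  mem : ∀ p, e p ∈ W
  rep : ∀ x ∈ W, x = ∑ i, (ω x (e (i, false)) • e (i, true) - ω x (e (i, true)) • e (i, false))

theorem exists_hyp (ω : U →ₗ[ℂ] U →ₗ[ℂ] ℂ) (alt : ∀ u v, ω u v = -ω v u) (m : ℕ) :
    ∀ W : Submodule ℂ U, (∀ u ∈ W, (∀ v ∈ W, ω v u = 0) → u = 0) → finrank ℂ W ≤ 2 * m →
      ∃ e, Hyp ω W m e := by
  have self0 : ∀ u, ω u u = 0 := fun u => self_eq_neg.1 (alt u u)
  induction m with
  | zero =>
    intro W _ hW
    have h1 : W = ⊥ := Submodule.finrank_eq_zero.1 (by omega)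
    refine ⟨fun _ => 0, fun _ => W.zero_mem, fun x hx => ?_⟩
    rw [h1, Submodule.mem_bot] at hx
    rw [hx, Finset.univ_eq_empty, Finset.sum_empty]
  | succ m ih =>
    intro W nd hW
    by_cases h0 : W = ⊥
    · refine ⟨fun _ => 0, fun _ => W.zero_mem, fun x hx => ?_⟩
      rw [h0, Submodule.mem_bot] at hx
      rw [hx]
      simp
    obtain ⟨v, hv, hv0⟩ := W.ne_bot_iff.1 h0
    obtain ⟨u, hu, huv⟩ : ∃ u ∈ W, ω u v = 1 := by
      by_contra hcon
      push Not at hcon
      apply hv0
      refine nd v hv fun u hu => ?_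
      by_contra hne
      refine hcon ((ω u v)⁻¹ • u) (W.smul_mem _ hu) ?_
      rw [map_smul, LinearMap.smul_apply, smul_eq_mul, inv_mul_cancel₀ hne]
    have hvu : ω v u = -1 := by rw [alt, huv]
    let W' : Submodule ℂ U :=
      { carrier := {x | x ∈ W ∧ ω x u = 0 ∧ ω x v = 0}
        zero_mem' := ⟨W.zero_mem, by simp, by simp⟩
        add_mem' := fun {x y} hx hy => ⟨W.add_mem hx.1 hy.1, by
          rw [map_add, LinearMap.add_apply, hx.2.1, hy.2.1, add_zero], by
          rw [map_add, LinearMap.add_apply, hx.2.2, hy.2.2, add_zero]⟩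
        smul_mem' := fun c x hx => ⟨W.smul_mem c hx.1, by
          rw [map_smul, LinearMap.smul_apply, hx.2.1, smul_zero], by
          rw [map_smul, LinearMap.smul_apply, hx.2.2, smul_zero]⟩ }
    have hW'mem : ∀ x, x ∈ W' ↔ x ∈ W ∧ ω x u = 0 ∧ ω x v = 0 := fun x => Iff.rfl
    have hproj : ∀ x ∈ W, x - ω x v • u + ω x u • v ∈ W' := by
      intro x hx
      rw [hW'mem]
      refine ⟨W.add_mem (W.sub_mem hx (W.smul_mem _ hu)) (W.smul_mem _ hv), ?_, ?_⟩
      · simp only [map_add, map_sub, map_smul, LinearMap.add_apply, LinearMap.sub_apply,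
          LinearMap.smul_apply, smul_eq_mul, self0, hvu, huv]
        ring
      · simp only [map_add, map_sub, map_smul, LinearMap.add_apply, LinearMap.sub_apply,
          LinearMap.smul_apply, smul_eq_mul, self0, hvu, huv]
        ring
    have hnd' : ∀ x ∈ W', (∀ y ∈ W', ω y x = 0) → x = 0 := by
      intro x hx hx'
      refine nd x hx.1 fun y hy => ?_
      have h1 := hx' _ (hproj y hy)
      have h2 : ω u x = 0 := by rw [alt, hx.2.1, neg_zero]
      have h3 : ω v x = 0 := by rw [alt, hx.2.2, neg_zero]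
      simp only [map_add, map_sub, map_smul, LinearMap.add_apply, LinearMap.sub_apply,
        LinearMap.smul_apply, smul_eq_mul, h2, h3, mul_zero, sub_zero, add_zero] at h1
      exact h1
    have hdim : finrank ℂ W' ≤ 2 * m := by
      let f : W →ₗ[ℂ] ℂ × ℂ := ((ω.flip v).prod (ω.flip u)) ∘ₗ W.subtype
      have hf : ∀ x : W, f x = (ω x.1 v, ω x.1 u) := fun _ => rfl
      have hsurj : Function.Surjective f := by
        rintro ⟨s, t⟩
        refine ⟨s • ⟨u, hu⟩ - t • ⟨v, hv⟩, ?_⟩
        rw [hf]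
        simp only [Submodule.coe_sub, Submodule.coe_smul, map_sub, map_smul, LinearMap.sub_apply,
          LinearMap.smul_apply, smul_eq_mul, self0, hvu, huv]
        ext <;> simp
      have h1 := LinearMap.finrank_range_add_finrank_ker f
      rw [LinearMap.range_eq_top.2 hsurj, finrank_top, Module.finrank_prod,
        Module.finrank_self] at h1
      have h2 : (LinearMap.ker f).map W.subtype = W' := by
        ext x
        rw [hW'mem, Submodule.mem_map]
        constructor
        · rintro ⟨y, hy, rfl⟩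
          rw [LinearMap.mem_ker, hf, Prod.mk_eq_zero] at hy
          exact ⟨y.2, hy.2, hy.1⟩
        · rintro ⟨hx, h2, h3⟩
          exact ⟨⟨x, hx⟩, by rw [LinearMap.mem_ker, hf, Prod.mk_eq_zero]; exact ⟨h3, h2⟩, rfl⟩
      have h3 : finrank ℂ W' = finrank ℂ (LinearMap.ker f) := by
        rw [← h2]
        exact Submodule.finrank_map_subtype_eq W (LinearMap.ker f)
      omega
    obtain ⟨e', he'⟩ := ih W' hnd' hdim
    refine ⟨fun p => Fin.cases (motive := fun _ => U) (if p.2 then u else v)
      (fun i => e' (i, p.2)) p.1, ?_, ?_⟩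
    · rintro ⟨i, c⟩
      refine Fin.cases ?_ (fun i => ?_) i
      · cases c
        · exact hv
        · exact hu
      · exact (he'.mem (i, c)).1
    · intro x hx
      rw [Fin.sum_univ_succ]
      have h1 := he'.rep _ (hproj x hx)
      have h2 : ∀ p, ω (x - ω x v • u + ω x u • v) (e' p) = ω x (e' p) := by
        intro p
        have h3 := he'.mem p
        have h4 : ω u (e' p) = 0 := by rw [alt, h3.2.1, neg_zero]
        have h5 : ω v (e' p) = 0 := by rw [alt, h3.2.2, neg_zero]
        simp only [map_add, map_sub, map_smul, LinearMap.add_apply, LinearMap.sub_apply,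
          LinearMap.smul_apply, smul_eq_mul, h4, h5, mul_zero, sub_zero, add_zero]
      simp only [h2] at h1
      change x = (ω x v • u - ω x u • v) +
        ∑ i : Fin m, (ω x (e' (i, false)) • e' (i, true) - ω x (e' (i, true)) • e' (i, false))
      rw [← h1]
      abel

theorem sum_anti {m : ℕ} (B : Fin m → Fin m → ℂ) (h : ∀ i j, B i j = -B j i) :
    ∑ i, ∑ j, B i j = 0 := by
  apply self_eq_neg.1
  conv_lhs => rw [Finset.sum_comm]
  rw [← Finset.sum_neg_distrib]
  refine Finset.sum_congr rfl fun i _ => ?_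
  rw [← Finset.sum_neg_distrib]
  exact Finset.sum_congr rfl fun j _ => h j i

/-- Skew operators kill the bivector. -/
theorem Hyp.biv {ω : U →ₗ[ℂ] U →ₗ[ℂ] ℂ} (alt : ∀ u v, ω u v = -ω v u) {W : Submodule ℂ U} {m : ℕ}
    {e : Fin m × Bool → U} (he : Hyp ω W m e) {X : Module.End ℂ U}
    (hX : ∀ u v, ω (X u) v + ω u (X v) = 0) (hXW : ∀ u ∈ W, X u ∈ W)
    (α : U →ₗ[ℂ] U →ₗ[ℂ] ℂ) (hα : ∀ u v, α u v = -α v u) :
    ∑ i, (α (X (e (i, true))) (e (i, false)) + α (e (i, true)) (X (e (i, false)))) = 0 := by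
  have hsw : ∀ u v, ω (X u) v = ω (X v) u := by
    intro u v
    have h1 := hX u v
    rw [alt u (X v)] at h1
    linear_combination h1
  have h1 : ∀ i, α (X (e (i, true))) (e (i, false)) =
      ∑ j, ω (X (e (i, true))) (e (j, false)) * α (e (j, true)) (e (i, false)) -
      ∑ j, ω (X (e (i, true))) (e (j, true)) * α (e (j, false)) (e (i, false)) := by
    intro i
    conv_lhs => rw [he.rep _ (hXW _ (he.mem (i, true)))]
    rw [← Finset.sum_sub_distrib, map_sum, LinearMap.sum_apply]
    refine Finset.sum_congr rfl fun j _ => ?_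
    rw [map_sub, map_smul, map_smul, LinearMap.sub_apply, LinearMap.smul_apply,
      LinearMap.smul_apply, smul_eq_mul, smul_eq_mul]
  have h2 : ∀ i, α (e (i, true)) (X (e (i, false))) =
      ∑ j, ω (X (e (i, false))) (e (j, false)) * α (e (i, true)) (e (j, true)) -
      ∑ j, ω (X (e (i, false))) (e (j, true)) * α (e (i, true)) (e (j, false)) := by
    intro i
    conv_lhs => rw [he.rep _ (hXW _ (he.mem (i, false)))]
    rw [← Finset.sum_sub_distrib, map_sum]
    refine Finset.sum_congr rfl fun j _ => ?_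
    rw [map_sub, map_smul, map_smul, smul_eq_mul, smul_eq_mul]
  simp only [h1, h2]
  rw [Finset.sum_add_distrib, Finset.sum_sub_distrib, Finset.sum_sub_distrib]
  have h3 : ∑ i, ∑ j, ω (X (e (i, true))) (e (j, true)) * α (e (j, false)) (e (i, false)) = 0 :=
    sum_anti _ fun i j => by rw [hsw, hα]; ring
  have h4 : ∑ i, ∑ j, ω (X (e (i, false))) (e (j, false)) * α (e (i, true)) (e (j, true)) = 0 :=
    sum_anti _ fun i j => by rw [hsw, hα]; ring
  have h5 : ∑ i, ∑ j, ω (X (e (i, false))) (e (j, true)) * α (e (i, true)) (e (j, false)) =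
      ∑ i, ∑ j, ω (X (e (i, true))) (e (j, false)) * α (e (j, true)) (e (i, false)) := by
    rw [Finset.sum_comm]
    refine Finset.sum_congr rfl fun i _ => Finset.sum_congr rfl fun j _ => ?_
    rw [hsw]
  rw [h3, h4, h5]
  ring

/-- **Injectivity of the contraction.** -/
theorem inj3 {θ : Q4 U} (hθ : Alt4 θ) (e : Fin 3 × Bool → U)
    (h : ∀ a b, ∑ i, θ (e a) (e b) (e (i, true)) (e (i, false)) = 0) (a b c d : Fin 3 × Bool) :
    θ (e a) (e b) (e c) (e d) = 0 := by
  obtain ⟨F, hF⟩ : ∃ F : Fin 3 × Bool → Fin 3 × Bool → Fin 3 × Bool → Fin 3 × Bool → ℂ,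
    ∀ a b c d, F a b c d = θ (e a) (e b) (e c) (e d) := ⟨_, fun _ _ _ _ => rfl⟩
  have s1 : ∀ a b c d, F a b c d = -F b a c d := fun a b c d => by rw [hF, hF, hθ.s1]
  have s2 : ∀ a b c d, F a b c d = -F a c b d := fun a b c d => by rw [hF, hF, hθ.s2]
  have s3 : ∀ a b c d, F a b c d = -F a b d c := fun a b c d => by rw [hF, hF, hθ.s3]
  have z12 : ∀ a c d, F a a c d = 0 := fun a c d => self_eq_neg.1 (s1 a a c d)
  have z23 : ∀ a b c, F a b b c = 0 := fun a b c => self_eq_neg.1 (s2 a b b c)
  have z34 : ∀ a b c, F a b c c = 0 := fun a b c => self_eq_neg.1 (s3 a b c c)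
  have z13 : ∀ a b c, F a b a c = 0 := fun a b c => by rw [s2, z12, neg_zero]
  have z24 : ∀ a b c, F a b c b = 0 := fun a b c => by rw [s3, z23, neg_zero]
  have z14 : ∀ a b c, F a b c a = 0 := fun a b c => by rw [s3, z13, neg_zero]
  have hs : ∀ a b, F a b (0, true) (0, false) + F a b (1, true) (1, false) +
      F a b (2, true) (2, false) = 0 := by
    intro a b
    have h1 := h a b
    rw [Fin.sum_univ_three] at h1
    rw [hF, hF, hF]
    exact h1
  have zi : ∀ a b i, a.1 = i → F a b (i, true) (i, false) = 0 := by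
    rintro ⟨j, c⟩ b i rfl
    cases c
    · exact z14 _ _ _
    · exact z13 _ _ _
  have zj : ∀ a b i, b.1 = i → F a b (i, true) (i, false) = 0 := by
    intro a b i hi
    rw [s1, zi b a i hi, neg_zero]
  -- the symmetric part
  have G : ∀ i j, F (j, true) (j, false) (i, true) (i, false) =
      F (i, true) (i, false) (j, true) (j, false) := by
    intro i j
    rw [s2, s1, s3, s2]
    ring
  have GG : ∀ i j, F (j, true) (j, false) (i, true) (i, false) = 0 := by
    have h0 := hs (0, true) (0, false)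
    have h1 := hs (1, true) (1, false)
    have h2 := hs (2, true) (2, false)
    have g01 := G 0 1
    have g02 := G 0 2
    have g12 := G 1 2
    rw [zi _ _ _ rfl] at h0
    have e1 : F (1, true) (1, false) (1, true) (1, false) = 0 := z13 _ _ _
    have e2 : F (2, true) (2, false) (2, true) (2, false) = 0 := z13 _ _ _
    have a1 : F (0, true) (0, false) (1, true) (1, false) = 0 := by
      linear_combination (1/2 : ℂ) * h0 + (1/2 : ℂ) * h1 - (1/2 : ℂ) * h2 - (1/2 : ℂ) * e1 +
        (1/2 : ℂ) * e2 - (1/2 : ℂ) * g01 + (1/2 : ℂ) * g02 + (1/2 : ℂ) * g12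
    have a2 : F (0, true) (0, false) (2, true) (2, false) = 0 := by
      linear_combination h0 - a1
    have a3 : F (1, true) (1, false) (2, true) (2, false) = 0 := by
      linear_combination h1 - e1 - g01 - a1
    intro i j
    fin_cases i <;> fin_cases j
    · exact z13 _ _ _
    · exact g01.trans a1
    · exact g02.trans a2
    · exact a1
    · exact e1
    · exact g12.trans a3
    · exact a2
    · exact a3
    · exact e2
  have L1 : ∀ a b i, F a b (i, true) (i, false) = 0 := by
    rintro ⟨j, c⟩ ⟨k, c'⟩ i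
    by_cases hjk : j = k
    · subst hjk
      cases c <;> cases c'
      · exact z12 _ _ _
      · rw [s1, GG, neg_zero]
      · exact GG _ _
      · exact z12 _ _ _
    · have h1 := hs (j, c) (k, c')
      by_cases h2 : j = i
      · exact zi _ _ _ h2
      by_cases h3 : k = i
      · exact zj _ _ _ h3
      have h4 : ∀ l : Fin 3, l ≠ i → F (j, c) (k, c') (l, true) (l, false) = 0 := by
        intro l hl
        have h5 : l = j ∨ l = k := by omega
        rcases h5 with rfl | rfl
        · exact zi _ _ _ rfl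
        · exact zj _ _ _ rfl
      fin_cases i
      · have e1 := h4 1 (by decide)
        have e2 := h4 2 (by decide)
        rw [e1, e2, add_zero, add_zero] at h1
        exact h1
      · have e1 := h4 0 (by decide)
        have e2 := h4 2 (by decide)
        rw [e1, e2, zero_add, add_zero] at h1
        exact h1
      · have e1 := h4 0 (by decide)
        have e2 := h4 1 (by decide)
        rw [e1, e2, zero_add, zero_add] at h1
        exact h1
  have L2 : ∀ a b c d, c.1 = d.1 → F a b c d = 0 := by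
    rintro a b ⟨i, x⟩ ⟨j, y⟩ hij
    have hij' : i = j := hij
    subst hij'
    cases x <;> cases y
    · exact z34 _ _ _
    · rw [s3, L1, neg_zero]
    · exact L1 _ _ _
    · exact z34 _ _ _
  have hp : ∀ a b c d : Fin 3, a = b ∨ a = c ∨ a = d ∨ b = c ∨ b = d ∨ c = d := by decide
  rw [← hF]
  rcases hp a.1 b.1 c.1 d.1 with h1 | h1 | h1 | h1 | h1 | h1
  · rw [s2, s1, s3, s2, L2 _ _ _ _ h1]
    ring
  · rw [s1, s3, s2, L2 _ _ _ _ h1]
    ring
  · rw [s1, s2, L2 _ _ _ _ h1]
    ring
  · rw [s3, s2, L2 _ _ _ _ h1]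
    ring
  · rw [s2, L2 _ _ _ _ h1, neg_zero]
  · exact L2 _ _ _ _ h1

theorem span4 {θ : Q4 U} {S : Set U}
    (h : ∀ a ∈ S, ∀ b ∈ S, ∀ c ∈ S, ∀ d ∈ S, θ a b c d = 0) {a b c d : U}
    (ha : a ∈ Submodule.span ℂ S) (hb : b ∈ Submodule.span ℂ S) (hc : c ∈ Submodule.span ℂ S)
    (hd : d ∈ Submodule.span ℂ S) : θ a b c d = 0 := by
  induction ha using Submodule.span_induction with
  | mem a ha =>
    induction hb using Submodule.span_induction with
    | mem b hb =>
      induction hc using Submodule.span_induction with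
      | mem c hc =>
        induction hd using Submodule.span_induction with
        | mem d hd => exact h a ha b hb c hc d hd
        | zero => rw [map_zero]
        | add x y _ _ hx hy => rw [map_add, hx, hy, add_zero]
        | smul t x _ hx => rw [map_smul, hx, smul_zero]
      | zero => rw [map_zero, LinearMap.zero_apply]
      | add x y _ _ hx hy => rw [map_add, LinearMap.add_apply, hx, hy, add_zero]
      | smul t x _ hx => rw [map_smul, LinearMap.smul_apply, hx, smul_zero]
    | zero => rw [map_zero, LinearMap.zero_apply, LinearMap.zero_apply]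
    | add x y _ _ hx hy =>
      rw [map_add, LinearMap.add_apply, LinearMap.add_apply, hx, hy, add_zero]
    | smul t x _ hx =>
      rw [map_smul, LinearMap.smul_apply, LinearMap.smul_apply, hx, smul_zero]
  | zero => rw [map_zero, LinearMap.zero_apply, LinearMap.zero_apply, LinearMap.zero_apply]
  | add x y _ _ hx hy =>
    rw [map_add, LinearMap.add_apply, LinearMap.add_apply, LinearMap.add_apply, hx, hy, add_zero]
  | smul t x _ hx =>
    rw [map_smul, LinearMap.smul_apply, LinearMap.smul_apply, LinearMap.smul_apply, hx, smul_zero]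

/-- **Forms on spaces of dimension at most six.** -/
theorem kill_small {L : Submodule ℂ (Module.End ℂ U)} {ω : U →ₗ[ℂ] U →ₗ[ℂ] ℂ}
    (alt : ∀ u v, ω u v = -ω v u) {W : Submodule ℂ U}
    (nd : ∀ u ∈ W, (∀ v ∈ W, ω v u = 0) → u = 0) (h6 : finrank ℂ W ≤ 6) {ψ : Q4 U}
    (hψ : Alt4 ψ) (hL : ∀ x ∈ L, Kill4 ⊤ ψ x) (hLs : ∀ x ∈ L, ∀ u v, ω (x u) v + ω u (x v) = 0)
    (hLW : ∀ x ∈ L, ∀ u ∈ W, x u ∈ W) {X : Module.End ℂ U}
    (hX : ∀ u v, ω (X u) v + ω u (X v) = 0) (hXW : ∀ u ∈ W, X u ∈ W)
    (hXL : ∀ β : U →ₗ[ℂ] U →ₗ[ℂ] ℂ, (∀ x ∈ L, ∀ u v, β (x u) v + β u (x v) = 0) →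
      ∀ u v, β (X u) v + β u (X v) = 0) :
    ∀ a ∈ W, ∀ b ∈ W, ∀ c ∈ W, ∀ d ∈ W, der4 X ψ a b c d = 0 := by
  obtain ⟨e, he⟩ := exists_hyp ω alt 3 W nd h6
  let β : U →ₗ[ℂ] U →ₗ[ℂ] ℂ :=
    LinearMap.mk₂ ℂ (fun u v => ∑ i, ψ u v (e (i, true)) (e (i, false)))
      (fun a b c => by
        rw [← Finset.sum_add_distrib]
        exact Finset.sum_congr rfl fun i _ => by simp only [map_add, LinearMap.add_apply])
      (fun c a b => by
        rw [Finset.smul_sum]
        exact Finset.sum_congr rfl fun i _ => by simp only [map_smul, LinearMap.smul_apply])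
      (fun a b c => by
        rw [← Finset.sum_add_distrib]
        exact Finset.sum_congr rfl fun i _ => by simp only [map_add, LinearMap.add_apply])
      (fun c a b => by
        rw [Finset.smul_sum]
        exact Finset.sum_congr rfl fun i _ => by simp only [map_smul, LinearMap.smul_apply])
  have hβ : ∀ u v, β u v = ∑ i, ψ u v (e (i, true)) (e (i, false)) := fun _ _ => rfl
  have key : ∀ x : Module.End ℂ U, (∀ u v, ω (x u) v + ω u (x v) = 0) → (∀ u ∈ W, x u ∈ W) →
      ∀ u v, β (x u) v + β u (x v) = ∑ i, der4 x ψ u v (e (i, true)) (e (i, false)) := by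
    intro x hx hxW u v
    have h1 := he.biv alt hx hxW (ψ u v) (fun a b => hψ.s3 u v b a)
    rw [hβ, hβ, ← Finset.sum_add_distrib, ← sub_eq_zero, ← Finset.sum_sub_distrib]
    rw [← neg_eq_zero, ← Finset.sum_neg_distrib, ← h1]
    refine Finset.sum_congr rfl fun i _ => ?_
    rw [der4_apply]
    ring
  have h1 := hXL β fun x hx u v => by
    rw [key x (hLs x hx) (hLW x hx)]
    refine Finset.sum_eq_zero fun i _ => ?_
    rw [der4_eq_zero.2 (hL x hx)]
    rfl
  have h2 := inj3 (alt_der4 (X := X) hψ) e fun a b => by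
    rw [← key X hX hXW, h1]
  have hspan : ∀ x ∈ W, x ∈ Submodule.span ℂ (Set.range e) := by
    intro x hx
    rw [he.rep x hx]
    exact Submodule.sum_mem _ fun i _ => Submodule.sub_mem _
      (Submodule.smul_mem _ _ (Submodule.subset_span ⟨_, rfl⟩))
      (Submodule.smul_mem _ _ (Submodule.subset_span ⟨_, rfl⟩))
  intro a ha b hb c hc d hd
  refine span4 (S := Set.range e) ?_ (hspan a ha) (hspan b hb) (hspan c hc) (hspan d hd)
  rintro _ ⟨p, rfl⟩ _ ⟨q, rfl⟩ _ ⟨s, rfl⟩ _ ⟨t, rfl⟩
  exact h2 p q s t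

end Pool.Agent.H845.CM
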