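import Pool.Agent.H845.CM.Form

set_option autoImplicit false
set_option linter.unusedSectionVars false
set_option linter.unusedSimpArgs false
set_option linter.unusedVariables false

/-!
# The derivations on forms in four variables
-/

open Module Function TensorProduct

noncomputable section

namespace Pool.Agent.H845.CM

open Pool.Agent.Y102 Pool.Agent.W516.DR Pool.Agent.H204R3.GP Pool.Agent.W516.KC
  Pool.Agent.H204R3.SP Pool.Agent.R912

section Q4

variable {U : Type} [AddCommGroup U] [Module ℂ U]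

/-- the derivation given by an endomorphism -/
def der4 (X : Module.End ℂ U) (ψ : Q4 U) : Q4 U :=
  ψ ∘ₗ X + (LinearMap.lcomp ℂ (U →ₗ[ℂ] U →ₗ[ℂ] ℂ) X) ∘ₗ ψ +
    (LinearMap.compRight ℂ (LinearMap.lcomp ℂ (U →ₗ[ℂ] ℂ) X)) ∘ₗ ψ +
    (LinearMap.compRight ℂ (LinearMap.compRight ℂ (LinearMap.lcomp ℂ ℂ X))) ∘ₗ ψ

theorem der4_apply (X : Module.End ℂ U) (ψ : Q4 U) (a b c d : U) :
    der4 X ψ a b c d = ψ (X a) b c d + ψ a (X b) c d + ψ a b (X c) d + ψ a b c (X d) := rfl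

theorem der4_eq_zero {X : Module.End ℂ U} {ψ : Q4 U} : der4 X ψ = 0 ↔ Kill4 ⊤ ψ X := by
  constructor
  · intro h a _ b _ c _ d _
    rw [← der4_apply, h]
    rfl
  · intro h
    refine LinearMap.ext fun a => LinearMap.ext fun b => LinearMap.ext fun c =>
      LinearMap.ext fun d => ?_
    rw [der4_apply]
    exact h a trivial b trivial c trivial d trivial

theorem q4_ext {ι : Type} (b : Basis ι ℂ U) {ψ ψ' : Q4 U}
    (h : ∀ i j k l, ψ (b i) (b j) (b k) (b l) = ψ' (b i) (b j) (b k) (b l)) : ψ = ψ' :=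
  b.ext fun i => b.ext fun j => b.ext fun k => b.ext fun l => h i j k l

theorem der4_add (X Y : Module.End ℂ U) (ψ : Q4 U) : der4 (X + Y) ψ = der4 X ψ + der4 Y ψ := by
  refine LinearMap.ext fun a => LinearMap.ext fun b => LinearMap.ext fun c =>
    LinearMap.ext fun d => ?_
  simp only [der4_apply, LinearMap.add_apply, map_add]
  ring

theorem der4_smul (t : ℂ) (X : Module.End ℂ U) (ψ : Q4 U) : der4 (t • X) ψ = t • der4 X ψ := by
  refine LinearMap.ext fun a => LinearMap.ext fun b => LinearMap.ext fun c =>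
    LinearMap.ext fun d => ?_
  simp only [der4_apply, LinearMap.smul_apply, map_smul, smul_eq_mul]
  ring

theorem der4_zero (ψ : Q4 U) : der4 0 ψ = 0 := by
  refine LinearMap.ext fun a => LinearMap.ext fun b => LinearMap.ext fun c =>
    LinearMap.ext fun d => ?_
  simp [der4_apply]

theorem alt_der4 {X : Module.End ℂ U} {ψ : Q4 U} (h : Alt4 ψ) : Alt4 (der4 X ψ) := by
  refine ⟨fun a b c d => ?_, fun a b c d => ?_, fun a b c d => ?_⟩
  · rw [der4_apply, der4_apply, h.s1 (X a), h.s1 a (X b), h.s1 a b (X c), h.s1 a b c (X d)]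
    ring
  · rw [der4_apply, der4_apply, h.s2 (X a), h.s2 a (X b), h.s2 a b (X c), h.s2 a b c (X d)]
    ring
  · rw [der4_apply, der4_apply, h.s3 (X a), h.s3 a (X b), h.s3 a b (X c), h.s3 a b c (X d)]
    ring

end Q4

section Rat

variable {W : Type} [AddCommGroup W] [Module ℚ W]

/-- the derivation given by an endomorphism, on alternating forms -/
def derA (X : Module.End ℚ W) (φ : W [⋀^Fin 2 × Fin 2]→ₗ[ℚ] ℚ) : W [⋀^Fin 2 × Fin 2]→ₗ[ℚ] ℚ :=
  { (∑ k : Fin 2 × Fin 2, φ.toMultilinearMap.compLinearMap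
      (fun l => if l = k then X else LinearMap.id) :
        MultilinearMap ℚ (fun _ : Fin 2 × Fin 2 => W) ℚ) with
    map_eq_zero_of_eq' := by
      intro v i j hij hne
      change (∑ k : Fin 2 × Fin 2, φ.toMultilinearMap.compLinearMap
        (fun l => if l = k then X else LinearMap.id) :
          MultilinearMap ℚ (fun _ : Fin 2 × Fin 2 => W) ℚ) v = 0
      rw [_root_.sum_apply]
      have key : ∀ k, φ.toMultilinearMap.compLinearMap
          (fun l => if l = k then X else LinearMap.id) v = φ (update v k (X (v k))) := by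
        intro k
        rw [MultilinearMap.compLinearMap_apply]
        change φ _ = φ _
        congr 1
        funext l
        by_cases hl : l = k
        · subst hl; rw [if_pos rfl, update_self]
        · rw [if_neg hl, update_of_ne hl]; rfl
      simp only [key]
      rw [← Finset.add_sum_erase _ _ (Finset.mem_univ i),
        ← Finset.add_sum_erase _ _ (Finset.mem_erase.2 ⟨hne.symm, Finset.mem_univ j⟩),
        Finset.sum_eq_zero (s := (Finset.univ.erase i).erase j)]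
      · rw [add_zero]
        have h1 : update v j (X (v j)) = (update v i (X (v i))) ∘ Equiv.swap i j := by
          funext l
          by_cases hl : l = j
          · subst hl
            rw [update_self, comp_apply, Equiv.swap_apply_right, update_self, hij]
          · by_cases hl' : l = i
            · subst hl'
              rw [update_of_ne hl, comp_apply, Equiv.swap_apply_left, update_of_ne hne.symm, hij]
            · rw [update_of_ne hl, comp_apply, Equiv.swap_apply_of_ne_of_ne hl' hl,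
                update_of_ne hl']
        rw [h1, φ.map_swap _ hne, add_neg_cancel]
      · intro k hk
        have hkj : k ≠ j := (Finset.mem_erase.1 hk).1
        have hki : k ≠ i := (Finset.mem_erase.1 (Finset.mem_erase.1 hk).2).1
        refine φ.map_eq_zero_of_eq _ ?_ hne
        rw [update_of_ne hki.symm, update_of_ne hkj.symm, hij] }

theorem derA_apply (X : Module.End ℚ W) (φ : W [⋀^Fin 2 × Fin 2]→ₗ[ℚ] ℚ) (v : Fin 2 × Fin 2 → W) :
    derA X φ v = ∑ k, φ (update v k (X (v k))) := by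
  change (∑ k : Fin 2 × Fin 2, φ.toMultilinearMap.compLinearMap
    (fun l => if l = k then X else LinearMap.id) :
      MultilinearMap ℚ (fun _ : Fin 2 × Fin 2 => W) ℚ) v = _
  rw [_root_.sum_apply]
  refine Finset.sum_congr rfl fun k _ => ?_
  rw [MultilinearMap.compLinearMap_apply]
  change φ _ = φ _
  congr 1
  funext l
  by_cases hl : l = k
  · subst hl; rw [if_pos rfl, update_self]
  · rw [if_neg hl, update_of_ne hl]; rfl

theorem derA_vec4 (X : Module.End ℚ W) (φ : W [⋀^Fin 2 × Fin 2]→ₗ[ℚ] ℚ) (a b c d : W) :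
    derA X φ (vec4 a b c d) = φ (vec4 (X a) b c d) + φ (vec4 a (X b) c d) +
      φ (vec4 a b (X c) d) + φ (vec4 a b c (X d)) := by
  rw [derA_apply, Fintype.sum_prod_type, Fin.sum_univ_two, Fin.sum_univ_two, Fin.sum_univ_two]
  simp only [vec4_0, vec4_1, vec4_2, vec4_3, up0, up1, up2, up3]
  ring

variable [FiniteDimensional ℚ W]

/-- the complexification of a form -/
def cq (φ : W [⋀^Fin 2 × Fin 2]→ₗ[ℚ] ℚ) : Q4 (ℂ ⊗[ℚ] W) :=
  toQ4 (bcm (Ω := ℂ) (Module.finBasis ℚ W) φ.toMultilinearMap)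

theorem cq_one (φ : W [⋀^Fin 2 × Fin 2]→ₗ[ℚ] ℚ) (a b c d : W) :
    cq φ ((1 : ℂ) ⊗ₜ[ℚ] a) ((1 : ℂ) ⊗ₜ[ℚ] b) ((1 : ℂ) ⊗ₜ[ℚ] c) ((1 : ℂ) ⊗ₜ[ℚ] d) =
      algebraMap ℚ ℂ (φ (vec4 a b c d)) := by
  unfold cq
  rw [toQ4_apply]
  have h1 : vec4 ((1 : ℂ) ⊗ₜ[ℚ] a) ((1 : ℂ) ⊗ₜ[ℚ] b) ((1 : ℂ) ⊗ₜ[ℚ] c) ((1 : ℂ) ⊗ₜ[ℚ] d) =
      fun l => (1 : ℂ) ⊗ₜ[ℚ] vec4 a b c d l := by
    funext l
    revert l
    exact forall4 rfl rfl rfl rfl
  rw [h1, bcm_one]
  rfl

/-- Forms are determined by the values at rational vectors. -/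
theorem q4_rat_ext {ψ ψ' : Q4 (ℂ ⊗[ℚ] W)} (h : ∀ a b c d : W,
    ψ ((1 : ℂ) ⊗ₜ[ℚ] a) ((1 : ℂ) ⊗ₜ[ℚ] b) ((1 : ℂ) ⊗ₜ[ℚ] c) ((1 : ℂ) ⊗ₜ[ℚ] d) =
      ψ' ((1 : ℂ) ⊗ₜ[ℚ] a) ((1 : ℂ) ⊗ₜ[ℚ] b) ((1 : ℂ) ⊗ₜ[ℚ] c) ((1 : ℂ) ⊗ₜ[ℚ] d)) : ψ = ψ' := by
  refine q4_ext ((Module.finBasis ℚ W).baseChange ℂ) fun i j k l => ?_
  rw [Basis.baseChange_apply, Basis.baseChange_apply, Basis.baseChange_apply,
    Basis.baseChange_apply]
  exact h _ _ _ _

theorem cq_inj {φ φ' : W [⋀^Fin 2 × Fin 2]→ₗ[ℚ] ℚ} (h : cq φ = cq φ') : φ = φ' := by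
  refine AlternatingMap.ext fun v => ?_
  apply (algebraMap ℚ ℂ).injective
  rw [← vec4_eta v, ← cq_one, ← cq_one, h]

theorem cq_der (X : Module.End ℚ W) (φ : W [⋀^Fin 2 × Fin 2]→ₗ[ℚ] ℚ) :
    cq (derA X φ) = der4 (X.baseChange ℂ) (cq φ) := by
  apply q4_rat_ext
  intro a b c d
  rw [der4_apply, cq_one, derA_vec4]
  simp only [LinearMap.baseChange_tmul, cq_one, map_add]

theorem cq_sub (φ φ' : W [⋀^Fin 2 × Fin 2]→ₗ[ℚ] ℚ) :
    cq (φ - φ') = cq φ + (-1 : ℂ) • cq φ' := by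
  apply q4_rat_ext
  intro a b c d
  simp only [cq_one, LinearMap.add_apply, LinearMap.smul_apply, AlternatingMap.sub_apply, map_sub,
    smul_eq_mul]
  ring

theorem cq_smul (q : ℚ) (φ : W [⋀^Fin 2 × Fin 2]→ₗ[ℚ] ℚ) : cq (q • φ) = (q : ℂ) • cq φ := by
  apply q4_rat_ext
  intro a b c d
  simp only [cq_one, LinearMap.smul_apply, AlternatingMap.smul_apply, smul_eq_mul, map_mul]
  rfl

theorem cq_zero : cq (0 : W [⋀^Fin 2 × Fin 2]→ₗ[ℚ] ℚ) = 0 := by
  apply q4_rat_ext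
  intro a b c d
  rw [cq_one]
  simp

theorem alt_cq (φ : W [⋀^Fin 2 × Fin 2]→ₗ[ℚ] ℚ) : Alt4 (cq φ) := alt_bcm _ φ

theorem kills_iff_derA (X : Module.End ℚ W) (φ : W [⋀^Fin 2 × Fin 2]→ₗ[ℚ] ℚ) :
    Kills X φ.toMultilinearMap ↔ derA X φ = 0 := by
  constructor
  · intro h
    refine AlternatingMap.ext fun v => ?_
    rw [derA_apply]
    exact h v
  · intro h v
    have h1 := derA_apply X φ v
    rw [h] at h1
    exact h1.symm

theorem kills_iff_der4 (X : Module.End ℚ W) (φ : W [⋀^Fin 2 × Fin 2]→ₗ[ℚ] ℚ) :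
    Kills X φ.toMultilinearMap ↔ Kill4 ⊤ (cq φ) (X.baseChange ℂ) := by
  rw [kills_iff_derA, ← der4_eq_zero, ← cq_der]
  constructor
  · intro h
    rw [h, cq_zero]
  · intro h
    apply cq_inj
    rw [h, cq_zero]

end Rat

end Pool.Agent.H845.CM
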