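import Pool.Agent.H845.CM.HodgeJ

set_option autoImplicit false
set_option linter.unusedSectionVars false
set_option linter.unusedSimpArgs false
set_option linter.unusedVariables false

/-!
# The dimension of the part of type IV
-/

open Module Function TensorProduct

noncomputable section

namespace Pool.Agent.H845.CM

open Pool.Agent.Y102 Pool.Agent.W516.DR Pool.Agent.H204R3.GP Pool.Agent.W516.KC
  Pool.Agent.H204R3.SP Pool.Agent.R912

theorem finrank_bc {W : Type} [AddCommGroup W] [Module ℚ W] (p : Submodule ℚ W) :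
    finrank ℂ (p.baseChange ℂ) = finrank ℚ p := by
  rw [← (Submodule.toBaseChange.toLinearEquiv ℂ p).finrank_eq]
  exact Module.finrank_baseChange

theorem finrank_span_basis {U : Type} [AddCommGroup U] [Module ℂ U] {n : ℕ}
    (b : Basis (Fin n) ℂ U) (p : Fin n → Prop) [DecidablePred p] :
    finrank ℂ (Submodule.span ℂ (Set.range fun k : {k // p k} => b k.1)) =
      (Finset.univ.filter p).card := by
  have h1 : LinearIndependent ℂ (fun k : {k // p k} => b k.1) :=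
    b.linearIndependent.comp _ Subtype.val_injective
  rw [finrank_span_eq_card h1, Fintype.card_subtype]

variable {g : ℕ} {A : AbVar g}

variable (A) in
/-- the part of type IV -/
def V1 : Submodule ℚ A.H1 := Submodule.span ℚ {v | ∃ R ∈ A.ZA, ∃ u, v = R u}

variable {n : ℕ} {b : Basis (Fin n) ℂ (ℂ ⊗[ℚ] A.H1)}
  {χ : Fin n → (A.ZA →ₗ[ℚ] ℂ)} {σ : Equiv.Perm (Fin n)} {T : Finset (Fin n)}

theorem V1_bc (hb : ∀ k (R : A.ZA), (R : Module.End ℚ A.H1).baseChange ℂ (b k) = χ k R • b k) :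
    (V1 A).baseChange ℂ = Submodule.span ℂ (Set.range fun k : {k // χ k ≠ 0} => b k.1) := by
  apply le_antisymm
  · rw [V1, Submodule.baseChange_span, Submodule.span_le]
    rintro _ ⟨v, ⟨R, hR, u, rfl⟩, rfl⟩
    change (1 : ℂ) ⊗ₜ[ℚ] (R u) ∈ _
    have h1 : (1 : ℂ) ⊗ₜ[ℚ] (R u) = R.baseChange ℂ ((1 : ℂ) ⊗ₜ[ℚ] u) := by
      rw [LinearMap.baseChange_tmul]
    rw [h1, ← b.sum_repr ((1 : ℂ) ⊗ₜ[ℚ] u), map_sum]
    refine Submodule.sum_mem _ fun k _ => ?_
    rw [map_smul]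
    apply Submodule.smul_mem
    have h2 : (R.baseChange ℂ : Module.End ℂ (ℂ ⊗[ℚ] A.H1)) (b k) = χ k ⟨R, hR⟩ • b k :=
      hb k ⟨R, hR⟩
    rw [h2]
    by_cases hk : χ k = 0
    · rw [hk, LinearMap.zero_apply, zero_smul]
      exact Submodule.zero_mem _
    · exact Submodule.smul_mem _ _ (Submodule.subset_span ⟨⟨k, hk⟩, rfl⟩)
  · rw [Submodule.span_le]
    rintro _ ⟨⟨k, hk⟩, rfl⟩
    obtain ⟨R, hR⟩ : ∃ R, χ k R ≠ 0 := by
      by_contra hne
      push Not at hne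
      exact hk (LinearMap.ext hne)
    have h1 : ∀ x : ℂ ⊗[ℚ] A.H1, (R : Module.End ℚ A.H1).baseChange ℂ x ∈
        (V1 A).baseChange ℂ := by
      intro x
      induction x with
      | zero => rw [map_zero]; exact Submodule.zero_mem _
      | add x y hx hy => rw [map_add]; exact Submodule.add_mem _ hx hy
      | tmul a u =>
        rw [LinearMap.baseChange_tmul]
        exact Submodule.tmul_mem_baseChange_of_mem _ (Submodule.subset_span ⟨R, R.2, u, rfl⟩)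
    have h2 := h1 (b k)
    rw [hb] at h2
    have h3 := Submodule.smul_mem _ (χ k R)⁻¹ h2
    rwa [smul_smul, inv_mul_cancel₀ hR, one_smul] at h3

theorem finrank_V1 [DecidableEq (A.ZA →ₗ[ℚ] ℂ)]
    (hb : ∀ k (R : A.ZA), (R : Module.End ℚ A.H1).baseChange ℂ (b k) = χ k R • b k) :
    finrank ℚ (V1 A) = (Finset.univ.filter fun k => χ k ≠ 0).card := by
  rw [← finrank_bc, V1_bc hb]
  exact finrank_span_basis b fun k => χ k ≠ 0

theorem U0_eq (hb : ∀ k (R : A.ZA), (R : Module.End ℚ A.H1).baseChange ℂ (b k) = χ k R • b k) :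
    U0 A = Submodule.span ℂ (Set.range fun k : {k // χ k = 0} => b k.1) := by
  apply le_antisymm
  · intro u hu
    rw [← b.sum_repr u]
    refine Submodule.sum_mem _ fun k _ => ?_
    by_cases hk : χ k = 0
    · exact Submodule.smul_mem _ _ (Submodule.subset_span ⟨⟨k, hk⟩, rfl⟩)
    · rw [repr_U0 hb hu hk, zero_smul]
      exact Submodule.zero_mem _
  · rw [Submodule.span_le]
    rintro _ ⟨⟨k, hk⟩, rfl⟩
    exact basis_mem_U0 hb hk

theorem finrank_U0 [DecidableEq (A.ZA →ₗ[ℚ] ℂ)]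
    (hb : ∀ k (R : A.ZA), (R : Module.End ℚ A.H1).baseChange ℂ (b k) = χ k R • b k) :
    finrank ℂ (U0 A) + finrank ℚ (V1 A) = 2 * g := by
  have h1 : finrank ℂ (U0 A) = (Finset.univ.filter fun k => χ k = 0).card := by
    rw [U0_eq hb]
    exact finrank_span_basis b fun k => χ k = 0
  have h2 : n = 2 * g := by
    have h3 := Module.finrank_eq_card_basis b
    rw [finrank_baseChange, Module.finrank_fin_fun, Fintype.card_fin] at h3
    exact h3.symm
  rw [h1, finrank_V1 hb, Finset.card_filter_add_card_filter_not, Finset.card_univ,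
    Fintype.card_fin, h2]

theorem Rel.finrank_V1 (H : Rel χ σ T)
    (hb : ∀ k (R : A.ZA), (R : Module.End ℚ A.H1).baseChange ℂ (b k) = χ k R • b k) :
    finrank ℚ (V1 A) = 8 := by
  classical
  rw [CM.finrank_V1 hb]
  have h1 : (Finset.univ.filter fun k => χ k ≠ 0) = T ∪ T.map σ.toEmbedding := by
    ext k
    rw [Finset.mem_filter, Finset.mem_union]
    constructor
    · rintro ⟨-, hk⟩
      rcases H.all k hk with h | h
      · exact Or.inl h
      · refine Or.inr (Finset.mem_map.2 ⟨_, h, ?_⟩)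
        change σ (σ.symm k) = k
        rw [Equiv.apply_symm_apply]
    · rintro (h | h)
      · exact ⟨Finset.mem_univ _, H.ne k h⟩
      · obtain ⟨t, ht, rfl⟩ := Finset.mem_map.1 h
        refine ⟨Finset.mem_univ _, ?_⟩
        change χ (σ t) ≠ 0
        rw [H.opp]
        exact neg_ne_zero.2 (H.ne t ht)
  rw [h1, Finset.card_union_of_disjoint H.disj, Finset.card_map, H.card]

/-! ## The theorem -/

theorem drb_of_LA {φ : A.H1 [⋀^Fin 2 × Fin 2]→ₗ[ℚ] ℚ} (h : ∀ X ∈ A.LA, derA X φ = 0) :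
    IsDeRhamBettiForm QBar A.dR tau 2 φ.toMultilinearMap := by
  have h1 := drb_of_kills A.basis AbVar.tau_ne φ.toMultilinearMap fun X hX => by
    rw [← A.LA_eq] at hX
    exact (kills_iff_derA X φ).2 (h X hX)
  rw [A.coe_basis] at h1
  exact h1

/-- **The main theorem**. -/
theorem main (hA : CMIV A) (h1 : finrank ℚ (V1 A) ≤ 8) (h0 : 2 * g ≤ finrank ℚ (V1 A) + 8)
    (φ : A.H1 [⋀^Fin 2 × Fin 2]→ₗ[ℚ] ℚ)
    (hφ : IsDeRhamBettiForm QBar A.dR tau 2 φ.toMultilinearMap) :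
    ∃ φ₀ w : A.H1 [⋀^Fin 2 × Fin 2]→ₗ[ℚ] ℚ, φ = φ₀ + w ∧
      IsDeRhamBettiForm QBar A.dR tau 2 φ₀.toMultilinearMap ∧
      IsDeRhamBettiForm QBar A.dR tau 2 w.toMultilinearMap ∧
      IsHodgeTensor (A.per : A.H1 →+ (Fin g → ℂ)) φ₀.toMultilinearMap ∧
      (∀ X : Module.End ℚ A.H1, IsSkew A.om X → (∀ Q ∈ A.EA, X * Q = Q * X) →
        Kills X φ₀.toMultilinearMap) ∧
      (w = 0 ∨ ∃ (P : Module.End ℚ A.H1) (r : ℚ), P ∈ A.ZA ∧ 0 < r ∧ finrank ℚ (V1 A) = 8 ∧
        (∀ R ∈ A.ZA, P * P * R = -(r • R)) ∧ LinOver P r w ∧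
        ∀ M : (Fin g → ℂ) →ₗ[ℂ] (Fin g → ℂ), (∀ v, M (A.per v) = A.per (P v)) →
          LinearMap.trace ℂ (Fin g → ℂ) M = 0 →
            IsHodgeTensor (A.per : A.H1 →+ (Fin g → ℂ)) w.toMultilinearMap) := by
  classical
  obtain ⟨n, b, χ, hb⟩ := A.exists_basis
  obtain ⟨σ, hσ⟩ := exists_perm hb
  have h8 : ∀ S : Finset (Fin n), (∀ x ∈ S, χ x ≠ 0) → S.card ≤ 8 := by
    intro S hS
    refine le_trans (Finset.card_le_card (t := Finset.univ.filter fun k => χ k ≠ 0) ?_) ?_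
    · intro x hx
      exact Finset.mem_filter.2 ⟨Finset.mem_univ _, hS x hx⟩
    · rw [← finrank_V1 hb]
      exact h1
  have hU8 : finrank ℂ (U0 A) ≤ 8 := by
    have := finrank_U0 hb
    omega
  have hL : ∀ X ∈ A.LA, derA X φ = 0 := fun X hX =>
    (kills_iff_derA X φ).1 (A.kills_of_mem hφ hX)
  -- the forms which are killed by `ZA`
  have key : ∀ φ₀ : A.H1 [⋀^Fin 2 × Fin 2]→ₗ[ℚ] ℚ, (∀ X ∈ A.LA, derA X φ₀ = 0) →
      (∀ R ∈ A.ZA, derA R φ₀ = 0) →
      (∀ X : Module.End ℚ A.H1, IsSkew A.om X → (∀ Q ∈ A.EA, X * Q = Q * X) →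
        Kills X φ₀.toMultilinearMap) := by
    intro φ₀ e1 e2 X hX1 hX2
    have hadj : X ∈ Algebra.adjoin ℚ (A.LA : Set (Module.End ℚ A.H1)) :=
      mem_adjoin_of_comm A.semi_LA fun P hP => hX2 P hP
    have hadj' := bc_adjoin hadj
    rw [kills_iff_der4, ← der4_eq_zero]
    refine kill_all hA hb hU8 (alt_cq φ₀) (fun x hx => ?_) (fun R => ?_) hadj'
      (skew_ext A.om (omC A) (omC_tmul A) hX1)
    · rw [← der4_eq_zero]
      induction hx using Submodule.span_induction with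
      | mem x hx =>
        obtain ⟨Y, hY, rfl⟩ := hx
        rw [← cq_der, e1 Y hY, cq_zero]
      | zero => exact der4_zero _
      | add x y _ _ hx hy => rw [der4_add, hx, hy, add_zero]
      | smul c x _ hx => rw [der4_smul, hx, smul_zero]
    · rw [← der4_eq_zero, ← cq_der, e2 R R.2, cq_zero]
  have hodge : ∀ φ₀ : A.H1 [⋀^Fin 2 × Fin 2]→ₗ[ℚ] ℚ, (∀ X ∈ A.LA, derA X φ₀ = 0) →
      (∀ R ∈ A.ZA, derA R φ₀ = 0) →
      IsHodgeTensor (A.per : A.H1 →+ (Fin g → ℂ)) φ₀.toMultilinearMap := fun φ₀ e1 e2 =>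
    hodge_of_kills _ A.isRationalStructure _ fun Z hZ' =>
      key φ₀ e1 e2 Z (A.NA_skew (A.MA_le_NA hZ')) fun Q hQ => A.NA_comm (A.MA_le_NA hZ') hQ
  rcases alternative hA hb hσ h8 hL with h | ⟨T, H, W, P, c, hc, hP⟩
  · refine ⟨φ, 0, (add_zero φ).symm, hφ, drb_of_LA fun X hX => derA_zero_right X,
      hodge φ hL h, key φ hL h, Or.inl rfl⟩
  · obtain ⟨r, hr0, hr, hPP⟩ := H.field hb hc hP
    obtain ⟨q, hq1, hq2, hq3⟩ := split H hb W hc hP hr
    obtain ⟨w, hw⟩ : ∃ w, w = q • derA (P : Module.End ℚ A.H1)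
      (derA (P : Module.End ℚ A.H1) φ) := ⟨_, rfl⟩
    rw [← hw] at hq1 hq2 hq3
    have hLw : ∀ X ∈ A.LA, derA X w = 0 := by
      intro X hX
      have hcom : X * (P : Module.End ℚ A.H1) = (P : Module.End ℚ A.H1) * X := P.2.1 X hX
      have e0 : ∀ ξ : A.H1 [⋀^Fin 2 × Fin 2]→ₗ[ℚ] ℚ, derA X ξ = 0 →
          derA X (derA (P : Module.End ℚ A.H1) ξ) = 0 := fun ξ hξ => by
        rw [derA_comm ξ hcom, hξ, derA_zero_right]
      rw [hw, derA_smul_right, e0 _ (e0 _ (hL X hX)), smul_zero]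
    have hL0 : ∀ X ∈ A.LA, derA X (φ - w) = 0 := fun X hX => by
      rw [derA_sub_right, hL X hX, hLw X hX, sub_zero]
    refine ⟨φ - w, w, (sub_add_cancel φ w).symm, drb_of_LA hL0, drb_of_LA hLw,
      hodge _ hL0 hq1, key _ hL0 hq1, Or.inr ⟨P, r, P.2, hr0, H.finrank_V1 hb, hPP, hq2, ?_⟩⟩
    intro M hM htr
    refine hodge_of_J _ fun f => ?_
    have hJ : A.cmpE f AbVar.JJ ∈ A.NA := A.MA_le_NA (A.J_mem f)
    rw [kills_iff_derA]
    exact weil_kill hA H hb hc hP hr0.ne' hq2 hq3 (A.cx_adjoin _ (bc_mem hJ)) (A.NA_skew hJ)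
      (trace_J hM htr f)

end Pool.Agent.H845.CM
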