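import Pool.Agent.H845.CM.Sep
import Pool.Agent.H845.CM.Comb

set_option autoImplicit false
set_option linter.unusedSectionVars false
set_option linter.unusedSimpArgs false
set_option linter.unusedVariables false

/-!
# The weights of a class of degree four
-/

open Module Function TensorProduct

noncomputable section

namespace Pool.Agent.H845.CM

open Pool.Agent.Y102 Pool.Agent.W516.DR Pool.Agent.H204R3.GP Pool.Agent.W516.KC
  Pool.Agent.H204R3.SP Pool.Agent.R912

variable {g : ℕ} {A : AbVar g}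

variable (A) in
/-- the central elements of the Lie algebra, as a subspace of the central endomorphisms -/
def SA : Submodule ℚ A.ZA := A.LA.comap A.ZA.subtype

theorem mem_SA {R : A.ZA} : R ∈ SA A ↔ (R : Module.End ℚ A.H1) ∈ A.LA := Iff.rfl

variable (A) in
/-- restriction of characters -/
def rs : (A.ZA →ₗ[ℚ] ℂ) →+ (SA A →ₗ[ℚ] ℂ) where
  toFun f := f.comp (SA A).subtype
  map_zero' := LinearMap.zero_comp _
  map_add' f h := LinearMap.add_comp _ _ _

theorem rs_apply (f : A.ZA →ₗ[ℚ] ℂ) (R : SA A) : rs A f R = f R.1 := rfl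

theorem rs_zero {f : A.ZA →ₗ[ℚ] ℂ} (h : ∀ R : A.ZA, (R : Module.End ℚ A.H1) ∈ A.LA → f R = 0) :
    rs A f = 0 := LinearMap.ext fun R => h R.1 R.2

theorem of_rs_zero {f : A.ZA →ₗ[ℚ] ℂ} (h : rs A f = 0) {R : A.ZA}
    (hR : (R : Module.End ℚ A.H1) ∈ A.LA) : f R = 0 := by
  have h1 := LinearMap.congr_fun h (⟨R, hR⟩ : SA A)
  exact h1

variable {n : ℕ} {b : Basis (Fin n) ℂ (ℂ ⊗[ℚ] A.H1)} {χ : Fin n → (A.ZA →ₗ[ℚ] ℂ)}

theorem two_tors {V : Type} [AddCommGroup V] (x : V →ₗ[ℤ] ℂ) : x + x = 0 → x = 0 := by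
  intro h
  refine LinearMap.ext fun v => ?_
  have h1 := LinearMap.congr_fun h v
  rw [LinearMap.add_apply, LinearMap.zero_apply] at h1
  have h2 : (2 : ℂ) * x v = 0 := by linear_combination h1
  exact (mul_eq_zero.1 h2).resolve_left two_ne_zero

theorem chars (hA : CMIV A)
    (hb : ∀ k (R : A.ZA), (R : Module.End ℚ A.H1).baseChange ℂ (b k) = χ k R • b k)
    {σ : Equiv.Perm (Fin n)} (hσ : ∀ k, χ (σ k) = -χ k) : Chars χ (rs A) σ where
  tM x h := by
    refine LinearMap.ext fun v => ?_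
    have h1 := LinearMap.congr_fun h v
    rw [LinearMap.add_apply, LinearMap.zero_apply] at h1
    have h2 : (2 : ℂ) * x v = 0 := by linear_combination h1
    exact (mul_eq_zero.1 h2).resolve_left two_ne_zero
  tN x h := by
    refine LinearMap.ext fun v => ?_
    have h1 := LinearMap.congr_fun h v
    rw [LinearMap.add_apply, LinearMap.zero_apply] at h1
    have h2 : (2 : ℂ) * x v = 0 := by linear_combination h1
    exact (mul_eq_zero.1 h2).resolve_left two_ne_zero
  sep i j hi hj h := sep hA hb hi hj fun R hR => by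
    have h1 := LinearMap.congr_fun h (⟨R, hR⟩ : SA A)
    exact h1
  sep0 i h := sep0 hA hb fun R hR => of_rs_zero h hR
  opp := hσ

variable {ψ : Q4 (ℂ ⊗[ℚ] A.H1)}

/-- central endomorphisms on the basis -/
theorem wtR (hb : ∀ k (R : A.ZA), (R : Module.End ℚ A.H1).baseChange ℂ (b k) = χ k R • b k)
    (R : A.ZA) (i j k l : Fin n) :
    ψ ((R : Module.End ℚ A.H1).baseChange ℂ (b i)) (b j) (b k) (b l) +
      ψ (b i) ((R : Module.End ℚ A.H1).baseChange ℂ (b j)) (b k) (b l) +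
      ψ (b i) (b j) ((R : Module.End ℚ A.H1).baseChange ℂ (b k)) (b l) +
      ψ (b i) (b j) (b k) ((R : Module.End ℚ A.H1).baseChange ℂ (b l)) =
    (χ i + χ j + χ k + χ l) R * ψ (b i) (b j) (b k) (b l) := by
  rw [hb, hb, hb, hb]
  simp only [map_smul, LinearMap.smul_apply, smul_eq_mul, LinearMap.add_apply]
  ring

theorem rs_of_ne (hb : ∀ k (R : A.ZA), (R : Module.End ℚ A.H1).baseChange ℂ (b k) = χ k R • b k)
    (hL : ∀ X ∈ A.LA, Kill4 ⊤ ψ (X.baseChange ℂ)) {i j k l : Fin n}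
    (hne : ψ (b i) (b j) (b k) (b l) ≠ 0) : rs A (χ i + χ j + χ k + χ l) = 0 := by
  refine rs_zero fun R hR => ?_
  have h1 := hL R hR (b i) trivial (b j) trivial (b k) trivial (b l) trivial
  rw [wtR hb] at h1
  exact (mul_eq_zero.1 h1).resolve_right hne

/-- Three vectors with a relation -/
theorem no3 (hA : CMIV A)
    (hb : ∀ k (R : A.ZA), (R : Module.End ℚ A.H1).baseChange ℂ (b k) = χ k R • b k)
    (hL : ∀ X ∈ A.LA, Kill4 ⊤ ψ (X.baseChange ℂ)) {i j k : Fin n} (hi : χ i ≠ 0) (hj : χ j ≠ 0)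
    (hk : χ k ≠ 0) (h : rs A (χ i + χ j + χ k) = 0) (u : ℂ ⊗[ℚ] A.H1) :
    ψ (b i) (b j) (b k) u = 0 := by
  have h1 : ψ (b i) (b j) (b k) = 0 := by
    apply coinv (A := A)
    intro X hX u
    obtain ⟨R, hRL, hR, -⟩ := act hA hb hX
    have h2 := hL X hX (b i) trivial (b j) trivial (b k) trivial u trivial
    rw [hR i hi, hR j hj, hR k hk] at h2
    simp only [map_smul, LinearMap.smul_apply, smul_eq_mul] at h2
    have h3 := of_rs_zero h hRL
    rw [LinearMap.add_apply, LinearMap.add_apply] at h3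
    linear_combination h2 - h3 * ψ (b i) (b j) (b k) u
  rw [h1, LinearMap.zero_apply]

/-- a tuple without cancellations and with a relation -/
structure Bad (χ : Fin n → (A.ZA →ₗ[ℚ] ℂ)) (i j k l : Fin n) : Prop where
  ne : ∀ x ∈ ({i, j, k, l} : Finset (Fin n)), χ x ≠ 0
  card : ({i, j, k, l} : Finset (Fin n)).card = 4
  rel : rs A (∑ x ∈ ({i, j, k, l} : Finset (Fin n)), χ x) = 0
  canc : ∀ x ∈ ({i, j, k, l} : Finset (Fin n)), ∀ y ∈ ({i, j, k, l} : Finset (Fin n)),
    χ x + χ y ≠ 0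
  sum : ∑ x ∈ ({i, j, k, l} : Finset (Fin n)), χ x = χ i + χ j + χ k + χ l

theorem alt_eq (hAlt : Alt4 ψ) {a b' c d : ℂ ⊗[ℚ] A.H1} (h : a = b' ∨ a = c ∨ a = d ∨ b' = c ∨
    b' = d ∨ c = d) : ψ a b' c d = 0 := by
  have e1 : ∀ a c d : ℂ ⊗[ℚ] A.H1, ψ a a c d = 0 := fun a c d => by
    have h1 := hAlt.s1 a a c d
    exact self_eq_neg.1 h1
  have e2 : ∀ a b c : ℂ ⊗[ℚ] A.H1, ψ a b b c = 0 := fun a b c => self_eq_neg.1 (hAlt.s2 a b b c)
  have e3 : ∀ a b c : ℂ ⊗[ℚ] A.H1, ψ a b c c = 0 := fun a b c => self_eq_neg.1 (hAlt.s3 a b c c)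
  rcases h with rfl | rfl | rfl | rfl | rfl | rfl
  · exact e1 _ _ _
  · rw [← neg_eq_zero, ← hAlt.s2]; exact e1 _ _ _
  · rw [← neg_eq_zero, ← hAlt.s3, ← neg_eq_zero, ← hAlt.s2]; exact e1 _ _ _
  · exact e2 _ _ _
  · rw [← neg_eq_zero, ← hAlt.s3]; exact e2 _ _ _
  · exact e3 _ _ _

/-- **The weights of a class.** -/
theorem weights (hA : CMIV A)
    (hb : ∀ k (R : A.ZA), (R : Module.End ℚ A.H1).baseChange ℂ (b k) = χ k R • b k)
    {σ : Equiv.Perm (Fin n)} (hσ : ∀ k, χ (σ k) = -χ k) (hAlt : Alt4 ψ)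
    (hL : ∀ X ∈ A.LA, Kill4 ⊤ ψ (X.baseChange ℂ)) {i j k l : Fin n}
    (hne : ψ (b i) (b j) (b k) (b l) ≠ 0) : χ i + χ j + χ k + χ l = 0 ∨ Bad χ i j k l := by
  classical
  have H := chars hA hb hσ
  have hr := rs_of_ne hb hL hne
  by_cases hi : χ i = 0 <;> by_cases hj : χ j = 0 <;> by_cases hk : χ k = 0 <;>
    by_cases hl : χ l = 0
  · left; rw [hi, hj, hk, hl]; simp
  · left; rw [hi, hj, hk] at hr ⊢; simp only [zero_add] at hr ⊢; exact H.sep0 _ hr
  · left; rw [hi, hj, hl] at hr ⊢; simp only [zero_add, add_zero] at hr ⊢; exact H.sep0 _ hr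
  · left; rw [hi, hj] at hr ⊢; simp only [zero_add] at hr ⊢; exact H.two hk hl hr
  · left; rw [hi, hk, hl] at hr ⊢; simp only [zero_add, add_zero] at hr ⊢; exact H.sep0 _ hr
  · left; rw [hi, hk] at hr ⊢; simp only [zero_add, add_zero] at hr ⊢; exact H.two hj hl hr
  · left; rw [hi, hl] at hr ⊢; simp only [zero_add, add_zero] at hr ⊢; exact H.two hj hk hr
  · exfalso; apply hne
    rw [hi, zero_add] at hr
    rw [← neg_eq_zero, ← hAlt.s1, ← neg_eq_zero, ← hAlt.s2, ← neg_eq_zero, ← hAlt.s3]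
    exact no3 hA hb hL hj hk hl hr _
  · left; rw [hj, hk, hl] at hr ⊢; simp only [zero_add, add_zero] at hr ⊢; exact H.sep0 _ hr
  · left; rw [hj, hk] at hr ⊢; simp only [zero_add, add_zero] at hr ⊢; exact H.two hi hl hr
  · left; rw [hj, hl] at hr ⊢; simp only [zero_add, add_zero] at hr ⊢; exact H.two hi hk hr
  · exfalso; apply hne
    rw [hj, add_zero] at hr
    rw [← neg_eq_zero, ← hAlt.s2, ← neg_eq_zero, ← hAlt.s3]
    exact no3 hA hb hL hi hk hl hr _
  · left; rw [hk, hl] at hr ⊢; simp only [zero_add, add_zero] at hr ⊢; exact H.two hi hj hr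
  · exfalso; apply hne
    rw [hk, add_zero] at hr
    rw [← neg_eq_zero, ← hAlt.s3]
    exact no3 hA hb hL hi hj hl hr _
  · exfalso; apply hne
    rw [hl, add_zero] at hr
    exact no3 hA hb hL hi hj hk hr _
  · -- all four are nonzero
    have d1 : i ≠ j := fun h => hne (alt_eq hAlt (Or.inl (by rw [h])))
    have d2 : i ≠ k := fun h => hne (alt_eq hAlt (Or.inr (Or.inl (by rw [h]))))
    have d3 : i ≠ l := fun h => hne (alt_eq hAlt (Or.inr (Or.inr (Or.inl (by rw [h])))))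
    have d4 : j ≠ k := fun h => hne (alt_eq hAlt (Or.inr (Or.inr (Or.inr (Or.inl (by rw [h]))))))
    have d5 : j ≠ l := fun h => hne (alt_eq hAlt (Or.inr (Or.inr (Or.inr (Or.inr (Or.inl
      (by rw [h])))))))
    have d6 : k ≠ l := fun h => hne (alt_eq hAlt (Or.inr (Or.inr (Or.inr (Or.inr (Or.inr
      (by rw [h])))))))
    have hc : ({i, j, k, l} : Finset (Fin n)).card = 4 := by
      rw [Finset.card_insert_of_notMem, Finset.card_insert_of_notMem,
        Finset.card_insert_of_notMem, Finset.card_singleton]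
      · simpa using d6
      · simpa using ⟨d4, d5⟩
      · simpa using ⟨d1, d2, d3⟩
    have hs : ∑ x ∈ ({i, j, k, l} : Finset (Fin n)), χ x = χ i + χ j + χ k + χ l := by
      rw [Finset.sum_insert, Finset.sum_insert, Finset.sum_insert, Finset.sum_singleton]
      · abel
      · simpa using d6
      · simpa using ⟨d4, d5⟩
      · simpa using ⟨d1, d2, d3⟩
    have hne' : ∀ x ∈ ({i, j, k, l} : Finset (Fin n)), χ x ≠ 0 := by
      intro x hx
      simp only [Finset.mem_insert, Finset.mem_singleton] at hx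
      rcases hx with rfl | rfl | rfl | rfl
      · exact hi
      · exact hj
      · exact hk
      · exact hl
    rw [← hs] at hr
    rcases H.four hne' hc hr with h | h
    · left; rw [← hs]; exact h
    · right; exact ⟨hne', hc, hr, h, hs⟩

end Pool.Agent.H845.CM
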