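import Pool.Agent.H845.CM.Zero2

set_option autoImplicit false
set_option linter.unusedSectionVars false
set_option linter.unusedSimpArgs false
set_option linter.unusedVariables false

/-!
# The forms killed by the Lie algebra and by the centre
-/

open Module Function TensorProduct

noncomputable section

namespace Pool.Agent.H845.CM

open Pool.Agent.Y102 Pool.Agent.W516.DR Pool.Agent.H204R3.GP Pool.Agent.W516.KC
  Pool.Agent.H204R3.SP Pool.Agent.R912

section Res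

variable {U : Type} [AddCommGroup U] [Module ℂ U]

/-- restriction of a form in one variable -/
def res1 (W : Submodule ℂ U) : (U →ₗ[ℂ] ℂ) →ₗ[ℂ] (W →ₗ[ℂ] ℂ) := LinearMap.lcomp ℂ ℂ W.subtype

/-- restriction of a form in two variables -/
def res2 (W : Submodule ℂ U) : (U →ₗ[ℂ] U →ₗ[ℂ] ℂ) →ₗ[ℂ] (W →ₗ[ℂ] W →ₗ[ℂ] ℂ) :=
  (LinearMap.compRight ℂ (res1 W)) ∘ₗ (LinearMap.lcomp ℂ (U →ₗ[ℂ] ℂ) W.subtype)

/-- restriction of a form in three variables -/
def res3 (W : Submodule ℂ U) :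
    (U →ₗ[ℂ] U →ₗ[ℂ] U →ₗ[ℂ] ℂ) →ₗ[ℂ] (W →ₗ[ℂ] W →ₗ[ℂ] W →ₗ[ℂ] ℂ) :=
  (LinearMap.compRight ℂ (res2 W)) ∘ₗ (LinearMap.lcomp ℂ (U →ₗ[ℂ] U →ₗ[ℂ] ℂ) W.subtype)

/-- restriction of a form to a subspace -/
def resQ (ψ : Q4 U) (W : Submodule ℂ U) : Q4 W := (res3 W) ∘ₗ ψ ∘ₗ W.subtype

theorem resQ_apply (ψ : Q4 U) (W : Submodule ℂ U) (a b c d : W) :
    resQ ψ W a b c d = ψ a.1 b.1 c.1 d.1 := rfl

end Res

variable {g : ℕ} {A : AbVar g}

/-- invariant bilinear forms -/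
theorem bil_inv {X : Module.End ℂ (ℂ ⊗[ℚ] A.H1)}
    (hX : X ∈ Algebra.adjoin ℂ (cx A.LA : Set (Module.End ℂ (ℂ ⊗[ℚ] A.H1))))
    (hXs : ∀ u v, omC A (X u) v + omC A u (X v) = 0)
    (β : (ℂ ⊗[ℚ] A.H1) →ₗ[ℂ] (ℂ ⊗[ℚ] A.H1) →ₗ[ℂ] ℂ)
    (hβ : ∀ x ∈ cx A.LA, ∀ u v, β (x u) v + β u (x v) = 0) (u v : ℂ ⊗[ℚ] A.H1) :
    β (X u) v + β u (X v) = 0 := by
  have nd : ∀ u, (∀ v, omC A v u = 0) → u = 0 := fun u hu =>
    nondeg_ext A.om (omC A) (omC_tmul A) (fun u hu => A.om_nondeg hu) u fun z => by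
      rw [omC_anti, hu, neg_zero]
  have hinj : Function.Injective ((omC A).flip : (ℂ ⊗[ℚ] A.H1) →ₗ[ℂ] Module.Dual ℂ _) := by
    rw [injective_iff_map_eq_zero]
    intro u hu
    exact nd u fun v => LinearMap.congr_fun hu v
  let E : (ℂ ⊗[ℚ] A.H1) ≃ₗ[ℂ] Module.Dual ℂ (ℂ ⊗[ℚ] A.H1) :=
    LinearMap.linearEquivOfInjective (omC A).flip hinj (Subspace.dual_finrank_eq).symm
  obtain ⟨K, hK⟩ : ∃ K : Module.End ℂ (ℂ ⊗[ℚ] A.H1), ∀ u v, β u v = omC A u (K v) := by
    refine ⟨E.symm.toLinearMap ∘ₗ β.flip, fun u v => ?_⟩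
    have h1 : E (E.symm (β.flip v)) = β.flip v := E.apply_symm_apply _
    exact (LinearMap.congr_fun h1 u).symm
  have hcom : ∀ x ∈ cx A.LA, x * K = K * x := by
    intro x hx
    refine LinearMap.ext fun v => ?_
    rw [Module.End.mul_apply, Module.End.mul_apply, ← sub_eq_zero]
    refine nd _ fun u => ?_
    rw [map_sub, ← hK]
    have h1 := hβ x hx u v
    rw [hK] at h1
    have h2 := omC_skew A (fun X hX => A.LA_skew hX) x hx u (K v)
    linear_combination h2 - h1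
  have h1 := adj_comL hX K hcom
  have h2 : K (X v) = X (K v) := (LinearMap.congr_fun h1 v).symm
  rw [hK, hK, h2]
  exact hXs u (K v)

variable {n : ℕ} {b : Basis (Fin n) ℂ (ℂ ⊗[ℚ] A.H1)} {χ : Fin n → (A.ZA →ₗ[ℚ] ℂ)}

/-- **The part without type IV.** -/
theorem kill0 (hb : ∀ k (R : A.ZA), (R : Module.End ℚ A.H1).baseChange ℂ (b k) = χ k R • b k)
    (h8 : finrank ℂ (U0 A) ≤ 8) {ψ : Q4 (ℂ ⊗[ℚ] A.H1)} (hAlt : Alt4 ψ)
    (hL : ∀ x ∈ cx A.LA, Kill4 ⊤ ψ x) {X : Module.End ℂ (ℂ ⊗[ℚ] A.H1)}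
    (hX : X ∈ Algebra.adjoin ℂ (cx A.LA : Set (Module.End ℂ (ℂ ⊗[ℚ] A.H1))))
    (hXs : ∀ u v, omC A (X u) v + omC A u (X v) = 0) :
    ∀ a ∈ U0 A, ∀ b ∈ U0 A, ∀ c ∈ U0 A, ∀ d ∈ U0 A, der4 X ψ a b c d = 0 := by
  by_cases h6 : finrank ℂ (U0 A) ≤ 6
  · exact kill_small (omC_anti A) (nd_U0 hb) h6 hAlt hL (omC_skew A fun X hX => A.LA_skew hX)
      (fun x hx => U0_stab (cx_comm_ZA hx)) hXs (U0_stab (adj_comm_ZA hX)) (bil_inv hX hXs)
  · have heven : Even (finrank ℂ (U0 A)) :=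
      even_of_alt (om0 A) (fun u v => by rw [om0_apply, om0_apply, omC_anti])
        fun u hu => Subtype.ext (nd_U0 hb u.1 u.2 fun v hv => by
          have h1 := hu ⟨v, hv⟩
          rw [om0_apply] at h1
          exact h1)
    have h8' : finrank ℂ (U0 A) = 8 := by
      obtain ⟨m, hm⟩ := heven
      omega
    have hnt : Nontrivial (U0 A) := by
      apply Module.nontrivial_of_finrank_pos (R := ℂ)
      rw [h8']
      norm_num
    have hmain := (thyp hb).main h8' (ψ := resQ ψ (U0 A)) (X := rst (adj_comm_ZA hX))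
      ⟨fun a b c d => hAlt.s1 a.1 b.1 c.1 d.1, fun a b c d => hAlt.s2 a.1 b.1 c.1 d.1,
        fun a b c d => hAlt.s3 a.1 b.1 c.1 d.1⟩ (by
        rintro s ⟨t, ht, hs⟩ x _ y _ z _ w _
        rw [resQ_apply, resQ_apply, resQ_apply, resQ_apply, hs, hs, hs, hs]
        exact hL t ht x.1 trivial y.1 trivial z.1 trivial w.1 trivial) (rst_stab hX)
      (fun k hk => rst_comm hb hX hk) (rst_skew hX hXs)
    intro x hx y hy z hz w hw
    exact hmain ⟨x, hx⟩ trivial ⟨y, hy⟩ trivial ⟨z, hz⟩ trivial ⟨w, hw⟩ trivial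

/-! ## The other part -/

/-- the Lie algebra acts by scalars on the vectors with a nonzero character -/
theorem act' (hA : CMIV A) {v : ℂ ⊗[ℚ] A.H1} {χ0 : A.ZA →ₗ[ℚ] ℂ}
    (hv : ∀ R : A.ZA, (R : Module.End ℚ A.H1).baseChange ℂ v = χ0 R • v) (h0 : χ0 ≠ 0)
    {x : Module.End ℂ (ℂ ⊗[ℚ] A.H1)} (hx : x ∈ cx A.LA) :
    ∀ u ∈ Submodule.span ℂ {v}, x u ∈ Submodule.span ℂ {v} := by
  intro u hu
  obtain ⟨c, rfl⟩ := Submodule.mem_span_singleton.1 hu
  rw [map_smul]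
  apply Submodule.smul_mem
  induction hx using Submodule.span_induction with
  | mem x hx =>
    obtain ⟨X, hX, rfl⟩ := hx
    obtain ⟨Z, hZ, d, hd, h⟩ := Submodule.mem_sup.1 (A.LA_le_sup hX)
    obtain ⟨R₀, hR₀⟩ : ∃ R₀, χ0 R₀ ≠ 0 := by
      by_contra hne
      push Not at hne
      exact h0 (LinearMap.ext hne)
    have h1 : d.baseChange ℂ ((R₀ : Module.End ℚ A.H1).baseChange ℂ v) = 0 := by
      rw [← LinearMap.comp_apply, ← LinearMap.baseChange_comp]
      have h6 : d ∘ₗ (R₀ : Module.End ℚ A.H1) = 0 := DA_mul hA hd R₀.2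
      rw [h6, LinearMap.baseChange_zero, LinearMap.zero_apply]
    rw [hv, map_smul] at h1
    have h2 := (smul_eq_zero.1 h1).resolve_left hR₀
    have h3 := hv ⟨Z, CL_mem_ZA hZ⟩
    rw [← h, LinearMap.baseChange_add, LinearMap.add_apply, h2, add_zero]
    refine Submodule.mem_span_singleton.2 ⟨χ0 ⟨Z, CL_mem_ZA hZ⟩, h3.symm⟩
  | zero => exact Submodule.zero_mem _
  | add x y _ _ hx hy => exact Submodule.add_mem _ hx hy
  | smul t x _ hx => exact Submodule.smul_mem _ t hx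

theorem eig (hA : CMIV A) {v : ℂ ⊗[ℚ] A.H1} {χ0 : A.ZA →ₗ[ℚ] ℂ}
    (hv : ∀ R : A.ZA, (R : Module.End ℚ A.H1).baseChange ℂ v = χ0 R • v) (h0 : χ0 ≠ 0)
    {X : Module.End ℂ (ℂ ⊗[ℚ] A.H1)}
    (hX : X ∈ Algebra.adjoin ℂ (cx A.LA : Set (Module.End ℂ (ℂ ⊗[ℚ] A.H1)))) :
    ∃ ν : ℂ, X v = ν • v := by
  have h1 := Pool.Agent.Y102.SP.kil_adj _ (Submodule.span ℂ {v})
    (fun x hx u hu => act' hA hv h0 hx u hu) _ hX v (Submodule.mem_span_singleton_self v)
  obtain ⟨c, hc⟩ := Submodule.mem_span_singleton.1 h1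
  exact ⟨c, hc.symm⟩

/-- the eigenvalues -/
theorem exists_ν (hA : CMIV A)
    (hb : ∀ k (R : A.ZA), (R : Module.End ℚ A.H1).baseChange ℂ (b k) = χ k R • b k)
    {X : Module.End ℂ (ℂ ⊗[ℚ] A.H1)}
    (hX : X ∈ Algebra.adjoin ℂ (cx A.LA : Set (Module.End ℂ (ℂ ⊗[ℚ] A.H1))))
    (hXs : ∀ u v, omC A (X u) v + omC A u (X v) = 0) :
    ∃ ν : Fin n → ℂ, (∀ k, χ k ≠ 0 → X (b k) = ν k • b k) ∧ (∀ k, χ k = 0 → ν k = 0) ∧
      (∀ k l, χ k = χ l → ν k = ν l) ∧ ∀ k l, χ k + χ l = 0 → ν k + ν l = 0 := by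
  have h1 : ∀ k, ∃ ν : ℂ, (χ k ≠ 0 → X (b k) = ν • b k) ∧ (χ k = 0 → ν = 0) := by
    intro k
    by_cases hk : χ k = 0
    · exact ⟨0, fun h => absurd hk h, fun _ => rfl⟩
    · obtain ⟨ν, hν⟩ := eig hA (hb k) hk hX
      exact ⟨ν, fun _ => hν, fun h => absurd h hk⟩
  choose ν hν1 hν2 using h1
  have h2 : ∀ k l, χ k = χ l → ν k = ν l := by
    intro k l h
    by_cases hk : χ k = 0
    · rw [hν2 k hk, hν2 l (by rw [← h, hk])]
    have hl : χ l ≠ 0 := by rw [← h]; exact hk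
    by_cases hkl : k = l
    · rw [hkl]
    obtain ⟨μ, hμ⟩ := eig hA (v := b k + b l) (χ0 := χ k)
      (fun R => by rw [map_add, hb, hb, ← h, smul_add]) hk hX
    rw [map_add, hν1 k hk, hν1 l hl] at hμ
    have e1 := congrArg (fun u => b.repr u k) hμ
    have e2 := congrArg (fun u => b.repr u l) hμ
    simp only [map_add, map_smul, Finsupp.add_apply, Finsupp.smul_apply, Basis.repr_self,
      Finsupp.single_apply, if_true, smul_eq_mul, mul_one, if_neg hkl, if_neg (Ne.symm hkl),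
      mul_zero, add_zero, zero_add] at e1 e2
    rw [e1, e2]
  refine ⟨ν, hν1, hν2, h2, fun k l h => ?_⟩
  by_cases hk : χ k = 0
  · rw [hν2 k hk, hν2 l (by rw [hk, zero_add] at h; exact h), add_zero]
  obtain ⟨m, hm⟩ : ∃ m, omC A (b k) (b m) ≠ 0 := by
    by_contra hcon
    push Not at hcon
    apply b.ne_zero k
    refine nondeg_ext A.om (omC A) (omC_tmul A) (fun u hu => A.om_nondeg hu) _ fun z => ?_
    have h3 : omC A (b k) = 0 := b.ext fun m => by rw [hcon m, LinearMap.zero_apply]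
    rw [h3, LinearMap.zero_apply]
  have hkm : χ k + χ m = 0 := by
    refine LinearMap.ext fun R => ?_
    have h2 := skew_ext A.om (omC A) (omC_tmul A) R.2.2.1 (b k) (b m)
    rw [hb, hb, map_smul, LinearMap.smul_apply, map_smul, smul_eq_mul, smul_eq_mul,
      ← add_mul] at h2
    exact (mul_eq_zero.1 h2).resolve_right hm
  have hml : χ l = χ m := by
    rw [← neg_eq_of_add_eq_zero_right h, neg_eq_of_add_eq_zero_right hkm]
  have hm0 : χ m ≠ 0 := by
    intro h0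
    rw [h0, add_zero] at hkm
    exact hk hkm
  have h3 := hXs (b k) (b m)
  rw [hν1 k hk, hν1 m hm0, map_smul, LinearMap.smul_apply, map_smul, smul_eq_mul, smul_eq_mul,
    ← add_mul] at h3
  rw [h2 l m hml]
  exact (mul_eq_zero.1 h3).resolve_right hm

/-- **Main theorem over the complex numbers.** -/
theorem kill_all (hA : CMIV A)
    (hb : ∀ k (R : A.ZA), (R : Module.End ℚ A.H1).baseChange ℂ (b k) = χ k R • b k)
    (h8 : finrank ℂ (U0 A) ≤ 8) {ψ : Q4 (ℂ ⊗[ℚ] A.H1)} (hAlt : Alt4 ψ)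
    (hL : ∀ x ∈ cx A.LA, Kill4 ⊤ ψ x)
    (hZ : ∀ R : A.ZA, Kill4 ⊤ ψ ((R : Module.End ℚ A.H1).baseChange ℂ))
    {X : Module.End ℂ (ℂ ⊗[ℚ] A.H1)}
    (hX : X ∈ Algebra.adjoin ℂ (cx A.LA : Set (Module.End ℂ (ℂ ⊗[ℚ] A.H1))))
    (hXs : ∀ u v, omC A (X u) v + omC A u (X v) = 0) : der4 X ψ = 0 := by
  obtain ⟨ν, hν1, hν2, hν3, hν4⟩ := exists_ν hA hb hX hXs
  have hZ' : ∀ x ∈ cx A.ZA, der4 x ψ = 0 := by
    intro x hx
    induction hx using Submodule.span_induction with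
    | mem x hx =>
      obtain ⟨R, hR, rfl⟩ := hx
      exact der4_eq_zero.2 (hZ ⟨R, hR⟩)
    | zero => exact der4_zero ψ
    | add x y _ _ hx hy => rw [der4_add, hx, hy, add_zero]
    | smul c x _ hx => rw [der4_smul, hx, smul_zero]
  have hdg : ∀ i j k l, (ν i + ν j + ν k + ν l) * ψ (b i) (b j) (b k) (b l) = 0 := by
    intro i j k l
    have h1 : der4 (dg b ν) ψ (b i) (b j) (b k) (b l) = 0 := by
      rw [hZ' _ (dg_cx hb hν3 hν4)]
      rfl
    rw [der4_apply, dg_apply, dg_apply, dg_apply, dg_apply] at h1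
    simp only [map_smul, LinearMap.smul_apply, smul_eq_mul] at h1
    linear_combination h1
  have hL' : ∀ X ∈ A.LA, Kill4 ⊤ ψ (X.baseChange ℂ) := fun X hX => hL _ (bc_mem hX)
  have hXU := U0_stab (adj_comm_ZA hX)
  -- the vectors of `U0`
  have k0 : ∀ k, χ k = 0 → b k ∈ U0 A := fun k hk => basis_mem_U0 hb hk
  have hθ := alt_der4 (X := X) hAlt
  -- all characters are nonzero
  have t0 : ∀ i j k l, χ i ≠ 0 → χ j ≠ 0 → χ k ≠ 0 → χ l ≠ 0 →
      der4 X ψ (b i) (b j) (b k) (b l) = 0 := by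
    intro i j k l hi hj hk hl
    rw [der4_apply, hν1 i hi, hν1 j hj, hν1 k hk, hν1 l hl]
    simp only [map_smul, LinearMap.smul_apply, smul_eq_mul]
    linear_combination hdg i j k l
  -- three nonzero characters
  have z1 : ∀ i j k, χ i ≠ 0 → χ j ≠ 0 → χ k ≠ 0 → ∀ u ∈ U0 A, ψ (b i) (b j) (b k) u = 0 := by
    intro i j k hi hj hk u hu
    by_cases hs : χ i + χ j + χ k = 0
    · exact no3 hA hb hL' hi hj hk (by rw [hs, map_zero]) u
    · obtain ⟨R, hR⟩ : ∃ R, (χ i + χ j + χ k) R ≠ 0 := by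
        by_contra hne
        push Not at hne
        exact hs (LinearMap.ext hne)
      have h1 := hZ R (b i) trivial (b j) trivial (b k) trivial u trivial
      rw [hb, hb, hb, hu R] at h1
      simp only [map_smul, LinearMap.smul_apply, smul_eq_mul, map_zero, add_zero] at h1
      rw [LinearMap.add_apply, LinearMap.add_apply] at hR
      refine (mul_eq_zero.1 ?_).resolve_left hR
      linear_combination h1
  have t1 : ∀ i j k l, χ i ≠ 0 → χ j ≠ 0 → χ k ≠ 0 → χ l = 0 →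
      der4 X ψ (b i) (b j) (b k) (b l) = 0 := by
    intro i j k l hi hj hk hl
    rw [der4_apply, hν1 i hi, hν1 j hj, hν1 k hk, z1 i j k hi hj hk _ (hXU _ (k0 l hl))]
    simp only [map_smul, LinearMap.smul_apply, smul_eq_mul, z1 i j k hi hj hk _ (k0 l hl)]
    ring
  -- one nonzero character
  have z3 : ∀ i, χ i ≠ 0 → ∀ u ∈ U0 A, ∀ v ∈ U0 A, ∀ w ∈ U0 A, ψ (b i) u v w = 0 := by
    intro i hi u hu v hv w hw
    obtain ⟨R, hR⟩ : ∃ R, χ i R ≠ 0 := by
      by_contra hne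
      push Not at hne
      exact hi (LinearMap.ext hne)
    have h1 := hZ R (b i) trivial u trivial v trivial w trivial
    rw [hb, hu R, hv R, hw R] at h1
    simp only [map_smul, LinearMap.smul_apply, smul_eq_mul, map_zero, add_zero,
      LinearMap.zero_apply] at h1
    exact (mul_eq_zero.1 h1).resolve_left hR
  have t3 : ∀ i j k l, χ i ≠ 0 → χ j = 0 → χ k = 0 → χ l = 0 →
      der4 X ψ (b i) (b j) (b k) (b l) = 0 := by
    intro i j k l hi hj hk hl
    rw [der4_apply, hν1 i hi, z3 i hi _ (hXU _ (k0 j hj)) _ (k0 k hk) _ (k0 l hl),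
      z3 i hi _ (k0 j hj) _ (hXU _ (k0 k hk)) _ (k0 l hl),
      z3 i hi _ (k0 j hj) _ (k0 k hk) _ (hXU _ (k0 l hl))]
    simp only [map_smul, LinearMap.smul_apply, smul_eq_mul,
      z3 i hi _ (k0 j hj) _ (k0 k hk) _ (k0 l hl)]
    ring
  -- two nonzero characters
  have t2 : ∀ i j k l, χ i ≠ 0 → χ j ≠ 0 → χ k = 0 → χ l = 0 →
      der4 X ψ (b i) (b j) (b k) (b l) = 0 := by
    intro i j k l hi hj hk hl
    by_cases hs : χ i + χ j = 0
    · have h1 := bil_inv hX hXs (ψ (b i) (b j)) (fun x hx u v => by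
        -- the Lie algebra acts by opposite scalars on the two vectors
        have key : ∀ x ∈ cx A.LA, ψ (x (b i)) (b j) + ψ (b i) (x (b j)) = 0 := by
          intro x hx
          induction hx using Submodule.span_induction with
          | mem x hx =>
            obtain ⟨Y, hY, rfl⟩ := hx
            obtain ⟨R, -, hR, -⟩ := act hA hb hY
            rw [hR i hi, hR j hj, map_smul, map_smul, LinearMap.smul_apply, ← add_smul,
              ← LinearMap.add_apply, hs, LinearMap.zero_apply, zero_smul]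
          | zero => simp
          | add x y _ _ hx hy =>
            simp only [LinearMap.add_apply, map_add]
            rw [add_add_add_comm, hx, hy, add_zero]
          | smul t x _ hx =>
            simp only [LinearMap.smul_apply, map_smul]
            rw [← smul_add, hx, smul_zero]
        have h2 := hL x hx (b i) trivial (b j) trivial u trivial v trivial
        have h3 := congrArg (fun F : (ℂ ⊗[ℚ] A.H1) →ₗ[ℂ] (ℂ ⊗[ℚ] A.H1) →ₗ[ℂ] ℂ => F u v) (key x hx)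
        simp only [LinearMap.add_apply, LinearMap.zero_apply] at h3
        linear_combination h2 - h3) (b k) (b l)
      have h2 := hν4 i j hs
      rw [der4_apply, hν1 i hi, hν1 j hj]
      simp only [map_smul, LinearMap.smul_apply, smul_eq_mul]
      linear_combination h1 + h2 * ψ (b i) (b j) (b k) (b l)
    · have z2 : ∀ u ∈ U0 A, ∀ v ∈ U0 A, ψ (b i) (b j) u v = 0 := by
        intro u hu v hv
        obtain ⟨R, hR⟩ : ∃ R, (χ i + χ j) R ≠ 0 := by
          by_contra hne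
          push Not at hne
          exact hs (LinearMap.ext hne)
        have h1 := hZ R (b i) trivial (b j) trivial u trivial v trivial
        rw [hb, hb, hu R, hv R] at h1
        simp only [map_smul, LinearMap.smul_apply, smul_eq_mul, map_zero, add_zero,
          LinearMap.zero_apply] at h1
        rw [LinearMap.add_apply] at hR
        refine (mul_eq_zero.1 ?_).resolve_left hR
        linear_combination h1
      rw [der4_apply, hν1 i hi, hν1 j hj, z2 _ (hXU _ (k0 k hk)) _ (k0 l hl),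
        z2 _ (k0 k hk) _ (hXU _ (k0 l hl))]
      simp only [map_smul, LinearMap.smul_apply, smul_eq_mul, z2 _ (k0 k hk) _ (k0 l hl)]
      ring
  have t4 : ∀ i j k l, χ i = 0 → χ j = 0 → χ k = 0 → χ l = 0 →
      der4 X ψ (b i) (b j) (b k) (b l) = 0 := fun i j k l hi hj hk hl =>
    kill0 hb h8 hAlt hL hX hXs _ (k0 i hi) _ (k0 j hj) _ (k0 k hk) _ (k0 l hl)
  obtain ⟨θ, hθd⟩ : ∃ θ, θ = der4 X ψ := ⟨_, rfl⟩
  rw [← hθd] at hθ t0 t1 t2 t3 t4 ⊢
  have s1 : ∀ a b c d, θ a b c d = -θ b a c d := fun a b c d => by rw [hθ.s1]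
  have s2 : ∀ a b c d, θ a b c d = -θ a c b d := fun a b c d => by rw [hθ.s2]
  have s3 : ∀ a b c d, θ a b c d = -θ a b d c := fun a b c d => by rw [hθ.s3]
  refine q4_ext b fun i j k l => ?_
  change θ (b i) (b j) (b k) (b l) = 0
  by_cases hi : χ i = 0 <;> by_cases hj : χ j = 0 <;> by_cases hk : χ k = 0 <;>
    by_cases hl : χ l = 0
  · exact t4 i j k l hi hj hk hl
  · rw [s3, s2, s1, t3 l i j k hl hi hj hk]; ring
  · rw [s2, s1, t3 k i j l hk hi hj hl]; ring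
  · rw [s2, s1, s3, s2, t2 k l i j hk hl hi hj]; ring
  · rw [s1, t3 j i k l hj hi hk hl]; ring
  · rw [s1, s3, s2, t2 j l i k hj hl hi hk]; ring
  · rw [s1, s2, t2 j k i l hj hk hi hl]; ring
  · rw [s1, s2, s3, t1 j k l i hj hk hl hi]; ring
  · exact t3 i j k l hi hj hk hl
  · rw [s3, s2, t2 i l j k hi hl hj hk]; ring
  · rw [s2, t2 i k j l hi hk hj hl]; ring
  · rw [s2, s3, t1 i k l j hi hk hl hj]; ring
  · exact t2 i j k l hi hj hk hl
  · rw [s3, t1 i j l k hi hj hl hk]; ring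
  · exact t1 i j k l hi hj hk hl
  · exact t0 i j k l hi hj hk hl

end Pool.Agent.H845.CM
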