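import Pool.Agent.H845.CM.Weil4
import Pool.Agent.H845.CM.Kill

set_option autoImplicit false
set_option linter.unusedSectionVars false
set_option linter.unusedSimpArgs false
set_option linter.unusedVariables false

/-!
# The components of the complex structure, and Weil classes which are Hodge classes
-/

open Module Function TensorProduct

noncomputable section

namespace Pool.Agent.H845.CM

open Pool.Agent.Y102 Pool.Agent.W516.DR Pool.Agent.H204R3.GP Pool.Agent.W516.KC
  Pool.Agent.H204R3.SP Pool.Agent.R912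

variable {g : ℕ} {A : AbVar g}

/-- A form killed by the components of the complex structure is a Hodge class. -/
theorem hodge_of_J {m : ℕ} (ψ : MultilinearMap ℚ (fun _ : Fin m × Fin 2 => A.H1) ℚ)
    (h : ∀ f : ℝ →ₗ[ℚ] ℚ, Kills (A.cmpE f AbVar.JJ) ψ) :
    IsHodgeTensor (A.per : A.H1 →+ (Fin g → ℂ)) ψ := by
  have hb : ∀ i, A.lam i = (A.per : A.H1 →+ (Fin g → ℂ)) (A.bas i) := fun i => (A.per_bas i).symm
  rw [hodge_iff (A.per : A.H1 →+ (Fin g → ℂ)) A.bas A.lam hb, kills_bcm_iff]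
  intro lam
  have h1 : Pool.Agent.W516.DR.cmpE lam (Jt A.bas A.lam) = A.cmpE lam AbVar.JJ := by
    refine A.bas.ext fun j => ?_
    have e1 : (eqT A.bas A.lam).symm ((1 : ℝ) ⊗ₜ[ℚ] A.bas j) = A.lam j := by
      rw [LinearEquiv.symm_apply_eq, eqT_basis]
    have e2 : Jt A.bas A.lam ((1 : ℝ) ⊗ₜ[ℚ] A.bas j) =
        eqT A.bas A.lam (Complex.I • A.lam j) := by
      unfold Jt
      rw [LinearMap.comp_apply, LinearMap.comp_apply, LinearEquiv.coe_coe, LinearEquiv.coe_coe, e1]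
      rfl
    rw [Pool.Agent.W516.DR.cmpE_apply, e2, AbVar.cmpE_apply, AbVar.per_bas, AbVar.JJ_apply,
      ← A.lam.sum_repr (Complex.I • A.lam j), map_sum, map_sum, map_sum]
    refine Finset.sum_congr rfl fun i _ => ?_
    rw [map_smul, eqT_basis, AbVar.cmp_real_smul_lam, smul_tmul',
      Pool.Agent.W516.DR.cmp_tmul, smul_eq_mul, mul_one]
  rw [h1]
  exact h lam

/-- The real trace of a complex linear map. -/
theorem trace_re (N : (Fin g → ℂ) →ₗ[ℂ] (Fin g → ℂ)) :
    LinearMap.trace ℝ (Fin g → ℂ) (N.restrictScalars ℝ) =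
      2 * (LinearMap.trace ℂ (Fin g → ℂ) N).re := by
  classical
  rw [LinearMap.trace_eq_matrix_trace ℝ (Complex.basisOneI.smulTower (Pi.basisFun ℂ (Fin g))),
    LinearMap.trace_eq_matrix_trace ℂ (Pi.basisFun ℂ (Fin g)), Matrix.trace, Matrix.trace,
    Fintype.sum_prod_type, Fin.sum_univ_two, Complex.re_sum, Finset.mul_sum,
    ← Finset.sum_add_distrib]
  refine Finset.sum_congr rfl fun j _ => ?_
  rw [Matrix.diag_apply, Matrix.diag_apply, Matrix.diag_apply, LinearMap.toMatrix_apply,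
    LinearMap.toMatrix_apply, LinearMap.toMatrix_apply, Module.Basis.smulTower_repr,
    Module.Basis.smulTower_repr, Module.Basis.smulTower_apply, Module.Basis.smulTower_apply]
  have e1 : Complex.basisOneI 0 = 1 := by rw [Complex.coe_basisOneI]; rfl
  have e2 : Complex.basisOneI 1 = Complex.I := by rw [Complex.coe_basisOneI]; rfl
  rw [e1, e2, LinearMap.restrictScalars_apply, LinearMap.restrictScalars_apply, map_smul, map_smul,
    map_smul, map_smul, one_smul]
  have e3 : ∀ z : ℂ, Complex.basisOneI.repr z 0 = z.re := fun z => by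
    rw [Complex.coe_basisOneI_repr]; rfl
  have e4 : ∀ z : ℂ, Complex.basisOneI.repr z 1 = z.im := fun z => by
    rw [Complex.coe_basisOneI_repr]; rfl
  rw [e3, e4, Finsupp.smul_apply, smul_eq_mul, Complex.I_mul_im]
  ring

/-- The trace of the components of the complex structure on an endomorphism. -/
theorem trace_J {P : Module.End ℚ A.H1} {M : (Fin g → ℂ) →ₗ[ℂ] (Fin g → ℂ)}
    (hM : ∀ w, M (A.per w) = A.per (P w)) (h0 : LinearMap.trace ℂ (Fin g → ℂ) M = 0)
    (f : ℝ →ₗ[ℚ] ℚ) : LinearMap.trace ℚ A.H1 (A.cmpE f AbVar.JJ * P) = 0 := by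
  have h1 : LinearMap.trace ℚ A.H1 (A.cmpE f AbVar.JJ * P) =
      f (LinearMap.trace ℝ (Fin g → ℂ) ((Complex.I • M).restrictScalars ℝ)) := by
    rw [LinearMap.trace_eq_matrix_trace ℚ A.bas, LinearMap.trace_eq_matrix_trace ℝ A.lam,
      Matrix.trace, Matrix.trace, map_sum]
    refine Finset.sum_congr rfl fun j _ => ?_
    rw [Matrix.diag_apply, Matrix.diag_apply, LinearMap.toMatrix_apply, LinearMap.toMatrix_apply,
      Module.End.mul_apply, AbVar.cmpE_apply, AbVar.JJ_apply, ← hM, AbVar.per_bas]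
    rfl
  rw [h1, trace_re, map_smul, h0, smul_zero, Complex.zero_re, mul_zero, map_zero]

variable {n : ℕ} {b : Basis (Fin n) ℂ (ℂ ⊗[ℚ] A.H1)}
  {χ : Fin n → (A.ZA →ₗ[ℚ] ℂ)} {σ : Equiv.Perm (Fin n)} {T : Finset (Fin n)}

/-- The Weil classes are killed by the skew elements of trace zero over the quadratic field. -/
theorem weil_kill (hA : CMIV A) (H : Rel χ σ T)
    (hb : ∀ k (R : A.ZA), (R : Module.End ℚ A.H1).baseChange ℂ (b k) = χ k R • b k)
    {P : A.ZA} {c : ℂ} (hc : c ≠ 0) (hP : ∀ k, χ k P = sg χ T k * c) {r : ℚ} (hr : r ≠ 0)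
    {w : A.H1 [⋀^Fin 2 × Fin 2]→ₗ[ℚ] ℚ} (hlin : LinOver (P : Module.End ℚ A.H1) r w)
    (hsupp : ∀ i j k l, cq w (b i) (b j) (b k) (b l) ≠ 0 →
      ({i, j, k, l} : Finset (Fin n)) = T ∨
          ({i, j, k, l} : Finset (Fin n)) = T.map σ.toEmbedding)
    {Z : Module.End ℚ A.H1}
    (hZ : Z.baseChange ℂ ∈ Algebra.adjoin ℂ (cx A.LA : Set (Module.End ℂ (ℂ ⊗[ℚ] A.H1))))
    (hZs : IsSkew A.om Z)
    (htr : LinearMap.trace ℚ A.H1 (Z * (P : Module.End ℚ A.H1)) = 0) : derA Z w = 0 := by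
  classical
  obtain ⟨ν, hν1, hν2, hν3, hν4⟩ := exists_ν hA hb hZ (skew_ext A.om (omC A) (omC_tmul A) hZs)
  -- the sum of the eigenvalues
  have hsum : ∑ t ∈ T, ν t = 0 := by
    have h1 : ((LinearMap.trace ℚ A.H1 (Z * (P : Module.End ℚ A.H1)) : ℚ) : ℂ) =
        ∑ k, χ k P * ν k := by
      have h2 : ((LinearMap.trace ℚ A.H1 (Z * (P : Module.End ℚ A.H1)) : ℚ) : ℂ) =
          LinearMap.trace ℂ (ℂ ⊗[ℚ] A.H1) ((Z * (P : Module.End ℚ A.H1)).baseChange ℂ) := by
        rw [LinearMap.trace_baseChange]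
        rfl
      rw [h2, bc_mul]
      refine trace_diag b _ _ fun k => ?_
      rw [Module.End.mul_apply, hb, map_smul]
      by_cases hk : χ k = 0
      · rw [hk, LinearMap.zero_apply, zero_smul, zero_mul, zero_smul]
      · rw [hν1 k hk, smul_smul]
    rw [htr, H.sum_univ _ fun k hk => by rw [hk, LinearMap.zero_apply, zero_mul]] at h1
    have h3 : ∑ t ∈ T, χ t P * ν t = c * ∑ t ∈ T, ν t := by
      rw [Finset.mul_sum]
      exact Finset.sum_congr rfl fun t ht => by rw [hP, sg_of_eq ht rfl, one_mul]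
    have h4 : ∑ t ∈ T, χ (σ t) P * ν (σ t) = c * ∑ t ∈ T, ν t := by
      rw [Finset.mul_sum]
      refine Finset.sum_congr rfl fun t ht => ?_
      have h5 := hν4 (σ t) t (by rw [H.opp, neg_add_cancel])
      rw [hP, H.sg_of_neg ht (H.opp t)]
      linear_combination (-c) * h5
    rw [h3, h4, ← two_mul, Rat.cast_zero] at h1
    have h5 := (mul_eq_zero.1 h1.symm).resolve_left two_ne_zero
    exact (mul_eq_zero.1 h5).resolve_left hc
  have hdist : ∀ i j k l, (({i, j, k, l} : Finset (Fin n)) = T ∨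
      ({i, j, k, l} : Finset (Fin n)) = T.map σ.toEmbedding) →
      ν i + ν j + ν k + ν l = 0 := by
    intro i j k l h
    have hc4 : ({i, j, k, l} : Finset (Fin n)).card = 4 := by
      rcases h with h | h
      · rw [h, H.card]
      · rw [h, Finset.card_map, H.card]
    have hs : ∑ x ∈ ({i, j, k, l} : Finset (Fin n)), ν x = ν i + ν j + ν k + ν l := by
      have e1 : i ∉ ({j, k, l} : Finset (Fin n)) := by
        intro hi
        rw [Finset.insert_eq_of_mem hi] at hc4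
        have := Finset.card_le_three (a := j) (b := k) (c := l)
        omega
      have e2 : j ∉ ({k, l} : Finset (Fin n)) := by
        intro hj
        rw [Finset.insert_eq_of_mem hj, Finset.card_insert_of_notMem (by
          intro hi; exact e1 (Finset.mem_insert_of_mem hi))] at hc4
        have := Finset.card_le_two (a := k) (b := l)
        omega
      have e3 : k ∉ ({l} : Finset (Fin n)) := by
        intro hk
        rw [Finset.card_insert_of_notMem e1, Finset.card_insert_of_notMem e2,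
          Finset.insert_eq_of_mem hk, Finset.card_singleton] at hc4
        omega
      rw [Finset.sum_insert e1, Finset.sum_insert e2, Finset.sum_insert e3, Finset.sum_singleton]
      ring
    rw [← hs]
    rcases h with h | h
    · rw [h, hsum]
    · rw [h, Finset.sum_map, ← neg_eq_zero, ← Finset.sum_neg_distrib, ← hsum]
      refine Finset.sum_congr rfl fun t _ => ?_
      have h5 := hν4 (σ t) t (by rw [H.opp, neg_add_cancel])
      change -ν (σ t) = ν t
      linear_combination -h5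
  obtain ⟨Ψ, hΨ⟩ : ∃ Ψ, Ψ = cq w := ⟨_, rfl⟩
  have hAlt : Alt4 Ψ := hΨ ▸ alt_cq w
  -- the form vanishes on `U0`
  have e4 : ∀ x y z t, Ψ ((P : Module.End ℚ A.H1).baseChange ℂ
      ((P : Module.End ℚ A.H1).baseChange ℂ x)) y z t = -((r : ℂ) * Ψ x y z t) := by
    have h1 : Ψ ∘ₗ ((P : Module.End ℚ A.H1).baseChange ℂ *
        (P : Module.End ℚ A.H1).baseChange ℂ) = (-(r : ℂ)) • Ψ := by
      apply q4_rat_ext
      intro x y z t
      change Ψ ((P : Module.End ℚ A.H1).baseChange ℂ ((P : Module.End ℚ A.H1).baseChange ℂ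
        ((1 : ℂ) ⊗ₜ[ℚ] x))) _ _ _ = (-(r : ℂ)) • Ψ ((1 : ℂ) ⊗ₜ[ℚ] x) _ _ _
      rw [LinearMap.baseChange_tmul, LinearMap.baseChange_tmul, hΨ, cq_one, cq_one, smul_eq_mul]
      have h2 := hlin.2 (vec4 x y z t) (0, 0)
      rw [up0, vec4_0] at h2
      rw [h2, map_neg, map_mul]
      change -((r : ℂ) * _) = _
      ring
    intro x y z t
    have h2 := congrArg (fun F : Q4 (ℂ ⊗[ℚ] A.H1) => F x y z t) h1
    refine h2.trans ?_
    change (-(r : ℂ)) • Ψ x y z t = _
    rw [smul_eq_mul]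
    ring
  have hr' : (r : ℂ) ≠ 0 := Rat.cast_ne_zero.2 hr
  have z1 : ∀ x ∈ U0 A, ∀ y z t, Ψ x y z t = 0 := by
    intro x hx y z t
    have h1 := e4 x y z t
    rw [hx P, map_zero, map_zero, LinearMap.zero_apply, LinearMap.zero_apply,
      LinearMap.zero_apply, eq_comm, neg_eq_zero] at h1
    exact (mul_eq_zero.1 h1).resolve_left hr'
  have z2 : ∀ x ∈ U0 A, ∀ y z t, Ψ y x z t = 0 := fun x hx y z t => by
    rw [← neg_eq_zero, ← hAlt.s1]; exact z1 x hx _ _ _
  have z3 : ∀ x ∈ U0 A, ∀ y z t, Ψ y z x t = 0 := fun x hx y z t => by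
    rw [← neg_eq_zero, ← hAlt.s2]; exact z2 x hx _ _ _
  have z4 : ∀ x ∈ U0 A, ∀ y z t, Ψ y z t x = 0 := fun x hx y z t => by
    rw [← neg_eq_zero, ← hAlt.s3]; exact z3 x hx _ _ _
  have hZU := U0_stab (adj_comm_ZA hZ)
  have k0 : ∀ k, χ k = 0 → b k ∈ U0 A := fun k hk => basis_mem_U0 hb hk
  apply cq_inj
  rw [cq_zero, cq_der, ← hΨ]
  refine q4_ext b fun i j k l => ?_
  rw [der4_apply]
  change _ = (0 : ℂ)
  by_cases hi : χ i = 0
  · rw [z1 _ (hZU _ (k0 i hi)), z1 _ (k0 i hi), z1 _ (k0 i hi), z1 _ (k0 i hi)]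
    ring
  by_cases hj : χ j = 0
  · rw [z2 _ (k0 j hj), z2 _ (hZU _ (k0 j hj)), z2 _ (k0 j hj), z2 _ (k0 j hj)]
    ring
  by_cases hk : χ k = 0
  · rw [z3 _ (k0 k hk), z3 _ (k0 k hk), z3 _ (hZU _ (k0 k hk)), z3 _ (k0 k hk)]
    ring
  by_cases hl : χ l = 0
  · rw [z4 _ (k0 l hl), z4 _ (k0 l hl), z4 _ (k0 l hl), z4 _ (hZU _ (k0 l hl))]
    ring
  rw [hν1 i hi, hν1 j hj, hν1 k hk, hν1 l hl]
  simp only [map_smul, LinearMap.smul_apply, smul_eq_mul]
  by_cases h0 : Ψ (b i) (b j) (b k) (b l) = 0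
  · rw [h0]
    ring
  · have h1 := hdist i j k l (hsupp i j k l (by rw [← hΨ]; exact h0))
    linear_combination h1 * Ψ (b i) (b j) (b k) (b l)

end Pool.Agent.H845.CM
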