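import Pool.Graph.R_seed8.R912.Q.AV2
import Pool.Graph.R_seed8.Y102.AV9

set_option autoImplicit false
set_option linter.unusedSectionVars false
set_option linter.unusedSimpArgs false
set_option linter.unusedVariables false

/-!
# The factors with complex multiplication of an abelian variety: separation of the characters
-/

open Module Function TensorProduct

noncomputable section

namespace Pool.Agent.H845.CM

open Pool.Agent.Y102 Pool.Agent.W516.DR Pool.Agent.H204R3.GP Pool.Agent.W516.KC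
  Pool.Agent.H204R3.SP Pool.Agent.R912

variable {g : ℕ} {A : AbVar g}

variable (A) in
/-- The factors of type IV have complex multiplication: the Lie algebra acts on them by a
commutative algebra. -/
def CMIV : Prop := ∀ R ∈ A.ZA, ∀ X ∈ A.LA, ∀ Y ∈ A.LA, (X * Y - Y * X) * R = 0

/-! ## No invariants -/

theorem adj_scalar {X : Module.End ℚ A.H1}
    (hX : X ∈ Algebra.adjoin ℚ (A.LA : Set (Module.End ℚ A.H1))) {v : A.H1}
    (hv : ∀ Y ∈ A.LA, Y v = 0) : ∃ c : ℚ, X v = c • v := by
  induction hX using Algebra.adjoin_induction with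
  | mem x hx => exact ⟨0, by rw [hv x hx, zero_smul]⟩
  | algebraMap r => exact ⟨r, by rw [Module.algebraMap_end_apply]⟩
  | add x y _ _ hx hy =>
    obtain ⟨c, hc⟩ := hx
    obtain ⟨d, hd⟩ := hy
    exact ⟨c + d, by rw [LinearMap.add_apply, hc, hd, add_smul]⟩
  | mul x y _ _ hx hy =>
    obtain ⟨c, hc⟩ := hx
    obtain ⟨d, hd⟩ := hy
    exact ⟨d * c, by rw [Module.End.mul_apply, hd, map_smul, hc, smul_smul]⟩

/-- The Lie algebra has no invariants. -/
theorem inv0 {v : A.H1} (hv : ∀ Y ∈ A.LA, Y v = 0) : v = 0 := by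
  have h1 : A.E (Complex.I • A.per v) (A.per v) = 0 := by
    apply exists_sep
    intro f
    rw [← A.om_cmp]
    obtain ⟨c, hc⟩ := adj_scalar (A.NA_adjoin (A.MA_le_NA (A.J_mem f))) hv
    have h2 : A.cmp f (Complex.I • A.per v) = A.cmpE f AbVar.JJ v := rfl
    rw [h2, hc, map_smul, LinearMap.smul_apply]
    have h3 := A.om_anti v v
    have h4 : A.om v v = 0 := by linarith
    rw [h4, smul_zero]
  apply A.per_inj
  rw [map_zero]
  by_contra hne
  have h2 := A.E_pos hne
  rw [A.E_anti, h1, neg_zero] at h2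
  exact lt_irrefl _ h2

theorem cmp_bc {W : Type} [AddCommGroup W] [Module ℚ W] [FiniteDimensional ℚ W]
    (lam : ℂ →ₗ[ℚ] ℚ) (X : Module.End ℚ W) (z : ℂ ⊗[ℚ] W) :
    Pool.Agent.W516.DR.cmp lam (X.baseChange ℂ z) = X (Pool.Agent.W516.DR.cmp lam z) := by
  induction z with
  | zero => simp only [map_zero]
  | add a b ha hb => simp only [map_add, ha, hb]
  | tmul a w =>
    rw [LinearMap.baseChange_tmul, Pool.Agent.W516.DR.cmp_tmul, Pool.Agent.W516.DR.cmp_tmul,
      map_smul]

theorem invC {u : ℂ ⊗[ℚ] A.H1} (hu : ∀ Y ∈ A.LA, Y.baseChange ℂ u = 0) : u = 0 := by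
  apply Pool.Agent.W516.DR.eq_zero_of_cmp (k := ℚ)
  intro lam
  apply inv0 (A := A)
  intro Y hY
  rw [← cmp_bc, hu Y hY, map_zero]

/-- Functionals killed by the Lie algebra are zero. -/
theorem coinv {f : (ℂ ⊗[ℚ] A.H1) →ₗ[ℂ] ℂ} (hf : ∀ Y ∈ A.LA, ∀ u, f (Y.baseChange ℂ u) = 0) :
    f = 0 := by
  have hinj : Function.Injective (omC A) := by
    rw [injective_iff_map_eq_zero]
    intro u hu
    refine nondeg_ext A.om (omC A) (omC_tmul A) (fun u hu => A.om_nondeg hu) u fun z => ?_
    rw [hu, LinearMap.zero_apply]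
  have hsurj : Function.Surjective (omC A) := by
    rw [← LinearMap.injective_iff_surjective_of_finrank_eq_finrank]
    · exact hinj
    · exact (Subspace.dual_finrank_eq).symm
  obtain ⟨v, hv⟩ := hsurj f
  have h1 : v = 0 := by
    apply invC (A := A)
    intro Y hY
    refine nondeg_ext A.om (omC A) (omC_tmul A) (fun u hu => A.om_nondeg hu) _ fun z => ?_
    have h2 := skew_ext A.om (omC A) (omC_tmul A) (A.LA_skew hY) v z
    have h3 := hf Y hY z
    rw [← hv] at h3
    rw [h3, add_zero] at h2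
    exact h2
  rw [← hv, h1, map_zero]

/-! ## The action on the eigenvectors -/

theorem CL_mem_ZA {Z : Module.End ℚ A.H1} (hZ : Z ∈ A.CL) : Z ∈ A.ZA := by
  refine ⟨fun X hX => hZ.2 X hX, A.LA_skew hZ.1, fun Q hQ => hQ Z hZ.1⟩

theorem DA_mul (hA : CMIV A) {d : Module.End ℚ A.H1} (hd : d ∈ A.DA) {R : Module.End ℚ A.H1}
    (hR : R ∈ A.ZA) : d * R = 0 := by
  unfold AbVar.DA at hd
  induction hd using Submodule.span_induction with
  | mem x hx =>
    obtain ⟨X, hX, Y, hY, rfl⟩ := hx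
    exact hA R hR X hX Y hY
  | zero => rw [zero_mul]
  | add x y _ _ hx hy => rw [add_mul, hx, hy, add_zero]
  | smul c x _ hx => rw [smul_mul_assoc, hx, smul_zero]

variable {n : ℕ} {b : Basis (Fin n) ℂ (ℂ ⊗[ℚ] A.H1)} {χ : Fin n → (A.ZA →ₗ[ℚ] ℂ)}

theorem DA_kill (hA : CMIV A)
    (hb : ∀ k (R : A.ZA), (R : Module.End ℚ A.H1).baseChange ℂ (b k) = χ k R • b k)
    {d : Module.End ℚ A.H1} (hd : d ∈ A.DA) {k : Fin n} (hk : χ k ≠ 0) :
    d.baseChange ℂ (b k) = 0 := by
  obtain ⟨R₀, hR₀⟩ : ∃ R₀, χ k R₀ ≠ 0 := by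
    by_contra hne
    push Not at hne
    exact hk (LinearMap.ext hne)
  have h1 : d.baseChange ℂ ((R₀ : Module.End ℚ A.H1).baseChange ℂ (b k)) = 0 := by
    rw [← LinearMap.comp_apply, ← LinearMap.baseChange_comp]
    have h6 : d ∘ₗ (R₀ : Module.End ℚ A.H1) = 0 := DA_mul hA hd R₀.2
    rw [h6, LinearMap.baseChange_zero, LinearMap.zero_apply]
  rw [hb, map_smul] at h1
  exact (smul_eq_zero.1 h1).resolve_left hR₀

/-- The elements of the Lie algebra on the eigenvectors. -/
theorem act (hA : CMIV A)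
    (hb : ∀ k (R : A.ZA), (R : Module.End ℚ A.H1).baseChange ℂ (b k) = χ k R • b k)
    {X : Module.End ℚ A.H1} (hX : X ∈ A.LA) : ∃ R : A.ZA, (R : Module.End ℚ A.H1) ∈ A.LA ∧
      (∀ k, χ k ≠ 0 → X.baseChange ℂ (b k) = χ k R • b k) ∧
      ∃ d ∈ A.DA, X = R + d := by
  obtain ⟨Z, hZ, d, hd, h⟩ := Submodule.mem_sup.1 (A.LA_le_sup hX)
  refine ⟨⟨Z, CL_mem_ZA hZ⟩, hZ.1, fun k hk => ?_, d, hd, h.symm⟩
  rw [← h, LinearMap.baseChange_add, LinearMap.add_apply, DA_kill hA hb hd hk, add_zero]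
  exact hb k ⟨Z, CL_mem_ZA hZ⟩

/-- **Separation**: different characters are different on the Lie algebra. -/
theorem sep (hA : CMIV A)
    (hb : ∀ k (R : A.ZA), (R : Module.End ℚ A.H1).baseChange ℂ (b k) = χ k R • b k)
    {i j : Fin n} (hi : χ i ≠ 0) (hj : χ j ≠ 0)
    (hL : ∀ R : A.ZA, (R : Module.End ℚ A.H1) ∈ A.LA → χ i R = χ j R) : χ i = χ j := by
  classical
  -- the operator between the eigenvectors
  let T : Module.End ℂ (ℂ ⊗[ℚ] A.H1) :=
    { toFun := fun v => b.repr v i • b j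
      map_add' := fun u v => by rw [map_add, Finsupp.add_apply, add_smul]
      map_smul' := fun c v => by
        rw [map_smul, Finsupp.smul_apply, smul_eq_mul, mul_smul, RingHom.id_apply] }
  have hT : ∀ v, T v = b.repr v i • b j := fun v => rfl
  have hTb : ∀ k, T (b k) = if k = i then b j else 0 := by
    intro k
    rw [hT, Basis.repr_self, Finsupp.single_apply]
    split_ifs
    · rw [one_smul]
    · rw [zero_smul]
  have hTX : ∀ X ∈ A.LA, T * X.baseChange ℂ = X.baseChange ℂ * T := by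
    intro X hX
    obtain ⟨R, hRL, hR, -⟩ := act hA hb hX
    refine b.ext fun k => ?_
    rw [Module.End.mul_apply, Module.End.mul_apply, hTb]
    by_cases hk : χ k = 0
    · have hki : k ≠ i := fun h => hi (h ▸ hk)
      rw [if_neg hki, map_zero, hT]
      obtain ⟨R₀, hR₀⟩ : ∃ R₀, χ i R₀ ≠ 0 := by
        by_contra hne
        push Not at hne
        exact hi (LinearMap.ext hne)
      have h1 : (R₀ : Module.End ℚ A.H1).baseChange ℂ (X.baseChange ℂ (b k)) = 0 := by
        have h2 : (R₀ : Module.End ℚ A.H1) * X = X * R₀ := (R₀.2.1 X hX).symm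
        have h3 : (R₀ : Module.End ℚ A.H1) ∘ₗ X = X ∘ₗ (R₀ : Module.End ℚ A.H1) := h2
        rw [← LinearMap.comp_apply, ← LinearMap.baseChange_comp, h3, LinearMap.baseChange_comp,
          LinearMap.comp_apply, hb, hk, LinearMap.zero_apply, zero_smul, map_zero]
      have h2 : ∀ v, b.repr ((R₀ : Module.End ℚ A.H1).baseChange ℂ v) i = χ i R₀ * b.repr v i := by
        intro v
        have h3 : (Finsupp.lapply i ∘ₗ b.repr.toLinearMap) ∘ₗ
            ((R₀ : Module.End ℚ A.H1).baseChange ℂ) =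
            (χ i R₀) • (Finsupp.lapply i ∘ₗ b.repr.toLinearMap) := by
          refine b.ext fun l => ?_
          rw [LinearMap.comp_apply, hb, map_smul, LinearMap.smul_apply, LinearMap.comp_apply,
            LinearEquiv.coe_coe, Basis.repr_self, Finsupp.lapply_apply, Finsupp.single_apply,
            smul_eq_mul, smul_eq_mul]
          by_cases hl : l = i
          · rw [if_pos hl, hl]
          · rw [if_neg hl, mul_zero, mul_zero]
        exact congrArg (fun F : ℂ ⊗[ℚ] A.H1 →ₗ[ℂ] ℂ => F v) h3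
      have h3 := h2 (X.baseChange ℂ (b k))
      rw [h1, map_zero, Finsupp.zero_apply] at h3
      rw [(mul_eq_zero.1 h3.symm).resolve_left hR₀, zero_smul]
    · rw [hR k hk, map_smul, hTb]
      split_ifs with hki
      · rw [hR j hj, hki, hL R hRL]
      · rw [map_zero, smul_zero]
  have hTR : ∀ R : A.ZA, T * (R : Module.End ℚ A.H1).baseChange ℂ =
      (R : Module.End ℚ A.H1).baseChange ℂ * T := by
    intro R
    rw [← comm_iff]
    intro lam
    have h1 : Pool.Agent.W516.DR.cmpE lam T ∈ A.EA := fun X hX =>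
      (((comm_iff X T).2 (hTX X hX)) lam).symm
    exact (R.2.2.2 _ h1).symm
  refine LinearMap.ext fun R => ?_
  have h1 := congrArg (fun F : Module.End ℂ (ℂ ⊗[ℚ] A.H1) => F (b i)) (hTR R)
  simp only [Module.End.mul_apply] at h1
  rw [hb, map_smul, hTb, if_pos rfl, hb] at h1
  have h2 : (χ i R - χ j R) • b j = 0 := by rw [sub_smul, h1, sub_self]
  exact sub_eq_zero.1 ((smul_eq_zero.1 h2).resolve_right (b.ne_zero j))

/-- Opposite characters: there is a permutation of the eigenbasis. -/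
theorem exists_perm (hb : ∀ k (R : A.ZA), (R : Module.End ℚ A.H1).baseChange ℂ (b k) = χ k R • b k) :
    ∃ σ : Equiv.Perm (Fin n), ∀ k, χ (σ k) = -χ k := by
  classical
  let G : Matrix (Fin n) (Fin n) ℂ := Matrix.of fun i j => omC A (b i) (b j)
  have hdet : G.det ≠ 0 := by
    intro h0
    obtain ⟨v, hv, hv0⟩ := Matrix.exists_mulVec_eq_zero_iff.2 h0
    apply hv
    have h1 : ∑ j, v j • b j = 0 := by
      refine nondeg_ext A.om (omC A) (omC_tmul A) (fun u hu => A.om_nondeg hu) _ fun z => ?_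
      rw [omC_anti]
      have h2 : (omC A).flip (∑ j, v j • b j) = 0 := by
        refine b.ext fun i => ?_
        rw [LinearMap.flip_apply, LinearMap.zero_apply, map_sum]
        have h3 := congrFun hv0 i
        rw [Matrix.mulVec, dotProduct] at h3
        rw [Pi.zero_apply] at h3
        rw [← h3]
        refine Finset.sum_congr rfl fun j _ => ?_
        rw [map_smul, smul_eq_mul, mul_comm]
        rfl
      have h4 := LinearMap.congr_fun h2 z
      rw [LinearMap.flip_apply] at h4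
      rw [h4, LinearMap.zero_apply, neg_zero]
    funext j
    exact Fintype.linearIndependent_iff.1 b.linearIndependent v h1 j
  rw [Matrix.det_apply] at hdet
  obtain ⟨σ, -, hσ⟩ := Finset.exists_ne_zero_of_sum_ne_zero hdet
  have h1 : ∀ i, G (σ i) i ≠ 0 := by
    intro i hi
    apply hσ
    have h2 : ∏ i, G (σ i) i = 0 :=
      Finset.prod_eq_zero (f := fun i => G (σ i) i) (Finset.mem_univ i) hi
    rw [h2, smul_zero]
  refine ⟨σ, fun k => LinearMap.ext fun R => ?_⟩
  have h2 := skew_ext A.om (omC A) (omC_tmul A) R.2.2.1 (b (σ k)) (b k)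
  rw [hb, hb, map_smul, LinearMap.smul_apply, map_smul, smul_eq_mul, smul_eq_mul, ← add_mul] at h2
  have h3 := (mul_eq_zero.1 h2).resolve_right (h1 k)
  rw [LinearMap.neg_apply]
  linear_combination h3

theorem sep0 (hA : CMIV A)
    (hb : ∀ k (R : A.ZA), (R : Module.End ℚ A.H1).baseChange ℂ (b k) = χ k R • b k)
    {i : Fin n} (hi : ∀ R : A.ZA, (R : Module.End ℚ A.H1) ∈ A.LA → χ i R = 0) : χ i = 0 := by
  by_contra hne
  obtain ⟨σ, hσ⟩ := exists_perm hb
  have h1 : χ (σ i) ≠ 0 := by rw [hσ]; exact neg_ne_zero.2 hne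
  have h2 := sep hA hb hne h1 fun R hR => by rw [hσ, LinearMap.neg_apply, hi R hR, neg_zero]
  rw [hσ] at h2
  apply hne
  refine LinearMap.ext fun R => ?_
  have h3 := LinearMap.congr_fun h2 R
  rw [LinearMap.neg_apply] at h3
  rw [LinearMap.zero_apply]
  have h4 : (2 : ℂ) * χ i R = 0 := by linear_combination h3
  exact (mul_eq_zero.1 h4).resolve_left two_ne_zero

end Pool.Agent.H845.CM
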