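import Pool.Agent.H845.CM.Blk

set_option autoImplicit false
set_option linter.unusedSectionVars false
set_option linter.unusedSimpArgs false
set_option linter.unusedVariables false

/-!
# The imaginary quadratic field given by a relation without cancellations
-/

open Module Function TensorProduct

noncomputable section

namespace Pool.Agent.H845.CM

open Pool.Agent.Y102 Pool.Agent.W516.DR Pool.Agent.H204R3.GP Pool.Agent.W516.KC
  Pool.Agent.H204R3.SP Pool.Agent.R912

variable {g : ℕ} {A : AbVar g}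

/-- The trace form represents all functionals. -/
theorem exists_trace (q : A.ZA →ₗ[ℚ] ℚ) : ∃ P : A.ZA, ∀ R : A.ZA,
    LinearMap.trace ℚ A.H1 ((P : Module.End ℚ A.H1) * (R : Module.End ℚ A.H1)) = q R := by
  let B : A.ZA →ₗ[ℚ] Module.Dual ℚ A.ZA :=
    LinearMap.mk₂ ℚ (fun z y : A.ZA => LinearMap.trace ℚ A.H1 (z.1 * y.1))
      (fun a b c => by rw [Submodule.coe_add, add_mul, map_add])
      (fun c a b => by rw [Submodule.coe_smul, smul_mul_assoc, map_smul])
      (fun a b c => by rw [Submodule.coe_add, mul_add, map_add])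
      (fun c a b => by rw [Submodule.coe_smul, mul_smul_comm, map_smul])
  have hB : ∀ z y, B z y = LinearMap.trace ℚ A.H1 (z.1 * y.1) := fun _ _ => rfl
  have hinj : Function.Injective B := by
    rw [injective_iff_map_eq_zero]
    intro z hz
    obtain ⟨M, hM⟩ := A.hodge_end (A.mem_EA.1 z.2.1)
    refine Subtype.ext (A.trace_sq hM z.2.2.1 ?_)
    have h1 := LinearMap.congr_fun hz z
    rw [hB] at h1
    exact h1
  have hsurj : Function.Surjective B := by
    have h1 : finrank ℚ A.ZA = finrank ℚ (Module.Dual ℚ A.ZA) :=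
      (Subspace.dual_finrank_eq (K := ℚ) (V := A.ZA)).symm
    exact (LinearMap.injective_iff_surjective_of_finrank_eq_finrank (K := ℚ) (V := A.ZA)
      (V₂ := Module.Dual ℚ A.ZA) h1).1 hinj
  obtain ⟨P, hP⟩ := hsurj q
  exact ⟨P, fun R => LinearMap.congr_fun hP R⟩

/-- Skew endomorphisms with a scalar square. -/
theorem pos_of_sq {X : Module.End ℚ A.H1} {M : (Fin g → ℂ) →ₗ[ℂ] (Fin g → ℂ)}
    (hM : ∀ w, M (A.per w) = A.per (X w)) (hs : IsSkew A.om X) {r : ℚ} {w : A.H1}
    (hXX : X (X w) = -(r • w)) (hXw : X w ≠ 0) : 0 < r := by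
  have hsk : ∀ u v, A.E (M u) v = -A.E u (M v) := by
    have h2 : A.E.comp (M.restrictScalars ℝ) = -(A.E.flip.comp (M.restrictScalars ℝ)).flip := by
      refine A.ext_per fun u => A.ext_per fun v => ?_
      change A.E (M (A.per u)) (A.per v) = -A.E (A.per u) (M (A.per v))
      rw [hM, hM, ← AbVar.om_coe, ← AbVar.om_coe, ← Rat.cast_neg]
      congr 1
      linear_combination hs u v
    intro u v
    exact congrArg (fun F : (Fin g → ℂ) →ₗ[ℝ] (Fin g → ℂ) →ₗ[ℝ] ℝ => F u v) h2
  have hPF : ∀ u v, A.PF (M u) v = -A.PF u (M v) := fun u v => by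
    rw [AbVar.PF_apply, AbVar.PF_apply, hsk, map_smul]
  have h1 : A.PF (M (A.per w)) (M (A.per w)) = r * A.PF (A.per w) (A.per w) := by
    rw [hPF, hM, hM, hXX, map_neg, map_neg, neg_neg]
    have h2 : A.per (r • w) = (r : ℝ) • A.per w := by
      rw [map_smul]
      funext i
      rw [Pi.smul_apply, Pi.smul_apply, Rat.smul_def, Complex.real_smul]
      norm_cast
    rw [h2, map_smul, smul_eq_mul]
  have hw : w ≠ 0 := by
    rintro rfl
    exact hXw (map_zero _)
  have h3 : 0 < A.PF (M (A.per w)) (M (A.per w)) := by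
    apply A.PF_pos
    rw [hM]
    intro h0
    apply hXw
    apply A.per_inj
    rw [h0, map_zero]
  have h4 : 0 < A.PF (A.per w) (A.per w) := by
    apply A.PF_pos
    intro h0
    apply hw
    apply A.per_inj
    rw [h0, map_zero]
  rw [h1] at h3
  have h5 := (pos_iff_pos_of_mul_pos h3).2 h4
  exact_mod_cast h5

end Pool.Agent.H845.CM
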