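import Pool.Agent.H845.CM.Weil

set_option autoImplicit false
set_option linter.unusedSectionVars false
set_option linter.unusedSimpArgs false
set_option linter.unusedVariables false

/-!
# The imaginary quadratic field given by a relation without cancellations
-/

open Module Function TensorProduct

noncomputable section

namespace Pool.Agent.H845.CM

open Pool.Agent.Y102 Pool.Agent.W516.DR Pool.Agent.H204R3.GP Pool.Agent.W516.KC
  Pool.Agent.H204R3.SP Pool.Agent.R912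

variable {g : ℕ} {A : AbVar g} {n : ℕ} {b : Basis (Fin n) ℂ (ℂ ⊗[ℚ] A.H1)}
  {χ : Fin n → (A.ZA →ₗ[ℚ] ℂ)} {σ : Equiv.Perm (Fin n)} {T : Finset (Fin n)}

/-- four characters without cancellations, which give all characters up to sign -/
structure Rel (χ : Fin n → (A.ZA →ₗ[ℚ] ℂ)) (σ : Equiv.Perm (Fin n)) (T : Finset (Fin n)) :
    Prop where
  opp : ∀ k, χ (σ k) = -χ k
  ne : ∀ x ∈ T, χ x ≠ 0
  card : T.card = 4
  canc : ∀ x ∈ T, ∀ y ∈ T, χ x + χ y ≠ 0
  all : ∀ k, χ k ≠ 0 → k ∈ T ∨ σ.symm k ∈ T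

open Classical in
/-- the signs -/
def sg (χ : Fin n → (A.ZA →ₗ[ℚ] ℂ)) (T : Finset (Fin n)) (k : Fin n) : ℂ :=
  if ∃ t ∈ T, χ k = χ t then 1 else if ∃ t ∈ T, χ k = -χ t then -1 else 0

theorem sg_of_eq {k t : Fin n} (ht : t ∈ T) (h : χ k = χ t) : sg χ T k = 1 := by
  unfold sg
  rw [if_pos ⟨t, ht, h⟩]

theorem sg_eq {k l : Fin n} (h : χ k = χ l) : sg χ T k = sg χ T l := by
  unfold sg
  rw [h]

namespace Rel

variable (H : Rel χ σ T)
include H

theorem sg_of_neg {k t : Fin n} (ht : t ∈ T) (h : χ k = -χ t) : sg χ T k = -1 := by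
  unfold sg
  rw [if_neg, if_pos ⟨t, ht, h⟩]
  rintro ⟨s, hs, hs'⟩
  exact H.canc s hs t ht (by rw [← hs', h, neg_add_cancel])

theorem sg_0 {k : Fin n} (h : χ k = 0) : sg χ T k = 0 := by
  unfold sg
  rw [if_neg, if_neg]
  · rintro ⟨s, hs, hs'⟩
    exact H.ne s hs (by rw [h] at hs'; exact neg_eq_zero.1 hs'.symm)
  · rintro ⟨s, hs, hs'⟩
    exact H.ne s hs (by rw [← hs', h])

theorem opp_symm (k : Fin n) : χ (σ.symm k) = -χ k := by
  have h := H.opp (σ.symm k)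
  rw [Equiv.apply_symm_apply] at h
  rw [h, neg_neg]

theorem cases (k : Fin n) : χ k = 0 ∨ (∃ t ∈ T, χ k = χ t) ∨ ∃ t ∈ T, χ k = -χ t := by
  by_cases h : χ k = 0
  · exact Or.inl h
  · rcases H.all k h with h1 | h1
    · exact Or.inr (Or.inl ⟨k, h1, rfl⟩)
    · exact Or.inr (Or.inr ⟨_, h1, by rw [H.opp_symm, neg_neg]⟩)

theorem sg_neg {k l : Fin n} (h : χ k + χ l = 0) : sg χ T k + sg χ T l = 0 := by
  have hl : χ l = -χ k := (neg_eq_of_add_eq_zero_right h).symm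
  rcases H.cases k with h1 | ⟨t, ht, h1⟩ | ⟨t, ht, h1⟩
  · rw [H.sg_0 h1, H.sg_0 (by rw [hl, h1, neg_zero]), add_zero]
  · rw [sg_of_eq ht h1, H.sg_of_neg ht (by rw [hl, h1])]
    ring
  · rw [H.sg_of_neg ht h1, sg_of_eq ht (by rw [hl, h1, neg_neg])]
    ring

theorem sg_sq {k : Fin n} (h : χ k ≠ 0) : sg χ T k * sg χ T k = 1 := by
  rcases H.cases k with h1 | ⟨t, ht, h1⟩ | ⟨t, ht, h1⟩
  · exact absurd h1 h
  · rw [sg_of_eq ht h1, one_mul]
  · rw [H.sg_of_neg ht h1]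
    ring

theorem disj : Disjoint T (T.map σ.toEmbedding) := by
  rw [Finset.disjoint_left]
  intro k hk hk'
  obtain ⟨t, ht, rfl⟩ := Finset.mem_map.1 hk'
  apply H.canc _ hk t ht
  change χ (σ t) + χ t = 0
  rw [H.opp, neg_add_cancel]

theorem sum_univ (f : Fin n → ℂ) (hf : ∀ k, χ k = 0 → f k = 0) :
    ∑ k, f k = ∑ t ∈ T, f t + ∑ t ∈ T, f (σ t) := by
  classical
  have h1 : ∑ t ∈ T, f (σ t) = ∑ t ∈ T.map σ.toEmbedding, f t := by
    rw [Finset.sum_map]
    rfl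
  rw [h1, ← Finset.sum_union H.disj]
  symm
  refine Finset.sum_subset (Finset.subset_univ _) fun k _ hk => hf k ?_
  by_contra hne
  apply hk
  rcases H.all k hne with h2 | h2
  · exact Finset.mem_union_left _ h2
  · refine Finset.mem_union_right _ (Finset.mem_map.2 ⟨_, h2, ?_⟩)
    change σ (σ.symm k) = k
    rw [Equiv.apply_symm_apply]

theorem sum_sg (R : A.ZA) : ∑ k, sg χ T k * χ k R = 2 * (∑ t ∈ T, χ t) R := by
  rw [H.sum_univ _ fun k hk => by rw [H.sg_0 hk, zero_mul], LinearMap.sum_apply,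
    two_mul (∑ t ∈ T, χ t R)]
  congr 1
  · exact Finset.sum_congr rfl fun t ht => by rw [sg_of_eq ht rfl, one_mul]
  · refine Finset.sum_congr rfl fun t ht => ?_
    rw [H.sg_of_neg ht (H.opp t), H.opp, LinearMap.neg_apply]
    ring

theorem sum_sq : ∑ k, sg χ T k * sg χ T k = 8 := by
  rw [H.sum_univ _ fun k hk => by rw [H.sg_0 hk, zero_mul]]
  have h1 : ∑ t ∈ T, sg χ T t * sg χ T t = ∑ t ∈ T, (1 : ℂ) :=
    Finset.sum_congr rfl fun t ht => by rw [sg_of_eq ht rfl, one_mul]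
  have h2 : ∑ t ∈ T, sg χ T (σ t) * sg χ T (σ t) = ∑ t ∈ T, (1 : ℂ) :=
    Finset.sum_congr rfl fun t ht => by rw [H.sg_of_neg ht (H.opp t)]; ring
  rw [h1, h2, Finset.sum_const, H.card]
  norm_num

/-- The endomorphism with the eigenvalues `± c`. -/
theorem exists_P (hb : ∀ k (R : A.ZA), (R : Module.End ℚ A.H1).baseChange ℂ (b k) = χ k R • b k)
    {v : ℂ} (hv : v ≠ 0) (q : A.ZA →ₗ[ℚ] ℚ) (hq : ∀ R, ((q R : ℚ) : ℂ) * v = (∑ t ∈ T, χ t) R) :
    ∃ P : A.ZA, ∀ k, χ k P = sg χ T k * (2 * v)⁻¹ := by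
  obtain ⟨P, hP⟩ := exists_trace q
  refine ⟨P, fun k => ?_⟩
  have h1 := dg_zero (ν := fun k => χ k P - sg χ T k * (2 * v)⁻¹) hb
    (fun k l h => by rw [h, sg_eq h]) (fun k l h => by
      have h2 : χ k P + χ l P = 0 := by rw [← LinearMap.add_apply, h, LinearMap.zero_apply]
      have h3 := H.sg_neg h
      linear_combination h2 - (2 * v)⁻¹ * h3)
    (fun R => by
      have h2 := trace_eq hb P R
      rw [hP] at h2
      have h3 := H.sum_sg R
      have h4 : ∑ k, (χ k P - sg χ T k * (2 * v)⁻¹) * χ k R =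
          ∑ k, χ k P * χ k R - (2 * v)⁻¹ * ∑ k, sg χ T k * χ k R := by
        rw [Finset.mul_sum, ← Finset.sum_sub_distrib]
        exact Finset.sum_congr rfl fun k _ => by ring
      rw [h4, ← h2, h3, ← hq R]
      field_simp
      ring) k
  exact sub_eq_zero.1 h1

end Rel

end Pool.Agent.H845.CM
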