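import Pool.Agent.H845.CM.Weil2

set_option autoImplicit false
set_option linter.unusedSectionVars false
set_option linter.unusedSimpArgs false
set_option linter.unusedVariables false

/-!
# The decomposition of a class
-/

open Module Function TensorProduct

noncomputable section

namespace Pool.Agent.H845.CM

open Pool.Agent.Y102 Pool.Agent.W516.DR Pool.Agent.H204R3.GP Pool.Agent.W516.KC
  Pool.Agent.H204R3.SP Pool.Agent.R912

variable {g : ℕ} {A : AbVar g} {n : ℕ} {b : Basis (Fin n) ℂ (ℂ ⊗[ℚ] A.H1)}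
  {χ : Fin n → (A.ZA →ₗ[ℚ] ℂ)} {σ : Equiv.Perm (Fin n)} {T : Finset (Fin n)}

theorem bc_inj' {X Y : Module.End ℚ A.H1} (h : X.baseChange ℂ = Y.baseChange ℂ) : X = Y := by
  obtain ⟨lam, hlam⟩ := Pool.Agent.Y102.exists_lam
  have h1 : ∀ Z : Module.End ℚ A.H1, Pool.Agent.W516.DR.cmpE lam (Z.baseChange ℂ) = Z := by
    intro Z
    refine LinearMap.ext fun w => ?_
    rw [Pool.Agent.W516.DR.cmpE_apply, LinearMap.baseChange_tmul,
      Pool.Agent.W516.DR.cmp_tmul, hlam, one_smul]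
  rw [← h1 X, h, h1]

theorem Rel.field (H : Rel χ σ T)
    (hb : ∀ k (R : A.ZA), (R : Module.End ℚ A.H1).baseChange ℂ (b k) = χ k R • b k)
    {P : A.ZA} {c : ℂ} (hc : c ≠ 0) (hP : ∀ k, χ k P = sg χ T k * c) :
    ∃ r : ℚ, 0 < r ∧ ((r : ℚ) : ℂ) = -(c * c) ∧
      ∀ R ∈ A.ZA, (P : Module.End ℚ A.H1) * P * R = -(r • R) := by
  obtain ⟨r, hr⟩ : ∃ r : ℚ, ((r : ℚ) : ℂ) = -(c * c) := by
    refine ⟨-(LinearMap.trace ℚ A.H1 ((P : Module.End ℚ A.H1) * P)) / 8, ?_⟩
    have h1 := trace_eq hb P P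
    have h2 : ∑ k, χ k P * χ k P = 8 * (c * c) := by
      rw [← H.sum_sq, Finset.sum_mul]
      exact Finset.sum_congr rfl fun k _ => by rw [hP]; ring
    rw [h2] at h1
    push_cast
    rw [h1]
    ring
  have hPP : ∀ R ∈ A.ZA, (P : Module.End ℚ A.H1) * P * R = -(r • R) := by
    intro R hR
    apply bc_inj'
    refine b.ext fun k => ?_
    have h1 : (R.baseChange ℂ : Module.End ℂ (ℂ ⊗[ℚ] A.H1)) (b k) = χ k ⟨R, hR⟩ • b k :=
      hb k ⟨R, hR⟩
    rw [bc_mul, bc_mul, Module.End.mul_apply, Module.End.mul_apply, h1, map_smul, map_smul, hb,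
      map_smul, hb, LinearMap.baseChange_neg, LinearMap.baseChange_smul, LinearMap.neg_apply,
      LinearMap.smul_apply, h1, smul_smul, smul_smul, hP]
    have h2 : (r • χ k ⟨R, hR⟩ • b k) = ((r : ℂ) * χ k ⟨R, hR⟩) • b k := by
      rw [mul_smul]
      exact (algebraMap_smul ℂ r _).symm
    rw [h2, ← neg_smul, hr]
    congr 1
    by_cases hk : χ k = 0
    · rw [hk, LinearMap.zero_apply]
      ring
    · have h3 := H.sg_sq hk
      linear_combination (χ k ⟨R, hR⟩ * c * c) * h3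
  refine ⟨r, ?_, hr, hPP⟩
  have hr0 : r ≠ 0 := by
    rintro rfl
    rw [Rat.cast_zero, eq_comm, neg_eq_zero] at hr
    exact mul_ne_zero hc hc hr
  obtain ⟨t, ht⟩ : T.Nonempty := by
    rw [← Finset.card_pos, H.card]
    norm_num
  have hP0 : (P : Module.End ℚ A.H1) ≠ 0 := by
    intro h0
    have h1 := hb t P
    rw [h0, LinearMap.baseChange_zero, LinearMap.zero_apply, hP, sg_of_eq ht rfl, one_mul] at h1
    exact hc ((smul_eq_zero.1 h1.symm).resolve_right (b.ne_zero t))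
  obtain ⟨w, hw⟩ : ∃ w, (P : Module.End ℚ A.H1) w ≠ 0 := by
    by_contra hne
    push Not at hne
    exact hP0 (LinearMap.ext hne)
  obtain ⟨M, hM⟩ := A.hodge_end (A.mem_EA.1 P.2.1)
  have h3 : ∀ u, (P : Module.End ℚ A.H1) ((P : Module.End ℚ A.H1) ((P : Module.End ℚ A.H1) u)) =
      -(r • (P : Module.End ℚ A.H1) u) := fun u => LinearMap.congr_fun (hPP P P.2) u
  refine pos_of_sq (w := (P : Module.End ℚ A.H1) w) hM P.2.2.1 (h3 w) ?_
  intro h0
  have h4 := h3 w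
  rw [h0, map_zero, eq_comm, neg_eq_zero, smul_eq_zero] at h4
  rcases h4 with h4 | h4
  · exact hr0 h4
  · exact hw h4

/-- the possible weights -/
structure Wt3 (χ : Fin n → (A.ZA →ₗ[ℚ] ℂ)) (σ : Equiv.Perm (Fin n)) (T : Finset (Fin n))
    (b : Basis (Fin n) ℂ (ℂ ⊗[ℚ] A.H1)) (ψ : Q4 (ℂ ⊗[ℚ] A.H1)) : Prop where
  wt : ∀ i j k l, ψ (b i) (b j) (b k) (b l) ≠ 0 → χ i + χ j + χ k + χ l = 0 ∨
    (({i, j, k, l} : Finset (Fin n)) = T ∧ χ i + χ j + χ k + χ l = ∑ t ∈ T, χ t) ∨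
    (({i, j, k, l} : Finset (Fin n)) = T.map σ.toEmbedding ∧
      χ i + χ j + χ k + χ l = -∑ t ∈ T, χ t)

theorem Wt3.prop {ψ : Q4 (ℂ ⊗[ℚ] A.H1)} (W : Wt3 χ σ T b ψ)
    (hb : ∀ k (R : A.ZA), (R : Module.End ℚ A.H1).baseChange ℂ (b k) = χ k R • b k)
    (R R' : A.ZA) : (∑ t ∈ T, χ t) R' • der4 ((R : Module.End ℚ A.H1).baseChange ℂ) ψ =
      (∑ t ∈ T, χ t) R • der4 ((R' : Module.End ℚ A.H1).baseChange ℂ) ψ := by
  refine q4_ext b fun i j k l => ?_
  simp only [LinearMap.smul_apply, der4_apply, wtR hb, smul_eq_mul]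
  by_cases h0 : ψ (b i) (b j) (b k) (b l) = 0
  · rw [h0]
    ring
  · rcases W.wt i j k l h0 with h | ⟨-, h⟩ | ⟨-, h⟩
    · rw [h, LinearMap.zero_apply, LinearMap.zero_apply]
      ring
    · rw [h]
      ring
    · rw [h, LinearMap.neg_apply, LinearMap.neg_apply]
      ring

/-- The two cases. -/
theorem alternative (hA : CMIV A)
    (hb : ∀ k (R : A.ZA), (R : Module.End ℚ A.H1).baseChange ℂ (b k) = χ k R • b k)
    (hσ : ∀ k, χ (σ k) = -χ k)
    (h8 : ∀ S : Finset (Fin n), (∀ x ∈ S, χ x ≠ 0) → S.card ≤ 8)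
    {φ : A.H1 [⋀^Fin 2 × Fin 2]→ₗ[ℚ] ℚ} (hL : ∀ X ∈ A.LA, derA X φ = 0) :
    (∀ R ∈ A.ZA, derA R φ = 0) ∨ ∃ T : Finset (Fin n), Rel χ σ T ∧ Wt3 χ σ T b (cq φ) ∧
      ∃ P : A.ZA, ∃ c : ℂ, c ≠ 0 ∧ ∀ k, χ k P = sg χ T k * c := by
  classical
  have hL' : ∀ X ∈ A.LA, Kill4 ⊤ (cq φ) (X.baseChange ℂ) := fun X hX => by
    rw [← kills_iff_der4, kills_iff_derA]
    exact hL X hX
  have hAlt := alt_cq φ
  by_cases h : ∀ i j k l, cq φ (b i) (b j) (b k) (b l) ≠ 0 → χ i + χ j + χ k + χ l = 0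
  · left
    intro R hR
    apply cq_inj
    rw [cq_zero, cq_der]
    refine q4_ext b fun i j k l => ?_
    have h1 := wtR (ψ := cq φ) hb ⟨R, hR⟩ i j k l
    rw [der4_apply]
    refine h1.trans ?_
    by_cases h0 : cq φ (b i) (b j) (b k) (b l) = 0
    · rw [h0, mul_zero]
      rfl
    · rw [h i j k l h0, LinearMap.zero_apply, zero_mul]
      rfl
  · right
    push Not at h
    obtain ⟨i, j, k, l, hne, hsum⟩ := h
    have hbad := (weights hA hb hσ hAlt hL' hne).resolve_left hsum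
    obtain ⟨T, hT⟩ : ∃ T : Finset (Fin n), T = {i, j, k, l} := ⟨_, rfl⟩
    have hTs : ∑ t ∈ T, χ t = χ i + χ j + χ k + χ l := by rw [hT]; exact hbad.sum
    have hT0 : ∑ t ∈ T, χ t ≠ 0 := by rw [hTs]; exact hsum
    have H := chars hA hb hσ
    obtain ⟨hall, hoth⟩ := H.other (T := T) (by rw [hT]; exact hbad.ne)
      (by rw [hT]; exact hbad.card) (by rw [hT]; exact hbad.rel) (by rw [hT]; exact hbad.canc) h8
    have HR : Rel χ σ T := ⟨hσ, by rw [hT]; exact hbad.ne, by rw [hT]; exact hbad.card,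
      by rw [hT]; exact hbad.canc, hall⟩
    have W : Wt3 χ σ T b (cq φ) := by
      refine ⟨fun i' j' k' l' hne' => ?_⟩
      by_cases h0 : χ i' + χ j' + χ k' + χ l' = 0
      · exact Or.inl h0
      · have hbad' := (weights hA hb hσ hAlt hL' hne').resolve_left h0
        rcases hoth _ hbad'.ne hbad'.card hbad'.rel with h1 | h1 | h1
        · rw [hbad'.sum] at h1
          exact absurd h1 h0
        · refine Or.inr (Or.inl ⟨h1, ?_⟩)
          rw [← hbad'.sum, h1]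
        · refine Or.inr (Or.inr ⟨h1, ?_⟩)
          rw [← hbad'.sum, h1, Finset.sum_map, ← Finset.sum_neg_distrib]
          exact Finset.sum_congr rfl fun t _ => hσ t
    refine ⟨T, HR, W, ?_⟩
    obtain ⟨s, hs⟩ : ∃ s, (∑ t ∈ T, χ t) s ≠ 0 := by
      by_contra hcon
      push Not at hcon
      exact hT0 (LinearMap.ext hcon)
    obtain ⟨v, hv⟩ : ∃ v, derA (s : Module.End ℚ A.H1) φ v ≠ 0 := by
      by_contra hcon
      push Not at hcon
      have h1 : derA (s : Module.End ℚ A.H1) φ = 0 := AlternatingMap.ext hcon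
      have h2 := wtR (ψ := cq φ) hb s i j k l
      rw [← der4_apply, ← cq_der, h1, cq_zero, ← hTs] at h2
      exact mul_ne_zero hs hne h2.symm
    have hid : ∀ R : A.ZA, (∑ t ∈ T, χ t) s * (derA (R : Module.End ℚ A.H1) φ v : ℚ) =
        (∑ t ∈ T, χ t) R * (derA (s : Module.End ℚ A.H1) φ v : ℚ) := by
      intro R
      have h1 := W.prop hb R s
      rw [← cq_der, ← cq_der] at h1
      have h2 := congrArg (fun F : Q4 (ℂ ⊗[ℚ] A.H1) => F ((1 : ℂ) ⊗ₜ[ℚ] v (0, 0))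
        ((1 : ℂ) ⊗ₜ[ℚ] v (0, 1)) ((1 : ℂ) ⊗ₜ[ℚ] v (1, 0)) ((1 : ℂ) ⊗ₜ[ℚ] v (1, 1))) h1
      simp only [LinearMap.smul_apply, cq_one, vec4_eta, smul_eq_mul] at h2
      exact h2
    let q : A.ZA →ₗ[ℚ] ℚ :=
      { toFun := fun R => derA (R : Module.End ℚ A.H1) φ v / derA (s : Module.End ℚ A.H1) φ v
        map_add' := fun R R' => by
          rw [← add_div]
          congr 1
          rw [derA_apply, derA_apply, derA_apply, ← Finset.sum_add_distrib]
          refine Finset.sum_congr rfl fun m _ => ?_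
          rw [Submodule.coe_add, LinearMap.add_apply, φ.map_update_add]
        map_smul' := fun a R => by
          rw [smul_eq_mul, RingHom.id_apply, ← mul_div_assoc]
          congr 1
          rw [derA_apply, derA_apply, Finset.mul_sum]
          refine Finset.sum_congr rfl fun m _ => ?_
          rw [Submodule.coe_smul, LinearMap.smul_apply, φ.map_update_smul, smul_eq_mul] }
    obtain ⟨P, hP⟩ := HR.exists_P hb hs q (fun R => by
      have h1 := hid R
      have h2 : (q R : ℂ) = (derA (R : Module.End ℚ A.H1) φ v : ℚ) /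
        (derA (s : Module.End ℚ A.H1) φ v : ℚ) := by
        rw [← Rat.cast_div]
        rfl
      have h3 : ((derA (s : Module.End ℚ A.H1) φ v : ℚ) : ℂ) ≠ 0 := Rat.cast_ne_zero.2 hv
      rw [h2, div_mul_eq_mul_div, div_eq_iff h3, ← h1, mul_comm])
    exact ⟨P, _, inv_ne_zero (mul_ne_zero two_ne_zero hs), hP⟩

end Pool.Agent.H845.CM
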