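import Pool.Agent.H845.CM.Weil3

set_option autoImplicit false
set_option linter.unusedSectionVars false
set_option linter.unusedSimpArgs false
set_option linter.unusedVariables false

/-!
# The decomposition of a class
-/

open Module Function TensorProduct

noncomputable section

namespace Pool.Agent.H845.CM

open Pool.Agent.Y102 Pool.Agent.W516.DR Pool.Agent.H204R3.GP Pool.Agent.W516.KC
  Pool.Agent.H204R3.SP Pool.Agent.R912

section Rat

variable {W : Type} [AddCommGroup W] [Module ℚ W] [FiniteDimensional ℚ W]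

theorem der4_comm {U : Type} [AddCommGroup U] [Module ℂ U] {X Y : Module.End ℂ U} (ψ : Q4 U)
    (h : X * Y = Y * X) : der4 X (der4 Y ψ) = der4 Y (der4 X ψ) := by
  have h' : ∀ u, X (Y u) = Y (X u) := fun u => LinearMap.congr_fun h u
  refine LinearMap.ext fun a => LinearMap.ext fun b => LinearMap.ext fun c =>
    LinearMap.ext fun d => ?_
  simp only [der4_apply, h']
  ring

theorem bc_mul' {W : Type} [AddCommGroup W] [Module ℚ W] (X Y : Module.End ℚ W) :
    ((X * Y).baseChange ℂ : Module.End ℂ (ℂ ⊗[ℚ] W)) = X.baseChange ℂ * Y.baseChange ℂ :=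
  LinearMap.baseChange_comp (A := ℂ) Y X

theorem derA_comm {X Y : Module.End ℚ W} (φ : W [⋀^Fin 2 × Fin 2]→ₗ[ℚ] ℚ)
    (h : X * Y = Y * X) : derA X (derA Y φ) = derA Y (derA X φ) := by
  apply cq_inj
  rw [cq_der, cq_der, cq_der, cq_der]
  apply der4_comm
  rw [← bc_mul', h, bc_mul']

theorem derA_smul_right (X : Module.End ℚ W) (q : ℚ) (φ : W [⋀^Fin 2 × Fin 2]→ₗ[ℚ] ℚ) :
    derA X (q • φ) = q • derA X φ := by
  refine AlternatingMap.ext fun v => ?_
  rw [derA_apply, AlternatingMap.smul_apply, derA_apply, Finset.smul_sum]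
  rfl

theorem derA_sub_right (X : Module.End ℚ W) (φ φ' : W [⋀^Fin 2 × Fin 2]→ₗ[ℚ] ℚ) :
    derA X (φ - φ') = derA X φ - derA X φ' := by
  refine AlternatingMap.ext fun v => ?_
  rw [derA_apply, AlternatingMap.sub_apply, derA_apply, derA_apply, ← Finset.sum_sub_distrib]
  rfl

theorem derA_add_right (X : Module.End ℚ W) (φ φ' : W [⋀^Fin 2 × Fin 2]→ₗ[ℚ] ℚ) :
    derA X (φ + φ') = derA X φ + derA X φ' := by
  refine AlternatingMap.ext fun v => ?_
  rw [derA_apply, AlternatingMap.add_apply, derA_apply, derA_apply, ← Finset.sum_add_distrib]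
  rfl

theorem derA_zero_right (X : Module.End ℚ W) :
    derA X (0 : W [⋀^Fin 2 × Fin 2]→ₗ[ℚ] ℚ) = 0 := by
  refine AlternatingMap.ext fun v => ?_
  rw [derA_apply]
  exact Finset.sum_eq_zero fun _ _ => rfl

/-- The form is linear over the algebra generated by `P`, and `P ^ 2 = - r` in its arguments. -/
def LinOver (P : Module.End ℚ W) (r : ℚ) (φ : W [⋀^Fin 2 × Fin 2]→ₗ[ℚ] ℚ) : Prop :=
  (∀ v i j, φ (update v i (P (v i))) = φ (update v j (P (v j)))) ∧
    ∀ v i, φ (update v i (P (P (v i)))) = -(r * φ v)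

/-- the same over the complex numbers -/
structure LinC {U : Type} [AddCommGroup U] [Module ℂ U] (P : Module.End ℂ U) (r : ℂ) (ψ : Q4 U) :
    Prop where
  e1 : ∀ a b c d, ψ (P a) b c d = ψ a (P b) c d
  e2 : ∀ a b c d, ψ a (P b) c d = ψ a b (P c) d
  e3 : ∀ a b c d, ψ a b (P c) d = ψ a b c (P d)
  e4 : ∀ a b c d, ψ (P (P a)) b c d = -(r * ψ a b c d)

theorem linOver_of {P : Module.End ℚ W} {r : ℚ} {φ : W [⋀^Fin 2 × Fin 2]→ₗ[ℚ] ℚ}
    (h : LinC (P.baseChange ℂ) (r : ℂ) (cq φ)) : LinOver P r φ := by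
  have e1 : ∀ a b c d, φ (vec4 (P a) b c d) = φ (vec4 a (P b) c d) := by
    intro a b c d
    apply (algebraMap ℚ ℂ).injective
    rw [← cq_one, ← cq_one, ← LinearMap.baseChange_tmul, ← LinearMap.baseChange_tmul, h.e1]
  have e2 : ∀ a b c d, φ (vec4 a (P b) c d) = φ (vec4 a b (P c) d) := by
    intro a b c d
    apply (algebraMap ℚ ℂ).injective
    rw [← cq_one, ← cq_one, ← LinearMap.baseChange_tmul, ← LinearMap.baseChange_tmul, h.e2]
  have e3 : ∀ a b c d, φ (vec4 a b (P c) d) = φ (vec4 a b c (P d)) := by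
    intro a b c d
    apply (algebraMap ℚ ℂ).injective
    rw [← cq_one, ← cq_one, ← LinearMap.baseChange_tmul, ← LinearMap.baseChange_tmul, h.e3]
  have e4 : ∀ a b c d, φ (vec4 (P (P a)) b c d) = -(r * φ (vec4 a b c d)) := by
    intro a b c d
    apply (algebraMap ℚ ℂ).injective
    rw [← cq_one, ← LinearMap.baseChange_tmul, ← LinearMap.baseChange_tmul, h.e4, map_neg, map_mul,
      cq_one]
    rfl
  have key : ∀ v i, φ (update v i (P (v i))) = φ (vec4 (P (v (0, 0))) (v (0, 1)) (v (1, 0))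
      (v (1, 1))) := by
    intro v
    refine forall4 ?_ ?_ ?_ ?_
    · conv_lhs => rw [← vec4_eta v]
      rw [up0, vec4_0]
    · conv_lhs => rw [← vec4_eta v]
      rw [up1, vec4_1, e1]
    · conv_lhs => rw [← vec4_eta v]
      rw [up2, vec4_2, e1, e2]
    · conv_lhs => rw [← vec4_eta v]
      rw [up3, vec4_3, e1, e2, e3]
  refine ⟨fun v i j => by rw [key, key], fun v => ?_⟩
  refine forall4 ?_ ?_ ?_ ?_
  · conv_lhs => rw [← vec4_eta v]
    rw [up0, vec4_0, e4, vec4_eta]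
  · conv_lhs => rw [← vec4_eta v]
    rw [up1, vec4_1, ← e1, ← e1, e4, vec4_eta]
  · conv_lhs => rw [← vec4_eta v]
    rw [up2, vec4_2, ← e2, ← e1, ← e2, ← e1, e4, vec4_eta]
  · conv_lhs => rw [← vec4_eta v]
    rw [up3, vec4_3, ← e3, ← e2, ← e1, ← e3, ← e2, ← e1, e4, vec4_eta]

end Rat

variable {g : ℕ} {A : AbVar g} {n : ℕ} {b : Basis (Fin n) ℂ (ℂ ⊗[ℚ] A.H1)}
  {χ : Fin n → (A.ZA →ₗ[ℚ] ℂ)} {σ : Equiv.Perm (Fin n)} {T : Finset (Fin n)}

/-- **The decomposition.** -/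
theorem split (H : Rel χ σ T)
    (hb : ∀ k (R : A.ZA), (R : Module.End ℚ A.H1).baseChange ℂ (b k) = χ k R • b k)
    {φ : A.H1 [⋀^Fin 2 × Fin 2]→ₗ[ℚ] ℚ} (W : Wt3 χ σ T b (cq φ)) {P : A.ZA} {c : ℂ} (hc : c ≠ 0)
    (hP : ∀ k, χ k P = sg χ T k * c) {r : ℚ} (hr : (r : ℂ) = -(c * c)) :
    ∃ q : ℚ, (∀ R ∈ A.ZA, derA R (φ - q • derA (P : Module.End ℚ A.H1)
      (derA (P : Module.End ℚ A.H1) φ)) = 0) ∧
      LinOver (P : Module.End ℚ A.H1) r (q • derA (P : Module.End ℚ A.H1)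
        (derA (P : Module.End ℚ A.H1) φ)) ∧
      ∀ i j k l, cq (q • derA (P : Module.End ℚ A.H1) (derA (P : Module.End ℚ A.H1) φ))
        (b i) (b j) (b k) (b l) ≠ 0 → ({i, j, k, l} : Finset (Fin n)) = T ∨
          ({i, j, k, l} : Finset (Fin n)) = T.map σ.toEmbedding := by
  have hr0 : (r : ℂ) ≠ 0 := by
    rw [hr]
    exact neg_ne_zero.2 (mul_ne_zero hc hc)
  have hTP : (∑ t ∈ T, χ t) P = 4 * c := by
    rw [LinearMap.sum_apply, Finset.sum_congr rfl fun t ht => by rw [hP, sg_of_eq ht rfl, one_mul],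
      Finset.sum_const, H.card, nsmul_eq_mul]
    norm_num
  have hw : ∀ i j k l, der4 ((P : Module.End ℚ A.H1).baseChange ℂ)
      (der4 ((P : Module.End ℚ A.H1).baseChange ℂ) (cq φ)) (b i) (b j) (b k) (b l) =
      ((χ i + χ j + χ k + χ l) P * (χ i + χ j + χ k + χ l) P) *
        cq φ (b i) (b j) (b k) (b l) := by
    intro i j k l
    rw [der4_apply, wtR hb, der4_apply, wtR hb, mul_assoc]
  refine ⟨-(16 * r)⁻¹, fun R hR => ?_, linOver_of ?_, fun i j k l hne => ?_⟩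
  · apply cq_inj
    rw [cq_zero, cq_der, cq_sub, cq_smul, cq_der, cq_der]
    refine q4_ext b fun i j k l => ?_
    rw [der4_apply]
    have h1 := wtR (ψ := (cq φ + (-1 : ℂ) • ((-(16 * r)⁻¹ : ℚ) : ℂ) • der4
      ((P : Module.End ℚ A.H1).baseChange ℂ) (der4 ((P : Module.End ℚ A.H1).baseChange ℂ)
        (cq φ)) : Q4 (ℂ ⊗[ℚ] A.H1))) hb ⟨R, hR⟩ i j k l
    refine h1.trans ?_
    simp only [LinearMap.add_apply (_ : ℂ ⊗[ℚ] A.H1 →ₗ[ℂ] _), LinearMap.smul_apply, hw]
    by_cases h0 : cq φ (b i) (b j) (b k) (b l) = 0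
    · rw [LinearMap.add_apply, LinearMap.add_apply, LinearMap.add_apply, h0]
      simp only [LinearMap.smul_apply, hw, h0, mul_zero, smul_zero, add_zero,
        LinearMap.zero_apply]
    · rcases W.wt i j k l h0 with h | ⟨-, h⟩ | ⟨-, h⟩
      · rw [h, LinearMap.zero_apply, zero_mul]
        rfl
      · rw [LinearMap.add_apply, LinearMap.add_apply, LinearMap.add_apply]
        simp only [LinearMap.smul_apply, hw, h, hTP, smul_eq_mul, LinearMap.zero_apply]
        push_cast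
        rw [hr]
        field_simp
        ring
      · rw [LinearMap.add_apply, LinearMap.add_apply, LinearMap.add_apply]
        simp only [LinearMap.smul_apply, hw, h, LinearMap.neg_apply, hTP, smul_eq_mul,
          LinearMap.zero_apply]
        push_cast
        rw [hr]
        field_simp
        ring
  · rw [cq_smul, cq_der, cq_der]
    have hin : ∀ i j k l, ((-(16 * r)⁻¹ : ℚ) : ℂ) • der4
        ((P : Module.End ℚ A.H1).baseChange ℂ) (der4 ((P : Module.End ℚ A.H1).baseChange ℂ)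
          (cq φ)) (b i) (b j) (b k) (b l) ≠ 0 → χ i P = χ j P ∧ χ j P = χ k P ∧ χ k P = χ l P ∧
          χ i P * χ i P = c * c := by
      intro i j k l hne
      rw [hw] at hne
      have h0 : cq φ (b i) (b j) (b k) (b l) ≠ 0 := by
        rintro h0
        rw [h0, mul_zero, smul_zero] at hne
        exact hne rfl
      have key : ∀ x ∈ ({i, j, k, l} : Finset (Fin n)), ∀ ε : ℂ, (∀ x ∈ ({i, j, k, l} :
          Finset (Fin n)), sg χ T x = ε) → ε * ε = 1 → χ i P = χ j P ∧ χ j P = χ k P ∧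
          χ k P = χ l P ∧ χ i P * χ i P = c * c := by
        intro x _ ε hε hε1
        rw [hP, hP, hP, hP, hε i (by simp), hε j (by simp), hε k (by simp), hε l (by simp)]
        refine ⟨rfl, rfl, rfl, ?_⟩
        linear_combination (c * c) * hε1
      rcases W.wt i j k l h0 with h | ⟨h1, h⟩ | ⟨h1, h⟩
      · exfalso
        apply hne
        rw [h, LinearMap.zero_apply, zero_mul, zero_mul, smul_zero]
      · refine key i (by simp) 1 (fun x hx => ?_) (one_mul 1)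
        rw [h1] at hx
        exact sg_of_eq hx rfl
      · refine key i (by simp) (-1) (fun x hx => ?_) (by ring)
        rw [h1] at hx
        obtain ⟨t, ht, rfl⟩ := Finset.mem_map.1 hx
        exact H.sg_of_neg ht (H.opp t)
    obtain ⟨Ψ, hΨ⟩ : ∃ Ψ : Q4 (ℂ ⊗[ℚ] A.H1), Ψ = ((-(16 * r)⁻¹ : ℚ) : ℂ) • der4
        ((P : Module.End ℚ A.H1).baseChange ℂ) (der4 ((P : Module.End ℚ A.H1).baseChange ℂ)
          (cq φ)) := ⟨_, rfl⟩
    have hin' : ∀ i j k l, Ψ (b i) (b j) (b k) (b l) ≠ 0 → χ i P = χ j P ∧ χ j P = χ k P ∧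
        χ k P = χ l P ∧ χ i P * χ i P = c * c := by
      intro i j k l hne
      refine hin i j k l ?_
      rw [hΨ] at hne
      exact hne
    rw [← hΨ]
    obtain ⟨N, hN⟩ : ∃ N : Module.End ℂ (ℂ ⊗[ℚ] A.H1), N = (P : Module.End ℚ A.H1).baseChange ℂ :=
      ⟨_, rfl⟩
    have hNb : ∀ k, N (b k) = χ k P • b k := fun k => by rw [hN]; exact hb k P
    rw [← hN]
    -- the four identities
    have f1 : Ψ ∘ₗ N = (LinearMap.lcomp ℂ (ℂ ⊗[ℚ] A.H1 →ₗ[ℂ] ℂ ⊗[ℚ] A.H1 →ₗ[ℂ] ℂ) N) ∘ₗ Ψ := by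
      refine q4_ext b fun i j k l => ?_
      change Ψ (N (b i)) (b j) (b k) (b l) = Ψ (b i) (N (b j)) (b k) (b l)
      rw [hNb, hNb, map_smul, map_smul, LinearMap.smul_apply, LinearMap.smul_apply,
        LinearMap.smul_apply, LinearMap.smul_apply, LinearMap.smul_apply]
      by_cases h0 : Ψ (b i) (b j) (b k) (b l) = 0
      · rw [h0, smul_zero, smul_zero]
      · rw [(hin' i j k l h0).1]
    have f2 : (LinearMap.lcomp ℂ (ℂ ⊗[ℚ] A.H1 →ₗ[ℂ] ℂ ⊗[ℚ] A.H1 →ₗ[ℂ] ℂ) N) ∘ₗ Ψ =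
        (LinearMap.compRight ℂ (LinearMap.lcomp ℂ (ℂ ⊗[ℚ] A.H1 →ₗ[ℂ] ℂ) N)) ∘ₗ Ψ := by
      refine q4_ext b fun i j k l => ?_
      change Ψ (b i) (N (b j)) (b k) (b l) = Ψ (b i) (b j) (N (b k)) (b l)
      rw [hNb, hNb, map_smul, map_smul, LinearMap.smul_apply, LinearMap.smul_apply,
        LinearMap.smul_apply]
      by_cases h0 : Ψ (b i) (b j) (b k) (b l) = 0
      · rw [h0, smul_zero, smul_zero]
      · rw [(hin' i j k l h0).2.1]
    have f3 : (LinearMap.compRight ℂ (LinearMap.lcomp ℂ (ℂ ⊗[ℚ] A.H1 →ₗ[ℂ] ℂ) N)) ∘ₗ Ψ =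
        (LinearMap.compRight ℂ (LinearMap.compRight ℂ (LinearMap.lcomp ℂ ℂ N))) ∘ₗ Ψ := by
      refine q4_ext b fun i j k l => ?_
      change Ψ (b i) (b j) (N (b k)) (b l) = Ψ (b i) (b j) (b k) (N (b l))
      rw [hNb, hNb, map_smul, map_smul, LinearMap.smul_apply]
      by_cases h0 : Ψ (b i) (b j) (b k) (b l) = 0
      · rw [h0, smul_zero, smul_zero]
      · rw [(hin' i j k l h0).2.2.1]
    have f4 : Ψ ∘ₗ (N * N) = (-(r : ℂ)) • Ψ := by
      refine q4_ext b fun i j k l => ?_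
      change Ψ (N (N (b i))) (b j) (b k) (b l) = (-(r : ℂ)) • Ψ (b i) (b j) (b k) (b l)
      rw [hNb, map_smul, hNb, map_smul, map_smul, LinearMap.smul_apply, LinearMap.smul_apply,
        LinearMap.smul_apply, LinearMap.smul_apply, LinearMap.smul_apply, LinearMap.smul_apply,
        smul_smul]
      by_cases h0 : Ψ (b i) (b j) (b k) (b l) = 0
      · rw [h0, smul_zero, smul_zero]
      · rw [(hin' i j k l h0).2.2.2, hr, neg_neg]
    refine ⟨fun x y z w => ?_, fun x y z w => ?_, fun x y z w => ?_, fun x y z w => ?_⟩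
    · exact congrArg (fun F : Q4 (ℂ ⊗[ℚ] A.H1) => F x y z w) f1
    · exact congrArg (fun F : Q4 (ℂ ⊗[ℚ] A.H1) => F x y z w) f2
    · exact congrArg (fun F : Q4 (ℂ ⊗[ℚ] A.H1) => F x y z w) f3
    · have h1 := congrArg (fun F : Q4 (ℂ ⊗[ℚ] A.H1) => F x y z w) f4
      refine h1.trans ?_
      change (-(r : ℂ)) • Ψ x y z w = _
      rw [smul_eq_mul]
      ring

  · rw [cq_smul, cq_der, cq_der] at hne
    have hne' : ((-(16 * r)⁻¹ : ℚ) : ℂ) • der4
        ((P : Module.End ℚ A.H1).baseChange ℂ) (der4 ((P : Module.End ℚ A.H1).baseChange ℂ)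
          (cq φ)) (b i) (b j) (b k) (b l) ≠ 0 := hne
    rw [hw] at hne'
    have h0 : cq φ (b i) (b j) (b k) (b l) ≠ 0 := by
      rintro h0
      rw [h0, mul_zero, smul_zero] at hne'
      exact hne' rfl
    rcases W.wt i j k l h0 with h | ⟨h1, h⟩ | ⟨h1, h⟩
    · exfalso
      apply hne'
      rw [h, LinearMap.zero_apply, zero_mul, zero_mul, smul_zero]
    · exact Or.inl h1
    · exact Or.inr h1

end Pool.Agent.H845.CM
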