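import Pool.Agent.H845.CM.Blk

set_option autoImplicit false
set_option linter.unusedSectionVars false
set_option linter.unusedSimpArgs false
set_option linter.unusedVariables false

/-!
# The part without type IV
-/

open Module Function TensorProduct

noncomputable section

namespace Pool.Agent.H845.CM

open Pool.Agent.Y102 Pool.Agent.W516.DR Pool.Agent.H204R3.GP Pool.Agent.W516.KC
  Pool.Agent.H204R3.SP Pool.Agent.R912

variable {g : ℕ} {A : AbVar g}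

variable (A) in
/-- the part without type IV -/
def U0 : Submodule ℂ (ℂ ⊗[ℚ] A.H1) where
  carrier := {u | ∀ R : A.ZA, (R : Module.End ℚ A.H1).baseChange ℂ u = 0}
  zero_mem' := fun R => map_zero _
  add_mem' := fun {u v} hu hv R => by rw [map_add, hu R, hv R, add_zero]
  smul_mem' := fun c u hu R => by rw [map_smul, hu R, smul_zero]

theorem mem_U0 {u : ℂ ⊗[ℚ] A.H1} :
    u ∈ U0 A ↔ ∀ R : A.ZA, (R : Module.End ℚ A.H1).baseChange ℂ u = 0 := Iff.rfl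

/-- operators commuting with `ZA` preserve `U0` -/
theorem U0_stab {t : Module.End ℂ (ℂ ⊗[ℚ] A.H1)}
    (ht : ∀ R : A.ZA, t * (R : Module.End ℚ A.H1).baseChange ℂ =
      (R : Module.End ℚ A.H1).baseChange ℂ * t) : ∀ u ∈ U0 A, t u ∈ U0 A := by
  intro u hu R
  have h1 := LinearMap.congr_fun (ht R) u
  rw [Module.End.mul_apply, Module.End.mul_apply, hu R, map_zero] at h1
  exact h1.symm

/-! ## The centre -/

/-- the adjoint of a central element -/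
theorem exists_adj {P : Module.End ℚ A.H1} (hP : P ∈ ZC A) : ∃ P' ∈ ZC A,
    (∀ u v, A.om (P u) v = A.om u (P' v)) ∧ (∀ u v, A.om (P' u) v = A.om u (P v)) ∧
      P - P' ∈ A.ZA := by
  obtain ⟨P', hP', hadj⟩ := A.endAlg.adj P hP.1
  have hadj' : ∀ u v, A.om (P' u) v = A.om u (P v) := by
    intro u v
    rw [A.om_anti, ← hadj, A.om_anti, neg_neg]
  have hcen : ∀ Q ∈ A.EA, P' * Q = Q * P' := by
    intro Q hQ
    obtain ⟨Q', hQ', hQadj⟩ := A.endAlg.adj Q hQ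
    have hQadj' : ∀ u v, A.om (Q' u) v = A.om u (Q v) := by
      intro u v
      rw [A.om_anti, ← hQadj, A.om_anti, neg_neg]
    have h1 := hP.2 Q' hQ'
    refine LinearMap.ext fun v => ?_
    rw [← sub_eq_zero]
    apply A.om_nondeg
    intro u
    have h2 : P (Q' u) = Q' (P u) := LinearMap.congr_fun h1 u
    rw [map_sub, LinearMap.sub_apply, Module.End.mul_apply, Module.End.mul_apply, sub_eq_zero,
      hadj', hQadj, hQadj, hadj', h2]
  refine ⟨P', ⟨hP', hcen⟩, hadj, hadj', A.EA.sub_mem hP.1 hP', fun u v => ?_, fun Q hQ => ?_⟩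
  · rw [LinearMap.sub_apply, LinearMap.sub_apply, map_sub, map_sub, LinearMap.sub_apply,
      hadj, hadj']
    ring
  · rw [sub_mul, mul_sub, hP.2 Q hQ, hcen Q hQ]

/-- central skew elements have trace zero -/
theorem trace_ZA {N : Module.End ℚ A.H1} (hN : N ∈ A.ZA) : LinearMap.trace ℚ A.H1 N = 0 := by
  obtain ⟨n, b, χ, hb⟩ := A.exists_basis
  obtain ⟨σ, hσ⟩ := exists_perm hb
  have h1 : ((LinearMap.trace ℚ A.H1 N : ℚ) : ℂ) = ∑ k, χ k ⟨N, hN⟩ := by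
    have h2 : ((LinearMap.trace ℚ A.H1 N : ℚ) : ℂ) =
        LinearMap.trace ℂ (ℂ ⊗[ℚ] A.H1) (N.baseChange ℂ) := by
      rw [LinearMap.trace_baseChange]
      rfl
    rw [h2]
    exact trace_diag b _ _ fun k => hb k ⟨N, hN⟩
  have h2 : ∑ k, χ k ⟨N, hN⟩ = -∑ k, χ k ⟨N, hN⟩ := by
    conv_lhs => rw [← Equiv.sum_comp σ]
    rw [← Finset.sum_neg_distrib]
    exact Finset.sum_congr rfl fun k _ => by rw [hσ, LinearMap.neg_apply]
  rw [self_eq_neg.1 h2] at h1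
  exact_mod_cast h1

theorem trace_nd_rat {Z : Module.End ℚ A.H1} (hZ : Z ∈ ZC A)
    (h0 : ∀ Y ∈ ZC A, LinearMap.trace ℚ A.H1 (Z * Y) = 0) : Z = 0 := by
  obtain ⟨Z', hZ', h1, h2, h3⟩ := exists_adj hZ
  obtain ⟨S, hS⟩ : ∃ S, S = Z + Z' := ⟨_, rfl⟩
  obtain ⟨K, hK⟩ : ∃ K, K = Z - Z' := ⟨_, rfl⟩
  have hSZ : S ∈ ZC A := hS ▸ (ZC A).add_mem hZ hZ'
  have hKA : K ∈ A.ZA := hK ▸ h3
  have hKZ : K ∈ ZC A := hK ▸ (ZC A).sub_mem hZ hZ'
  have hSs : ∀ u v, A.om (S u) v = A.om u (S v) := by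
    intro u v
    rw [hS, LinearMap.add_apply, LinearMap.add_apply, map_add, map_add, LinearMap.add_apply,
      h1, h2, add_comm]
  have hKS : K * S ∈ A.ZA := by
    refine ⟨A.endAlg.mul K hKZ.1 S hSZ.1, fun u v => ?_, fun Q hQ => ?_⟩
    · have h4 := hKA.2.1 (S u) v
      have h5 : K (S v) = S (K v) := LinearMap.congr_fun (ZC_comm hKZ hSZ) v
      rw [Module.End.mul_apply, Module.End.mul_apply, h5, ← hSs]
      exact h4
    · rw [mul_assoc, hSZ.2 Q hQ, ← mul_assoc, hKZ.2 Q hQ, mul_assoc]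
  have htr := trace_ZA hKS
  have h2Z : S + K = (2 : ℚ) • Z := by
    rw [hS, hK, two_smul]
    abel
  have hSS : LinearMap.trace ℚ A.H1 (S * S) = 0 := by
    have h4 := h0 S hSZ
    have h5 : LinearMap.trace ℚ A.H1 ((S + K) * S) = 0 := by
      rw [h2Z, smul_mul_assoc, map_smul, h4, smul_zero]
    rw [add_mul, map_add, htr, add_zero] at h5
    exact h5
  have hKK : LinearMap.trace ℚ A.H1 (K * K) = 0 := by
    have h4 := h0 K hKZ
    have h5 : LinearMap.trace ℚ A.H1 ((S + K) * K) = 0 := by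
      rw [h2Z, smul_mul_assoc, map_smul, h4, smul_zero]
    rw [add_mul, map_add, ZC_comm hSZ hKZ, htr, zero_add] at h5
    exact h5
  obtain ⟨M, hM⟩ := A.hodge_end (A.mem_EA.1 hSZ.1)
  obtain ⟨M', hM'⟩ := A.hodge_end (A.mem_EA.1 hKZ.1)
  have e1 : S = 0 := trace_sym hM hSs hSS
  have e2 : K = 0 := A.trace_sq hM' hKA.2.1 hKK
  rw [e1, e2, add_zero] at h2Z
  exact (smul_eq_zero.1 h2Z.symm).resolve_left two_ne_zero

theorem trace_nd {Z : Module.End ℂ (ℂ ⊗[ℚ] A.H1)} (h : Z ∈ cx (ZC A))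
    (h0 : ∀ Y ∈ cx (ZC A), LinearMap.trace ℂ _ (Z * Y) = 0) : Z = 0 := by
  apply eq_zero_of_cmpE
  intro lam
  refine trace_nd_rat (cmp_of_ext (ZC A) h lam) fun Y hY => ?_
  rw [← cmpE_mul_bc, trace_cmpE, h0 _ (bc_mem hY), map_zero]

theorem adj_U0 {P P' : Module.End ℚ A.H1} (h : P - P' ∈ A.ZA) {u : ℂ ⊗[ℚ] A.H1} (hu : u ∈ U0 A) :
    P.baseChange ℂ u = P'.baseChange ℂ u := by
  have h1 := hu ⟨_, h⟩
  change (P - P').baseChange ℂ u = 0 at h1
  rw [LinearMap.baseChange_sub, LinearMap.sub_apply, sub_eq_zero] at h1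
  exact h1

/-- Central elements are symmetric on `U0`. -/
theorem sym_U0 : ∀ X ∈ cx (ZC A), ∀ u ∈ U0 A, ∀ v, omC A (X u) v = omC A u (X v) := by
  intro X hX
  induction hX using Submodule.span_induction with
  | mem X hX =>
    obtain ⟨P, hP, rfl⟩ := hX
    obtain ⟨P', hP', h1, h2, h3⟩ := exists_adj hP
    intro u hu v
    rw [adj_U0 h3 hu]
    exact omC_adj h2 u v
  | zero => intro u _ v; simp
  | add a b _ _ ha hb =>
    intro u hu v
    rw [LinearMap.add_apply, LinearMap.add_apply, map_add, map_add, LinearMap.add_apply,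
      ha u hu, hb u hu]
  | smul c a _ ha =>
    intro u hu v
    rw [LinearMap.smul_apply, LinearMap.smul_apply, map_smul, map_smul, LinearMap.smul_apply,
      ha u hu]

/-- Subspaces of `U0` which are stable under the Lie algebra and the endomorphisms meet their
orthogonal trivially. -/
theorem abs0 (P : Submodule ℂ (ℂ ⊗[ℚ] A.H1)) (hP0 : P ≤ U0 A)
    (hP1 : ∀ x ∈ cx A.LA, ∀ u ∈ P, x u ∈ P) (hP2 : ∀ x ∈ cx A.EA, ∀ u ∈ P, x u ∈ P) :
    ∀ u ∈ P, (∀ v ∈ P, omC A v u = 0) → u = 0 := by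
  by_contra hcon
  push Not at hcon
  obtain ⟨u, hu, hu', hu0⟩ := hcon
  let Q : Submodule ℂ (ℂ ⊗[ℚ] A.H1) := P ⊓ oP (omC A) P
  have hQL : ∀ x ∈ cx A.LA, ∀ u ∈ Q, x u ∈ Q := by
    rintro x hx u ⟨h1, h2⟩
    refine ⟨hP1 x hx u h1, fun v hv => ?_⟩
    have h3 := omC_skew A (fun X hX => A.LA_skew hX) x hx v u
    rw [h2 _ (hP1 x hx v hv), zero_add] at h3
    exact h3
  have hQE : ∀ x ∈ cx A.EA, ∀ u ∈ Q, x u ∈ Q := by
    rintro x hx u ⟨h1, h2⟩
    refine ⟨hP2 x hx u h1, fun v hv => ?_⟩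
    obtain ⟨x', hx', hadj⟩ := cx_adj x hx
    rw [omC_anti, hadj, omC_anti, h2 _ (hP2 x' hx' v hv)]
    simp
  have hQ0 : Q ≠ ⊥ := by
    intro hb
    have h1 : u ∈ Q := ⟨hu, hu'⟩
    rw [hb, Submodule.mem_bot] at h1
    exact hu0 h1
  have hle : cx (ZC A) ≤ cx A.EA := cx_mono fun X hX => hX.1
  have hcomm := cx_commutes A (S := ZC A) (T := ZC A) fun X hX Y hY => ZC_comm hX hY
  let ι : cx (ZC A) →ₗ[ℂ] Module.End ℂ (ℂ ⊗[ℚ] A.H1) := (cx (ZC A)).subtype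
  have hι : ∀ t, ι t = t.1 := fun _ => rfl
  obtain ⟨χ, q, hq, hq0, hχ⟩ := Pool.Agent.Y102.SP.kil_eig ι
    (fun (s t : cx (ZC A)) => hcomm s.1 s.2 t.1 t.2) _ Q le_rfl hQ0
    (fun (t : cx (ZC A)) u hu => hQE _ (hle t.2) u hu)
  have hχ' : ∀ z (hz : z ∈ cx (ZC A)), z q = χ ⟨z, hz⟩ • q := fun z hz => hχ ⟨z, hz⟩
  have hqU : q ∈ U0 A := hP0 hq.1
  obtain ⟨π, hπ, c, hc, hπq, hzπ⟩ := exists_proj (cx (ZC A)) hcomm
    (cx_mul (A := A) (S := ZC A) fun X hX Y hY => ZC_mul hX hY) (cx_one (A := A) ZC_one)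
    (fun Z hZ' h0 => trace_nd hZ' h0) χ hq0 hχ'
  -- the vector
  obtain ⟨v0, hv0⟩ : ∃ v, omC A q v ≠ 0 := by
    by_contra hcon
    push Not at hcon
    exact hq0 (nondeg_ext A.om (omC A) (omC_tmul A) (fun u hu => A.om_nondeg hu) q hcon)
  have hqv : omC A q (π v0) ≠ 0 := by
    rw [← sym_U0 _ hπ q hqU, hπq, map_smul, LinearMap.smul_apply, smul_eq_mul]
    exact mul_ne_zero hc hv0
  have hzv : ∀ z (hz : z ∈ cx (ZC A)), z (π v0) = χ ⟨z, hz⟩ • π v0 := fun z hz =>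
    LinearMap.congr_fun (hzπ z hz) v0
  let T : Module.End ℂ (ℂ ⊗[ℚ] A.H1) := ((omC A).flip (π v0)).smulRight (π v0)
  have hT : ∀ u, T u = omC A u (π v0) • π v0 := fun u => rfl
  have h1 := stab_of_comm hQL hQE (T := T) (fun Y hY => LinearMap.ext fun u => by
    obtain ⟨Y', hY', k1, k2, k3⟩ := exists_adj hY
    have e1 : χ ⟨_, bc_mem hY⟩ = χ ⟨_, bc_mem hY'⟩ := by
      have e2 := hχ' _ (bc_mem hY)
      rw [adj_U0 k3 hqU, hχ' _ (bc_mem hY')] at e2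
      exact (smul_left_injective ℂ hq0 e2).symm
    rw [Module.End.mul_apply, Module.End.mul_apply, hT, hT, omC_adj k1,
      map_smul, hzv _ (bc_mem hY), hzv _ (bc_mem hY'), map_smul, smul_eq_mul, smul_smul, e1,
      mul_comm (omC A u (π v0))]) q hq
  rw [hT] at h1
  have h2 : π v0 ∈ Q := by
    have h3 := Q.smul_mem (omC A q (π v0))⁻¹ h1
    rwa [smul_smul, inv_mul_cancel₀ hqv, one_smul] at h3
  exact hqv (h2.2 q hq.1)

end Pool.Agent.H845.CM
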