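import Pool.Agent.H845.CM.Zero
import Pool.Agent.H845.CM.Contr

set_option autoImplicit false
set_option linter.unusedSectionVars false
set_option linter.unusedSimpArgs false
set_option linter.unusedVariables false

/-!
# The representation on the part without type IV
-/

open Module Function TensorProduct

noncomputable section

namespace Pool.Agent.H845.CM

open Pool.Agent.Y102 Pool.Agent.W516.DR Pool.Agent.H204R3.GP Pool.Agent.W516.KC
  Pool.Agent.H204R3.SP Pool.Agent.R912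

variable {g : ℕ} {A : AbVar g} {n : ℕ} {b : Basis (Fin n) ℂ (ℂ ⊗[ℚ] A.H1)}
  {χ : Fin n → (A.ZA →ₗ[ℚ] ℂ)}

open Classical in
variable (b χ) in
/-- the projection to `U0` -/
def pr : Module.End ℂ (ℂ ⊗[ℚ] A.H1) := dg b fun k => if χ k = 0 then 1 else 0

theorem pr_mem (hb : ∀ k (R : A.ZA), (R : Module.End ℚ A.H1).baseChange ℂ (b k) = χ k R • b k)
    (u : ℂ ⊗[ℚ] A.H1) : pr b χ u ∈ U0 A := by
  classical
  intro R
  apply b.repr.injective
  refine Finsupp.ext fun l => ?_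
  rw [coef hb, pr, dg_coef, map_zero, Finsupp.zero_apply]
  by_cases h : χ l = 0
  · rw [h, LinearMap.zero_apply, zero_mul]
  · rw [if_neg h, zero_mul, mul_zero]

theorem repr_U0 (hb : ∀ k (R : A.ZA), (R : Module.End ℚ A.H1).baseChange ℂ (b k) = χ k R • b k)
    {u : ℂ ⊗[ℚ] A.H1} (hu : u ∈ U0 A) {l : Fin n} (hl : χ l ≠ 0) : b.repr u l = 0 := by
  obtain ⟨R, hR⟩ : ∃ R, χ l R ≠ 0 := by
    by_contra hne
    push Not at hne
    exact hl (LinearMap.ext hne)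
  have h1 := coef hb R u l
  rw [hu R, map_zero, Finsupp.zero_apply] at h1
  exact (mul_eq_zero.1 h1.symm).resolve_left hR

theorem pr_id (hb : ∀ k (R : A.ZA), (R : Module.End ℚ A.H1).baseChange ℂ (b k) = χ k R • b k)
    {u : ℂ ⊗[ℚ] A.H1} (hu : u ∈ U0 A) : pr b χ u = u := by
  classical
  apply b.repr.injective
  refine Finsupp.ext fun l => ?_
  rw [pr, dg_coef]
  by_cases h : χ l = 0
  · rw [if_pos h, one_mul]
  · rw [if_neg h, zero_mul, repr_U0 hb hu h]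

theorem pr_comm (hb : ∀ k (R : A.ZA), (R : Module.End ℚ A.H1).baseChange ℂ (b k) = χ k R • b k)
    {t : Module.End ℂ (ℂ ⊗[ℚ] A.H1)}
    (ht : ∀ R : A.ZA, t * (R : Module.End ℚ A.H1).baseChange ℂ =
      (R : Module.End ℚ A.H1).baseChange ℂ * t) : pr b χ * t = t * pr b χ := by
  classical
  exact dg_comm hb (fun k l h => by rw [h]) ht

theorem basis_mem_U0 (hb : ∀ k (R : A.ZA), (R : Module.End ℚ A.H1).baseChange ℂ (b k) = χ k R • b k)
    {k : Fin n} (hk : χ k = 0) : b k ∈ U0 A := by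
  intro R
  rw [hb, hk, LinearMap.zero_apply, zero_smul]

/-- `U0` is orthogonal to the other eigenvectors -/
theorem om_U0 (hb : ∀ k (R : A.ZA), (R : Module.End ℚ A.H1).baseChange ℂ (b k) = χ k R • b k)
    {u : ℂ ⊗[ℚ] A.H1} (hu : u ∈ U0 A) {k : Fin n} (hk : χ k ≠ 0) : omC A (b k) u = 0 := by
  obtain ⟨R, hR⟩ : ∃ R, χ k R ≠ 0 := by
    by_contra hne
    push Not at hne
    exact hk (LinearMap.ext hne)
  have h2 := skew_ext A.om (omC A) (omC_tmul A) R.2.2.1 (b k) u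
  rw [hb, hu R, map_zero, add_zero, map_smul, LinearMap.smul_apply, smul_eq_mul] at h2
  exact (mul_eq_zero.1 h2).resolve_left hR

/-- the form is nondegenerate on `U0` -/
theorem nd_U0 (hb : ∀ k (R : A.ZA), (R : Module.End ℚ A.H1).baseChange ℂ (b k) = χ k R • b k) :
    ∀ u ∈ U0 A, (∀ v ∈ U0 A, omC A v u = 0) → u = 0 := by
  intro u hu h
  refine nondeg_ext A.om (omC A) (omC_tmul A) (fun u hu => A.om_nondeg hu) u fun z => ?_
  have h1 : (omC A).flip u = 0 := by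
    refine b.ext fun k => ?_
    rw [LinearMap.flip_apply, LinearMap.zero_apply]
    by_cases hk : χ k = 0
    · exact h _ (basis_mem_U0 hb hk)
    · exact om_U0 hb hu hk
  rw [omC_anti]
  have h2 := LinearMap.congr_fun h1 z
  rw [LinearMap.flip_apply] at h2
  rw [h2, LinearMap.zero_apply, neg_zero]

/-! ## Restriction to `U0` -/

variable (A) in
/-- the Lie algebra on `U0` -/
def L0 : Submodule ℂ (Module.End ℂ (U0 A)) where
  carrier := {s | ∃ t ∈ cx A.LA, ∀ u : U0 A, ((s u : U0 A) : ℂ ⊗[ℚ] A.H1) = t u}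
  zero_mem' := ⟨0, Submodule.zero_mem _, fun u => rfl⟩
  add_mem' := by
    rintro s s' ⟨t, ht, h⟩ ⟨t', ht', h'⟩
    refine ⟨t + t', Submodule.add_mem _ ht ht', fun u => ?_⟩
    rw [LinearMap.add_apply, LinearMap.add_apply, Submodule.coe_add, h, h']
  smul_mem' := by
    rintro c s ⟨t, ht, h⟩
    refine ⟨c • t, Submodule.smul_mem _ c ht, fun u => ?_⟩
    rw [LinearMap.smul_apply, LinearMap.smul_apply, Submodule.coe_smul, h]

variable (A) in
/-- the form on `U0` -/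
def om0 : U0 A →ₗ[ℂ] U0 A →ₗ[ℂ] ℂ :=
  (LinearMap.lcomp ℂ ℂ (U0 A).subtype) ∘ₗ omC A ∘ₗ (U0 A).subtype

theorem om0_apply (u v : U0 A) : om0 A u v = omC A u.1 v.1 := rfl

theorem cx_comm_ZA {x : Module.End ℂ (ℂ ⊗[ℚ] A.H1)} (hx : x ∈ cx A.LA) (R : A.ZA) :
    x * (R : Module.End ℚ A.H1).baseChange ℂ = (R : Module.End ℚ A.H1).baseChange ℂ * x := by
  induction hx using Submodule.span_induction with
  | mem x hx =>
    obtain ⟨Y, hY, rfl⟩ := hx
    exact LA_comm_ZA hY R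
  | zero => rw [zero_mul, mul_zero]
  | add x y _ _ hx hy => rw [add_mul, mul_add, hx, hy]
  | smul c x _ hx => rw [smul_mul_assoc, mul_smul_comm, hx]

theorem cxE_comm_ZA {x : Module.End ℂ (ℂ ⊗[ℚ] A.H1)} (hx : x ∈ cx A.EA) (R : A.ZA) :
    x * (R : Module.End ℚ A.H1).baseChange ℂ = (R : Module.End ℚ A.H1).baseChange ℂ * x := by
  induction hx using Submodule.span_induction with
  | mem x hx =>
    obtain ⟨Y, hY, rfl⟩ := hx
    exact EA_comm_ZA hY R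
  | zero => rw [zero_mul, mul_zero]
  | add x y _ _ hx hy => rw [add_mul, mul_add, hx, hy]
  | smul c x _ hx => rw [smul_mul_assoc, mul_smul_comm, hx]

/-- restriction of an element of the Lie algebra -/
def rst {t : Module.End ℂ (ℂ ⊗[ℚ] A.H1)}
    (ht : ∀ R : A.ZA, t * (R : Module.End ℚ A.H1).baseChange ℂ =
      (R : Module.End ℚ A.H1).baseChange ℂ * t) : Module.End ℂ (U0 A) :=
  t.restrict (p := U0 A) (q := U0 A) (U0_stab ht)

theorem rst_coe {t : Module.End ℂ (ℂ ⊗[ℚ] A.H1)}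
    (ht : ∀ R : A.ZA, t * (R : Module.End ℚ A.H1).baseChange ℂ =
      (R : Module.End ℚ A.H1).baseChange ℂ * t) (u : U0 A) :
    ((rst ht u : U0 A) : ℂ ⊗[ℚ] A.H1) = t u := rfl

theorem rst_mem {t : Module.End ℂ (ℂ ⊗[ℚ] A.H1)} (h : t ∈ cx A.LA) : rst (cx_comm_ZA h) ∈ L0 A :=
  ⟨t, h, fun u => rfl⟩

variable (b χ) in
/-- extension by zero -/
def ext0 (hb : ∀ k (R : A.ZA), (R : Module.End ℚ A.H1).baseChange ℂ (b k) = χ k R • b k)
    (k : Module.End ℂ (U0 A)) : Module.End ℂ (ℂ ⊗[ℚ] A.H1) :=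
  (U0 A).subtype ∘ₗ k ∘ₗ (pr b χ).codRestrict (U0 A) (pr_mem hb)

theorem ext0_apply (hb : ∀ k (R : A.ZA), (R : Module.End ℚ A.H1).baseChange ℂ (b k) = χ k R • b k)
    (k : Module.End ℂ (U0 A)) (u : ℂ ⊗[ℚ] A.H1) :
    ext0 b χ hb k u = k ⟨pr b χ u, pr_mem hb u⟩ := rfl

theorem ext0_U0 (hb : ∀ k (R : A.ZA), (R : Module.End ℚ A.H1).baseChange ℂ (b k) = χ k R • b k)
    (k : Module.End ℂ (U0 A)) (u : U0 A) : ext0 b χ hb k u.1 = k u := by
  rw [ext0_apply]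
  congr 2
  exact Subtype.ext (pr_id hb u.2)

theorem ext0_comm (hb : ∀ k (R : A.ZA), (R : Module.End ℚ A.H1).baseChange ℂ (b k) = χ k R • b k)
    {k : Module.End ℂ (U0 A)} (hk : k ∈ comL (L0 A)) : ∀ x ∈ cx A.LA,
    x * ext0 b χ hb k = ext0 b χ hb k * x := by
  intro x hx
  refine LinearMap.ext fun u => ?_
  rw [Module.End.mul_apply, Module.End.mul_apply, ext0_apply, ext0_apply]
  have h1 := LinearMap.congr_fun (hk _ (rst_mem hx)) ⟨pr b χ u, pr_mem hb u⟩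
  rw [Module.End.mul_apply, Module.End.mul_apply] at h1
  have h2 : x ((k ⟨pr b χ u, pr_mem hb u⟩ : U0 A) : ℂ ⊗[ℚ] A.H1) =
      ((k (rst (cx_comm_ZA hx) ⟨pr b χ u, pr_mem hb u⟩) : U0 A) : ℂ ⊗[ℚ] A.H1) :=
    congrArg (fun v : U0 A => (v : ℂ ⊗[ℚ] A.H1)) h1
  rw [h2]
  congr 2
  apply Subtype.ext
  rw [rst_coe]
  exact (LinearMap.congr_fun (pr_comm hb (cx_comm_ZA hx)) u).symm

/-- operators commuting with the Lie algebra restrict -/
theorem rst_comL {x : Module.End ℂ (ℂ ⊗[ℚ] A.H1)} (hx : x ∈ cx A.EA) :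
    rst (cxE_comm_ZA hx) ∈ comL (L0 A) := by
  rintro s ⟨t, ht, hs⟩
  refine LinearMap.ext fun u => Subtype.ext ?_
  rw [Module.End.mul_apply, Module.End.mul_apply, hs, rst_coe, rst_coe, hs]
  have h1 := cx_commutes A (S := A.LA) (T := A.EA) (fun X hX Y hY => hY X hX) t ht x hx
  exact LinearMap.congr_fun h1 u.1

theorem thyp0 (hb : ∀ k (R : A.ZA), (R : Module.End ℚ A.H1).baseChange ℂ (b k) = χ k R • b k) :
    THyp0 (L0 A) (om0 A) where
  br := by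
    rintro s ⟨t, ht, hs⟩ s' ⟨t', ht', hs'⟩
    refine ⟨t * t' - t' * t, cx_br (fun X hX Y hY => by
      rw [← bc_br]
      exact bc_mem (A.LA_bracket hX hY)) t ht t' ht', fun u => ?_⟩
    rw [LinearMap.sub_apply, LinearMap.sub_apply, Submodule.coe_sub, Module.End.mul_apply,
      Module.End.mul_apply, Module.End.mul_apply, Module.End.mul_apply, hs, hs', hs', hs]
  skew := by
    rintro s ⟨t, ht, hs⟩ u v
    rw [om0_apply, om0_apply, hs, hs]
    exact omC_skew A (fun X hX => A.LA_skew hX) t ht u.1 v.1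
  alt := fun u v => omC_anti A u.1 v.1
  nd := fun u hu => Subtype.ext (nd_U0 hb u.1 u.2 fun v hv => hu ⟨v, hv⟩)
  abs := fun P h1 h2 u hu hu' => by
    have h3 := abs0 (P.map (U0 A).subtype) (fun x hx => by
      obtain ⟨y, _, rfl⟩ := hx
      exact y.2) (fun x hx v hv => by
        obtain ⟨y, hy, rfl⟩ := hv
        exact ⟨_, h1 _ (rst_mem hx) y hy, rfl⟩) (fun x hx v hv => by
        obtain ⟨y, hy, rfl⟩ := hv
        exact ⟨_, h2 _ (rst_comL hx) y hy, rfl⟩) u.1 ⟨u, hu, rfl⟩ (fun v hv => by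
        obtain ⟨y, hy, rfl⟩ := hv
        exact hu' y hy)
    exact Subtype.ext h3

theorem stab_map {P : Submodule ℂ (U0 A)} (h1 : ∀ x ∈ L0 A, ∀ u ∈ P, x u ∈ P) :
    ∀ x ∈ cx A.LA, ∀ u ∈ P.map (U0 A).subtype, x u ∈ P.map (U0 A).subtype := by
  intro x hx u hu
  obtain ⟨y, hy, rfl⟩ := hu
  exact ⟨_, h1 _ (rst_mem hx) y hy, rfl⟩

/-- elements of the enveloping algebra commute with `ZA` -/
theorem adj_comm_ZA {t : Module.End ℂ (ℂ ⊗[ℚ] A.H1)}
    (ht : t ∈ Algebra.adjoin ℂ (cx A.LA : Set (Module.End ℂ (ℂ ⊗[ℚ] A.H1)))) (R : A.ZA) :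
    t * (R : Module.End ℚ A.H1).baseChange ℂ = (R : Module.End ℚ A.H1).baseChange ℂ * t :=
  adj_comL ht _ fun y hy => cx_comm_ZA hy R

theorem rst_stab {t : Module.End ℂ (ℂ ⊗[ℚ] A.H1)}
    (ht : t ∈ Algebra.adjoin ℂ (cx A.LA : Set (Module.End ℂ (ℂ ⊗[ℚ] A.H1))))
    (P : Submodule ℂ (U0 A)) (h1 : ∀ x ∈ L0 A, ∀ u ∈ P, x u ∈ P) :
    ∀ u ∈ P, rst (adj_comm_ZA ht) u ∈ P := by
  intro u hu
  have h2 := Pool.Agent.Y102.SP.kil_adj _ (P.map (U0 A).subtype) (stab_map h1) _ ht u.1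
    ⟨u, hu, rfl⟩
  obtain ⟨y, hy, hy'⟩ := h2
  have h3 : y = rst (adj_comm_ZA ht) u := Subtype.ext (by rw [rst_coe]; exact hy')
  rw [← h3]
  exact hy

theorem rst_comm (hb : ∀ k (R : A.ZA), (R : Module.End ℚ A.H1).baseChange ℂ (b k) = χ k R • b k)
    {t : Module.End ℂ (ℂ ⊗[ℚ] A.H1)}
    (ht : t ∈ Algebra.adjoin ℂ (cx A.LA : Set (Module.End ℂ (ℂ ⊗[ℚ] A.H1))))
    {k : Module.End ℂ (U0 A)} (hk : k ∈ comL (L0 A)) :
    rst (adj_comm_ZA ht) * k = k * rst (adj_comm_ZA ht) := by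
  have h1 := adj_comL ht (ext0 b χ hb k) (ext0_comm hb hk)
  refine LinearMap.ext fun u => Subtype.ext ?_
  have h2 := LinearMap.congr_fun h1 u.1
  rw [Module.End.mul_apply, Module.End.mul_apply, ext0_U0] at h2
  rw [Module.End.mul_apply, Module.End.mul_apply, rst_coe, h2]
  exact ext0_U0 hb k (rst (adj_comm_ZA ht) u)

theorem rst_skew {t : Module.End ℂ (ℂ ⊗[ℚ] A.H1)}
    (ht : t ∈ Algebra.adjoin ℂ (cx A.LA : Set (Module.End ℂ (ℂ ⊗[ℚ] A.H1))))
    (hs : ∀ u v, omC A (t u) v + omC A u (t v) = 0) (u v : U0 A) :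
    om0 A (rst (adj_comm_ZA ht) u) v + om0 A u (rst (adj_comm_ZA ht) v) = 0 := by
  rw [om0_apply, om0_apply, rst_coe, rst_coe]
  exact hs u.1 v.1

theorem thyp (hb : ∀ k (R : A.ZA), (R : Module.End ℚ A.H1).baseChange ℂ (b k) = χ k R • b k) :
    THyp (L0 A) (om0 A) where
  toTHyp0 := thyp0 hb
  even' := fun N hN => by
    refine (thyp0 hb).even_of_J ?_ hN
    obtain ⟨J, hJ, hJJ⟩ := exists_J A
    have h1 : J ∈ Algebra.adjoin ℂ (cx A.LA : Set (Module.End ℂ (ℂ ⊗[ℚ] A.H1))) :=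
      A.cx_adjoin J (cx_mono A.MA_le_NA hJ)
    refine ⟨rst (adj_comm_ZA h1), LinearMap.ext fun u => Subtype.ext ?_,
      rst_skew h1 (omC_skew A (fun X hX => A.MA_skew hX) J hJ), rst_stab h1,
      fun k hk => rst_comm hb h1 hk⟩
    rw [Module.End.mul_apply, rst_coe, rst_coe]
    exact LinearMap.congr_fun hJJ u.1

end Pool.Agent.H845.CM
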